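import Pool.Agent.SelfCover.Sub

set_option autoImplicit false

/-!
# Iterated images and maximal zero triangles
-/

namespace Pool.Agent.SelfCover

variable (α : Gam →* Gam)

theorem Gk_zero : Gk α 0 = ⊤ := rfl

theorem Gk_succ (k : ℕ) : Gk α (k + 1) = (Gk α k).map α := rfl

section

variable (hinj : Function.Injective α) (hr : α.range = GamP)

include hinj hr

theorem Gk_index (k : ℕ) : (Gk α k).index = GamP.index ^ k := by
  induction k with
  | zero => rw [Gk_zero, Subgroup.index_top, pow_zero]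
  | succ k ih =>
    rw [Gk_succ, Subgroup.index_map_of_injective _ hinj, ih, hr, pow_succ]

theorem Gk_index_ne_zero (k : ℕ) : (Gk α k).index ≠ 0 := by
  rw [Gk_index α hinj hr]
  exact pow_ne_zero _ gamP_index_ne_zero

theorem two_pow_le_Gk_index (k : ℕ) : 2 ^ k ≤ (Gk α k).index := by
  rw [Gk_index α hinj hr]
  exact Nat.pow_le_pow_left gamP_index k

omit hinj in
theorem exists_mem_Gk' (k : ℕ) (i j : ℤ) : ∃ x ∈ Gk α k, x.i = i ∧ x.j = j := by
  induction k generalizing i j with
  | zero => exact ⟨Gam.ofZ i j, Subgroup.mem_top _, rfl, rfl⟩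
  | succ k ih =>
    have h1 : Gam.ofZ i j ∈ α.range := by
      rw [hr]
      exact ⟨0, AA.zero_mem, by simp⟩
    obtain ⟨z, hz⟩ := h1
    obtain ⟨y, hy, hyi, hyj⟩ := ih z.i z.j
    have h2 : (y⁻¹ * z) * (y⁻¹ * z) = 1 := by
      rw [mem_A_iff]
      constructor
      · simp [hyi]
      · simp [hyj]
    have h3 : (α (y⁻¹ * z)) * (α (y⁻¹ * z)) = 1 := by rw [← map_mul, h2, map_one]
    rw [mem_A_iff] at h3
    refine ⟨α y, ⟨y, hy, rfl⟩, ?_, ?_⟩
    · have h4 := h3.1
      rw [map_mul, map_inv, Gam.mul_i, Gam.inv_i, hz, Gam.ofZ_i] at h4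
      omega
    · have h4 := h3.2
      rw [map_mul, map_inv, Gam.mul_j, Gam.inv_j, hz, Gam.ofZ_j] at h4
      omega

end

theorem exists_mem_Gk (_hinj : Function.Injective α) (hr : α.range = GamP) (k : ℕ) (i j : ℤ) :
    ∃ x ∈ Gk α k, x.i = i ∧ x.j = j :=
  exists_mem_Gk' α hr k i j

/-- Conjugation acts on `A` by multiplication. -/
theorem conj_ofA (y : Gam) (a : K2) (ha : a ∈ AA) :
    y * Gam.ofA a ha * y⁻¹ = Gam.ofA (site y.i y.j * a) (site_mul_mem _ _ ha) := by
  ext
  · simp only [Gam.mul_v, Gam.inv_v, Gam.mul_i, Gam.mul_j, Gam.ofA_v, Gam.ofA_i, Gam.ofA_j, add_zero]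
    have h : site y.i y.j * site (-y.i) (-y.j) = 1 := by
      rw [site_mul, add_neg_cancel, add_neg_cancel, site_zero]
    linear_combination (-y.v) * h
  · simp
  · simp

/-- The intersection of `A` with the `k`-th iterated image. -/
noncomputable def II (k : ℕ) : AddSubgroup AA where
  carrier := {a | Gam.ofA a.1 a.2 ∈ Gk α k}
  zero_mem' := by
    have h : Gam.ofA ((0 : AA) : K2) (0 : AA).2 = 1 := by ext <;> simp
    show Gam.ofA ((0 : AA) : K2) (0 : AA).2 ∈ Gk α k
    rw [h]
    exact Subgroup.one_mem _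
  add_mem' := by
    intro a b ha hb
    have h : Gam.ofA ((a + b : AA) : K2) (a + b).2 = Gam.ofA a.1 a.2 * Gam.ofA b.1 b.2 := by
      ext <;> simp [site_zero]
    show Gam.ofA ((a + b : AA) : K2) (a + b).2 ∈ Gk α k
    rw [h]
    exact Subgroup.mul_mem _ ha hb
  neg_mem' := by
    intro a ha
    have h : Gam.ofA ((-a : AA) : K2) (-a).2 = (Gam.ofA a.1 a.2)⁻¹ := by
      ext <;> simp [site_zero]
    show Gam.ofA ((-a : AA) : K2) (-a).2 ∈ Gk α k
    rw [h]
    exact Subgroup.inv_mem _ ha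

theorem mem_II (k : ℕ) (a : AA) : a ∈ II α k ↔ Gam.ofA a.1 a.2 ∈ Gk α k := Iff.rfl

theorem ofA_congr {a b : K2} (h : a = b) (ha : a ∈ AA) (hb : b ∈ AA) :
    Gam.ofA a ha = Gam.ofA b hb := by
  subst h; rfl

section

variable (hinj : Function.Injective α) (hr : α.range = GamP)

include hr

/-- The group `II` is stable under shifts. -/
theorem site_mul_mem_II (k : ℕ) (p q : ℤ) {a : AA} (ha : a ∈ II α k) :
    (⟨site p q * a.1, site_mul_mem p q a.2⟩ : AA) ∈ II α k := by
  obtain ⟨y, hy, rfl, rfl⟩ := exists_mem_Gk' α hr k p q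
  rw [mem_II] at ha ⊢
  rw [← conj_ofA y a.1 a.2]
  exact Subgroup.mul_mem _ (Subgroup.mul_mem _ hy ha) (Subgroup.inv_mem _ hy)

/-- The natural map from the quotient of `A` to the cosets is bijective. -/
theorem card_quot_II (k : ℕ) : Nat.card (AA ⧸ II α k) = (Gk α k).index := by
  rw [Subgroup.index]
  refine Nat.card_congr (Equiv.ofBijective
    (Quotient.lift (fun a : AA => (QuotientGroup.mk (Gam.ofA a.1 a.2) : Gam ⧸ Gk α k)) ?_) ⟨?_, ?_⟩)
  · intro a b hab
    have hab' : -a + b ∈ II α k := QuotientAddGroup.leftRel_apply.1 hab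
    rw [QuotientGroup.eq]
    rw [mem_II] at hab'
    have h : (Gam.ofA a.1 a.2)⁻¹ * Gam.ofA b.1 b.2 = Gam.ofA ((-a + b : AA) : K2) (-a + b).2 := by
      ext <;> simp [site_zero]
    rw [h]
    exact hab'
  · intro x y
    induction x using Quotient.inductionOn with
    | h a =>
    induction y using Quotient.inductionOn with
    | h b =>
    intro hxy
    have hxy' : (QuotientGroup.mk (Gam.ofA a.1 a.2) : Gam ⧸ Gk α k)
      = QuotientGroup.mk (Gam.ofA b.1 b.2) := hxy
    rw [QuotientGroup.eq] at hxy'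
    apply Quotient.sound
    show QuotientAddGroup.leftRel (II α k) a b
    rw [QuotientAddGroup.leftRel_apply, mem_II]
    have h : (Gam.ofA a.1 a.2)⁻¹ * Gam.ofA b.1 b.2 = Gam.ofA ((-a + b : AA) : K2) (-a + b).2 := by
      ext <;> simp [site_zero]
    rw [← h]
    exact hxy'
  · intro q
    obtain ⟨x, rfl⟩ := QuotientGroup.mk_surjective q
    obtain ⟨y, hy, hyi, hyj⟩ := exists_mem_Gk' α hr k (-x.i) (-x.j)
    have h0 : (x * y).i = 0 ∧ (x * y).j = 0 := by
      constructor
      · simp [hyi]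
      · simp [hyj]
    refine ⟨Quotient.mk _ (⟨(x * y).v, (x * y).hv⟩ : AA), ?_⟩
    show (QuotientGroup.mk (Gam.ofA (x * y).v (x * y).hv) : Gam ⧸ Gk α k) = QuotientGroup.mk x
    have h1 : Gam.ofA (x * y).v (x * y).hv = x * y := by
      ext
      · rfl
      · rw [h0.1]; rfl
      · rw [h0.2]; rfl
    rw [h1, eq_comm, QuotientGroup.eq]
    have h2 : x⁻¹ * (x * y) = y := by group
    rw [h2]
    exact hy

include hinj

theorem finite_quot_II (k : ℕ) : Finite (AA ⧸ II α k) := by
  have h := card_quot_II α hr k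
  have h1 := Gk_index_ne_zero α hinj hr k
  rw [← h] at h1
  exact (Nat.card_ne_zero.1 h1).2

/-- Many functionals vanish on the iterated image, and some of them has a long run of zeros. -/
theorem exists_functional (N : ℕ) : ∃ X : AA →+ ZMod 2, X ≠ 0 ∧ (∀ a ∈ II α (N + 1), X a = 0) ∧
    ∀ i : ℤ, 0 ≤ i → i < N → X ⟨site i 0, site_mem i 0⟩ = 0 := by
  have hfin := finite_quot_II α hinj hr (N + 1)
  have hcard : 2 ^ (N + 1) ≤ Nat.card (AA ⧸ II α (N + 1)) := by
    rw [card_quot_II α hr]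
    exact two_pow_le_Gk_index α hinj hr _
  have h2 : ∀ x : AA ⧸ II α (N + 1), 2 • x = 0 := by
    intro x
    obtain ⟨a, rfl⟩ := QuotientAddGroup.mk_surjective x
    have h3 : (2 : ℕ) • a = 0 := by
      apply Subtype.ext
      rw [two_nsmul]
      exact char_two _
    rw [← QuotientAddGroup.mk_nsmul, h3]
    rfl
  let _ : Module (ZMod 2) (AA ⧸ II α (N + 1)) := AddCommGroup.zmodModule h2
  let b : Fin N → AA ⧸ II α (N + 1) := fun i =>
    QuotientAddGroup.mk (⟨site (i : ℤ) 0, site_mem _ 0⟩ : AA)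
  have hW : Submodule.span (ZMod 2) (Set.range b) < ⊤ := by
    rw [lt_top_iff_ne_top]
    intro h
    have h4 : Module.finrank (ZMod 2) (AA ⧸ II α (N + 1)) ≤ N := by
      rw [← finrank_top, ← h]
      have := finrank_range_le_card (R := ZMod 2) b
      rw [Fintype.card_fin] at this
      exact this
    have h5 : Nat.card (AA ⧸ II α (N + 1)) = 2 ^ Module.finrank (ZMod 2) (AA ⧸ II α (N + 1)) := by
      have h6 := Module.natCard_eq_pow_finrank (K := ZMod 2) (V := AA ⧸ II α (N + 1))
      rw [Nat.card_zmod] at h6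
      exact h6
    have h7 : 2 ^ Module.finrank (ZMod 2) (AA ⧸ II α (N + 1)) ≤ 2 ^ N :=
      Nat.pow_le_pow_right (by norm_num) h4
    have h8 : 2 ^ N < 2 ^ (N + 1) := Nat.pow_lt_pow_right (by norm_num) (by omega)
    omega
  obtain ⟨f, hf0, hf⟩ := Submodule.exists_le_ker_of_lt_top _ hW
  refine ⟨f.toAddMonoidHom.comp (QuotientAddGroup.mk' (II α (N + 1))), ?_, ?_, ?_⟩
  · intro h
    apply hf0
    ext x
    obtain ⟨a, rfl⟩ := QuotientAddGroup.mk_surjective x
    exact DFunLike.congr_fun h a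
  · intro a ha
    have h9 : (QuotientAddGroup.mk' (II α (N + 1))) a = 0 := by
      rw [QuotientAddGroup.mk'_apply, QuotientAddGroup.eq_zero_iff]
      exact ha
    rw [AddMonoidHom.comp_apply, h9, map_zero]
  · intro i hi0 hiN
    obtain ⟨m, rfl⟩ := Int.eq_ofNat_of_zero_le hi0
    have h10 : b ⟨m, by omega⟩ ∈ LinearMap.ker f :=
      hf (Submodule.subset_span ⟨_, rfl⟩)
    exact h10

/-- Functionals killing the iterated image are periodic. -/
theorem exists_period (k : ℕ) : ∃ P : ℕ, 0 < P ∧ ∀ X : AA →+ ZMod 2, (∀ a ∈ II α k, X a = 0) →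
    ∀ i j : ℤ, X ⟨site (i + P) j, site_mem _ _⟩ = X ⟨site i j, site_mem _ _⟩ ∧
      X ⟨site i (j + P), site_mem _ _⟩ = X ⟨site i j, site_mem _ _⟩ := by
  have hne := Gk_index_ne_zero α hinj hr k
  have hfi : (Gk α k).FiniteIndex := ⟨hne⟩
  have hN : (Gk α k).normalCore.index ≠ 0 := Subgroup.FiniteIndex.index_ne_zero
  refine ⟨(Gk α k).normalCore.index, Nat.pos_of_ne_zero hN, ?_⟩
  set P := (Gk α k).normalCore.index with hP
  have hpow : ∀ (x : Gam), x ^ P ∈ (Gk α k).normalCore := fun x => by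
    rw [hP]; exact Subgroup.pow_index_mem _ x
  have hpi : ∀ (n : ℕ) (x : Gam), (x ^ n).i = n * x.i ∧ (x ^ n).j = n * x.j := by
    intro n x
    induction n with
    | zero => simp
    | succ n ih =>
      rw [pow_succ, Gam.mul_i, Gam.mul_j, ih.1, ih.2]
      constructor <;> push_cast <;> ring
  -- a general statement
  have key : ∀ (y : Gam), y ∈ (Gk α k).normalCore → ∀ X : AA →+ ZMod 2,
      (∀ a ∈ II α k, X a = 0) → ∀ i j : ℤ,
      X ⟨site (i + y.i) (j + y.j), site_mem _ _⟩ = X ⟨site i j, site_mem _ _⟩ := by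
    intro y hy X hX i j
    set a : AA := ⟨site i j, site_mem _ _⟩ with ha
    set a' : AA := ⟨site (i + y.i) (j + y.j), site_mem _ _⟩ with ha'
    have h1 : y * (Gam.ofA a.1 a.2 * y⁻¹ * (Gam.ofA a.1 a.2)⁻¹) ∈ (Gk α k).normalCore := by
      refine Subgroup.mul_mem _ hy ?_
      exact (Subgroup.normalCore_normal (Gk α k)).conj_mem _ (Subgroup.inv_mem _ hy) _
    have h2 : y * (Gam.ofA a.1 a.2 * y⁻¹ * (Gam.ofA a.1 a.2)⁻¹)
        = Gam.ofA ((a' - a : AA) : K2) (a' - a).2 := by
      have h3 : y * (Gam.ofA a.1 a.2 * y⁻¹ * (Gam.ofA a.1 a.2)⁻¹)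
        = (y * Gam.ofA a.1 a.2 * y⁻¹) * (Gam.ofA a.1 a.2)⁻¹ := by group
      rw [h3, conj_ofA]
      ext
      · simp only [Gam.mul_v, Gam.ofA_v, Gam.ofA_i, Gam.ofA_j, Gam.inv_v, neg_zero, site_zero,
          one_mul, AddSubgroup.coe_sub, ha, ha', site_mul]
        rw [add_comm y.i i, add_comm y.j j]
        ring
      · simp
      · simp
    have h4 : a' - a ∈ II α k := by
      rw [mem_II, ← h2]
      exact Subgroup.normalCore_le _ h1
    have h5 := hX _ h4
    rw [map_sub, sub_eq_zero] at h5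
    exact h5
  intro X hX i j
  constructor
  · have h1 := key _ (hpow (Gam.ofZ 1 0)) X hX i j
    have h2 := hpi P (Gam.ofZ 1 0)
    simp only [Gam.ofZ_i, Gam.ofZ_j, mul_one, mul_zero] at h2
    rw [← h1]
    congr 1
    apply Subtype.ext
    show site (i + P) j = site _ _
    rw [h2.1, h2.2, add_zero]
  · have h1 := key _ (hpow (Gam.ofZ 0 1)) X hX i j
    have h2 := hpi P (Gam.ofZ 0 1)
    simp only [Gam.ofZ_i, Gam.ofZ_j, mul_one, mul_zero] at h2
    rw [← h1]
    congr 1
    apply Subtype.ext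
    show site i (j + P) = site _ _
    rw [h2.1, h2.2, add_zero]

end

/-- The value of a functional at a site. -/
noncomputable def val (X : AA →+ ZMod 2) (i j : ℤ) : ZMod 2 := X ⟨site i j, site_mem i j⟩

theorem val_rel (X : AA →+ ZMod 2) (i j : ℤ) :
    val X i (j + 1) = val X i j + val X (i + 1) j := by
  unfold val
  rw [← map_add]
  congr 1
  apply Subtype.ext
  exact site_rel i j

/-- A functional vanishing at all sites vanishes. -/
theorem eq_zero_of_val {X : AA →+ ZMod 2} (h : ∀ i j, val X i j = 0) : X = 0 := by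
  ext a
  obtain ⟨a, ha⟩ := a
  show X ⟨a, ha⟩ = 0
  have hcl : ∀ (b : K2) (hb : b ∈ AddSubgroup.closure {x | ∃ i j : ℤ, x = site i j}),
      X ⟨b, hb⟩ = 0 := by
    intro b hb
    induction hb using AddSubgroup.closure_induction with
    | mem x hx =>
      obtain ⟨i, j, rfl⟩ := hx
      exact h i j
    | zero => exact map_zero X
    | add x y hx hy h1 h2 =>
      have h3 : (⟨x + y, AddSubgroup.add_mem _ hx hy⟩ : AA) = ⟨x, hx⟩ + ⟨y, hy⟩ := rfl
      exact (congrArg X h3).trans (by rw [map_add, h1, h2, add_zero])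
    | neg x hx h1 =>
      have h3 : (⟨-x, AddSubgroup.neg_mem _ hx⟩ : AA) = -⟨x, hx⟩ := rfl
      exact (congrArg X h3).trans (by rw [map_neg, h1, neg_zero])
  exact hcl a ha

/-- Multiplication by a site as an endomorphism of `A`. -/
noncomputable def shiftHom (p q : ℤ) : AA →+ AA where
  toFun a := ⟨site p q * a.1, site_mul_mem p q a.2⟩
  map_zero' := by apply Subtype.ext; simp
  map_add' a b := by apply Subtype.ext; simp [mul_add]

theorem val_shift (X : AA →+ ZMod 2) (p q i j : ℤ) :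
    val (X.comp (shiftHom p q)) i j = val X (p + i) (q + j) := by
  unfold val
  rw [AddMonoidHom.comp_apply]
  congr 1
  apply Subtype.ext
  exact site_mul p q i j

theorem zmod2_cases (x : ZMod 2) : x = 0 ∨ x = 1 := by
  revert x; decide

section

variable (hinj : Function.Injective α) (hr : α.range = GamP)

include hinj hr

/-- A nonzero functional killing the iterated image has no zero row. -/
theorem no_zero_row (k : ℕ) {X : AA →+ ZMod 2} (hX : ∀ a ∈ II α k, X a = 0) (j0 : ℤ)
    (h0 : ∀ i, val X i j0 = 0) : X = 0 := by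
  obtain ⟨P, hP, hper⟩ := exists_period α hinj hr k
  have hup : ∀ (n : ℕ) (i : ℤ), val X i (j0 + n) = 0 := by
    intro n
    induction n with
    | zero => intro i; simpa using h0 i
    | succ n ih =>
      intro i
      have h : (j0 + ((n + 1 : ℕ) : ℤ)) = (j0 + n) + 1 := by push_cast; ring
      rw [h, val_rel, ih, ih, add_zero]
  have hperj : ∀ (n : ℕ) (i j : ℤ), val X i (j + n * P) = val X i j := by
    intro n
    induction n with
    | zero => intro i j; simp
    | succ n ih =>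
      intro i j
      have h : j + ((n + 1 : ℕ) : ℤ) * P = (j + n * P) + P := by push_cast; ring
      rw [h]
      exact ((hper X hX i (j + n * P)).2).trans (ih i j)
  apply eq_zero_of_val
  intro i j
  obtain ⟨n, hn⟩ : ∃ n : ℕ, j0 - j ≤ n := ⟨(j0 - j).toNat, Int.self_le_toNat _⟩
  have h1 := hperj n i j
  rw [← h1]
  have h2 : ∃ m : ℕ, j + (n : ℤ) * P = j0 + m := by
    have h4 : (0 : ℤ) ≤ (n : ℤ) := Int.natCast_nonneg _
    have h5 : (1 : ℤ) ≤ P := by exact_mod_cast hP
    have h6 : (n : ℤ) ≤ (n : ℤ) * P := by nlinarith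
    obtain ⟨m, hm⟩ := Int.eq_ofNat_of_zero_le (show 0 ≤ j + (n : ℤ) * P - j0 by linarith)
    exact ⟨m, by linarith⟩
  obtain ⟨m, hm⟩ := h2
  rw [hm]
  exact hup m i

/-- Zero runs have bounded length. -/
theorem run_bounded (k : ℕ) : ∃ B : ℕ, ∀ X : AA →+ ZMod 2, X ≠ 0 → (∀ a ∈ II α k, X a = 0) →
    ∀ (i0 j0 : ℤ) (L : ℕ), (∀ i, i0 ≤ i → i < i0 + L → val X i j0 = 0) → L ≤ B := by
  obtain ⟨P, hP, hper⟩ := exists_period α hinj hr k
  refine ⟨P, ?_⟩
  intro X hX0 hX i0 j0 L hrun
  by_contra hlt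
  push Not at hlt
  apply hX0
  apply no_zero_row α hinj hr k hX j0
  have hperi : ∀ (n : ℕ) (i : ℤ), val X (i + n * P) j0 = val X i j0 := by
    intro n
    induction n with
    | zero => intro i; simp
    | succ n ih =>
      intro i
      have h : i + ((n + 1 : ℕ) : ℤ) * P = (i + n * P) + P := by push_cast; ring
      rw [h]
      exact ((hper X hX (i + n * P) j0).1).trans (ih i)
  have hperiz : ∀ (n : ℤ) (i : ℤ), val X (i + n * P) j0 = val X i j0 := by
    intro n i
    rcases le_total 0 n with hn | hn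
    · obtain ⟨m, rfl⟩ := Int.eq_ofNat_of_zero_le hn
      exact hperi m i
    · obtain ⟨m, hm⟩ := Int.eq_ofNat_of_zero_le (neg_nonneg.2 hn)
      have h := hperi m (i + n * P)
      rw [← h]
      congr 1
      have hm' : (m : ℤ) = -n := hm.symm
      rw [hm']
      ring
  intro i
  have hP' : (0 : ℤ) < P := by exact_mod_cast hP
  have h1 := hperiz (-((i - i0) / P)) i
  rw [← h1]
  have h2 := Int.emod_add_mul_ediv (i - i0) P
  have h3 := Int.emod_nonneg (i - i0) hP'.ne'
  have h4 := Int.emod_lt_of_pos (i - i0) hP'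
  have h5 : i + -((i - i0) / P) * P = i0 + (i - i0) % P := by
    linear_combination (-1) * h2
  rw [h5]
  apply hrun
  · linarith
  · have : (P : ℤ) < L := by exact_mod_cast hlt
    linarith

/-- The maximal zero triangle. -/
theorem exists_triangle (N : ℕ) : ∃ (k n : ℕ) (X : AA →+ ZMod 2), N ≤ n ∧
      (∀ a : AA, Gam.ofA a.1 a.2 ∈ Gk α k → X a = 0) ∧
      (∀ i j : ℤ, 1 ≤ i → 1 ≤ j → i + j ≤ n - 1 → X ⟨site i j, site_mem i j⟩ = 0) ∧
      (∀ i : ℤ, 1 ≤ i → i ≤ n - 1 → X ⟨site i 0, site_mem i 0⟩ = 1) ∧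
      (∀ j : ℤ, 1 ≤ j → j ≤ n - 1 → X ⟨site 0 j, site_mem 0 j⟩ = 1) ∧
      (∀ i j : ℤ, 1 ≤ i → 1 ≤ j → i + j = n → X ⟨site i j, site_mem i j⟩ = 1) := by
  classical
  set k := N + 1 with hk
  obtain ⟨B, hB⟩ := run_bounded α hinj hr k
  let Good : ℕ → Prop := fun L => ∃ X : AA →+ ZMod 2, X ≠ 0 ∧ (∀ a ∈ II α k, X a = 0) ∧
    ∃ (i0 j0 : ℤ), ∀ i, i0 ≤ i → i < i0 + L → val X i j0 = 0
  have hGN : Good N := by
    obtain ⟨X, hX0, hX, hrun⟩ := exists_functional α hinj hr N
    exact ⟨X, hX0, hX, 0, 0, fun i h1 h2 => hrun i h1 (by omega)⟩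
  have hGB : ∀ L, Good L → L ≤ B := by
    rintro L ⟨X, hX0, hX, i0, j0, hrun⟩
    exact hB X hX0 hX i0 j0 L hrun
  -- the maximal length
  set L := Nat.findGreatest Good B with hL
  have hGL : Good L := Nat.findGreatest_spec (hGB N hGN) hGN
  have hNL : N ≤ L := Nat.le_findGreatest (hGB N hGN) hGN
  have hmax : ¬ Good (L + 1) := by
    intro h
    have h1 := Nat.le_findGreatest (hGB _ h) h
    omega
  obtain ⟨X0, hX0ne, hX0, i0, j0, hrun0⟩ := hGL
  -- shift
  set X := X0.comp (shiftHom (i0 - 1) (j0 - 1)) with hXdef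
  have hval : ∀ i j, val X i j = val X0 (i0 - 1 + i) (j0 - 1 + j) := by
    intro i j
    rw [hXdef, val_shift]
  have hXne : X ≠ 0 := by
    intro h
    apply hX0ne
    apply eq_zero_of_val
    intro i j
    have h1 := hval (i - (i0 - 1)) (j - (j0 - 1))
    have h2 : i0 - 1 + (i - (i0 - 1)) = i := by ring
    have h3 : j0 - 1 + (j - (j0 - 1)) = j := by ring
    rw [h2, h3] at h1
    rw [← h1, h]
    rfl
  have hX : ∀ a ∈ II α k, X a = 0 := by
    intro a ha
    exact hX0 _ (site_mul_mem_II α hr k (i0 - 1) (j0 - 1) ha)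
  have hrun : ∀ i : ℤ, 1 ≤ i → i ≤ L → val X i 1 = 0 := by
    intro i h1 h2
    rw [hval]
    have h3 : j0 - 1 + 1 = j0 := by ring
    rw [h3]
    apply hrun0
    · omega
    · omega
  -- every longer run is impossible
  have hno : ∀ (a b : ℤ), ¬ (∀ i, a ≤ i → i < a + (L + 1) → val X i b = 0) := by
    intro a b h
    apply hmax
    refine ⟨X, hXne, hX, a, b, ?_⟩
    intro i h1 h2
    exact h i h1 (by push_cast at h2; exact h2)
  have h01 : val X 0 1 = 1 := by
    rcases zmod2_cases (val X 0 1) with h | h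
    · exfalso
      apply hno 0 1
      intro i h1 h2
      rcases eq_or_lt_of_le h1 with h3 | h3
      · rw [← h3]; exact h
      · exact hrun i (by omega) (by omega)
    · exact h
  have hL1 : val X (L + 1) 1 = 1 := by
    rcases zmod2_cases (val X (L + 1) 1) with h | h
    · exfalso
      apply hno 1 1
      intro i h1 h2
      rcases eq_or_lt_of_le (show i ≤ L + 1 by omega) with h3 | h3
      · rw [h3]; exact h
      · exact hrun i (by omega) (by omega)
    · exact h
  -- row zero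
  have hrow0 : ∀ m : ℕ, m ≤ L → val X (1 + m) 0 = val X 1 0 := by
    intro m
    induction m with
    | zero => intro _; simp
    | succ m ih =>
      intro hm
      have h1 := ih (by omega)
      have h2 := val_rel X (1 + m) 0
      rw [zero_add, hrun (1 + m) (by omega) (by omega), h1] at h2
      have h3 : (1 : ℤ) + ((m + 1 : ℕ) : ℤ) = 1 + m + 1 := by push_cast; ring
      rw [h3]
      rcases zmod2_cases (val X 1 0) with h4 | h4 <;>
        rcases zmod2_cases (val X (1 + m + 1) 0) with h5 | h5 <;> rw [h4, h5] at h2 ⊢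
      · exact absurd h2 (by decide)
      · exact absurd h2 (by decide)
  have h10 : val X 1 0 = 1 := by
    rcases zmod2_cases (val X 1 0) with h | h
    · exfalso
      apply hno 1 0
      intro i h1 h2
      obtain ⟨m, hm⟩ := Int.eq_ofNat_of_zero_le (show 0 ≤ i - 1 by omega)
      have h3 : i = 1 + m := by
        have : (m : ℤ) = i - 1 := hm.symm
        omega
      rw [h3, hrow0 m (by omega), h]
    · exact h
  have hrow0' : ∀ i : ℤ, 1 ≤ i → i ≤ L + 1 → val X i 0 = 1 := by
    intro i h1 h2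
    obtain ⟨m, hm⟩ := Int.eq_ofNat_of_zero_le (show 0 ≤ i - 1 by omega)
    have h3 : i = 1 + m := by
      have : (m : ℤ) = i - 1 := hm.symm
      omega
    rw [h3, hrow0 m (by omega), h10]
  -- inside of the triangle
  have hin : ∀ (m : ℕ) (i : ℤ), 1 ≤ i → i + (1 + m) ≤ L + 1 → val X i (1 + m) = 0 := by
    intro m
    induction m with
    | zero => intro i h1 h2; simpa using hrun i h1 (by push_cast at h2; omega)
    | succ m ih =>
      intro i h1 h2
      have h3 : (1 : ℤ) + ((m + 1 : ℕ) : ℤ) = 1 + m + 1 := by push_cast; ring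
      rw [h3, val_rel, ih i h1 (by push_cast at h2; omega),
        ih (i + 1) (by omega) (by push_cast at h2; omega), add_zero]
  have hin' : ∀ i j : ℤ, 1 ≤ i → 1 ≤ j → i + j ≤ L + 1 → val X i j = 0 := by
    intro i j h1 h2 h3
    obtain ⟨m, hm⟩ := Int.eq_ofNat_of_zero_le (show 0 ≤ j - 1 by omega)
    have h4 : j = 1 + m := by
      have : (m : ℤ) = j - 1 := hm.symm
      omega
    rw [h4]
    exact hin m i h1 (by omega)
  -- left side
  have hleft : ∀ m : ℕ, 1 + m ≤ L + 1 → val X 0 (1 + m) = 1 := by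
    intro m
    induction m with
    | zero => intro _; simpa using h01
    | succ m ih =>
      intro h1
      have h3 : (1 : ℤ) + ((m + 1 : ℕ) : ℤ) = 1 + m + 1 := by push_cast; ring
      rw [h3, val_rel, ih (by omega), zero_add, hin' 1 (1 + m) (by omega) (by omega) (by omega),
        add_zero]
  -- diagonal side
  have hdiag : ∀ (m : ℕ) (i : ℤ), 1 ≤ i → i + (1 + m) = L + 2 → val X i (1 + m) = 1 := by
    intro m
    induction m with
    | zero =>
      intro i h1 h2
      have h3 : i = L + 1 := by push_cast at h2; omega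
      rw [h3]
      simpa using hL1
    | succ m ih =>
      intro i h1 h2
      have h3 : (1 : ℤ) + ((m + 1 : ℕ) : ℤ) = 1 + m + 1 := by push_cast; ring
      rw [h3, val_rel, hin' i (1 + m) h1 (by omega) (by push_cast at h2; omega),
        ih (i + 1) (by omega) (by push_cast at h2; omega), zero_add]
  refine ⟨k, L + 2, X, by omega, fun a ha => hX a ha, ?_, ?_, ?_, ?_⟩
  · intro i j h1 h2 h3
    exact hin' i j h1 h2 (by push_cast at h3; omega)
  · intro i h1 h2
    exact hrow0' i h1 (by push_cast at h2; omega)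
  · intro j h1 h2
    obtain ⟨m, hm⟩ := Int.eq_ofNat_of_zero_le (show 0 ≤ j - 1 by omega)
    have h4 : j = 1 + m := by
      have : (m : ℤ) = j - 1 := hm.symm
      omega
    subst h4
    exact hleft m (by push_cast at h2; omega)
  · intro i j h1 h2 h3
    obtain ⟨m, hm⟩ := Int.eq_ofNat_of_zero_le (show 0 ≤ j - 1 by omega)
    have h4 : j = 1 + m := by
      have : (m : ℤ) = j - 1 := hm.symm
      omega
    subst h4
    exact hdiag m i h1 (by push_cast at h3; omega)

end

end Pool.Agent.SelfCover
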