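import Pool.Agent.SelfCover.Kappa
import Pool.Agent.SelfCover.Tri

set_option autoImplicit false

/-!
# The contradiction
-/

namespace Pool.Agent.SelfCover

open Finsupp

section

variable {E : Type*} [MulAction Gam E] {S : Geo Gam E}

theorem g1_g1 (g h : Gam) (c : C1 E) : g1 g (g1 h c) = g1 (g * h) c :=
  (Geo.g1_mul g h c).symm

theorem g1_one (c : C1 E) : g1 (1 : Gam) c = c := by
  have : (g1 (1 : Gam) : C1 E →ₗ[ℚ] C1 E) = LinearMap.id := lin_ext (by
    rintro ⟨a, b⟩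
    change p1 _ (s1 a b) = s1 a b
    simp)
  exact LinearMap.congr_fun this c

omit [MulAction Gam E] in
theorem exists_verts1 {R : E → E → Prop} {c : C1 E} (hc : c ∈ Sm1 R) :
    ∃ V : Finset E, c ∈ Sm1 (fun a b => R a b ∧ a ∈ V ∧ b ∈ V) := by
  classical
  refine ⟨c.support.image Prod.fst ∪ c.support.image Prod.snd, ?_⟩
  rw [Finsupp.mem_supported] at hc ⊢
  intro y hy
  refine ⟨hc hy, ?_, ?_⟩
  · exact Finset.mem_union_left _ (Finset.mem_image_of_mem _ hy)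
  · exact Finset.mem_union_right _ (Finset.mem_image_of_mem _ hy)

omit [MulAction Gam E] in
theorem exists_verts2 {R : E → E → Prop} {c : C2 E} (hc : c ∈ Sm2 R) :
    ∃ V : Finset E, c ∈ Sm2 (fun a b => R a b ∧ a ∈ V ∧ b ∈ V) := by
  classical
  refine ⟨c.support.image (fun y => y.1) ∪ c.support.image (fun y => y.2.1) ∪
    c.support.image (fun y => y.2.2), ?_⟩
  rw [Finsupp.mem_supported] at hc ⊢
  intro y hy
  have h1 : y.1 ∈ c.support.image (fun y => y.1) ∪ c.support.image (fun y => y.2.1) ∪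
    c.support.image (fun y => y.2.2) :=
    Finset.mem_union_left _ (Finset.mem_union_left _ (Finset.mem_image_of_mem _ hy))
  have h2 : y.2.1 ∈ c.support.image (fun y => y.1) ∪ c.support.image (fun y => y.2.1) ∪
    c.support.image (fun y => y.2.2) :=
    Finset.mem_union_left _ (Finset.mem_union_right _ (Finset.mem_image_of_mem _ hy))
  have h3 : y.2.2 ∈ c.support.image (fun y => y.1) ∪ c.support.image (fun y => y.2.1) ∪
    c.support.image (fun y => y.2.2) :=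
    Finset.mem_union_right _ (Finset.mem_image_of_mem _ hy)
  exact ⟨⟨(hc hy).1, h1, h2⟩, ⟨(hc hy).2.1, h1, h3⟩, ⟨(hc hy).2.2, h2, h3⟩⟩

/-- the generator `a` -/
noncomputable def ga : Gam := oA ⟨site 0 0, site_mem 0 0⟩

theorem ofZ_mul (i j i' j' : ℤ) : Gam.ofZ i j * Gam.ofZ i' j' = Gam.ofZ (i + i') (j + j') := by
  ext <;> simp

theorem ofZ_inv (i j : ℤ) : (Gam.ofZ i j)⁻¹ = Gam.ofZ (-i) (-j) := by
  ext <;> simp

theorem ofZ_zero : Gam.ofZ 0 0 = 1 := by
  ext <;> simp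

theorem ofZ_ga (i j : ℤ) :
    Gam.ofZ i j * ga = oA ⟨site i j, site_mem i j⟩ * Gam.ofZ i j := by
  ext
  · simp [ga, oA, site_zero]
  · simp [ga, oA]
  · simp [ga, oA]

/-- conjugate generator -/
noncomputable def gc (s1 s2 : ℤ) : Gam := Gam.ofZ s1 s2 * ga * (Gam.ofZ s1 s2)⁻¹

theorem gc_eq (s1 s2 : ℤ) : gc s1 s2 = oA ⟨site s1 s2, site_mem s1 s2⟩ := by
  unfold gc
  rw [ofZ_ga, mul_inv_cancel_right]

theorem ofZ_gc (i j s1 s2 : ℤ) : Gam.ofZ i j * gc s1 s2 =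
    oA ⟨site (i + s1) (j + s2), site_mem _ _⟩ * Gam.ofZ i j := by
  unfold gc
  rw [← mul_assoc, ← mul_assoc, ofZ_mul, ofZ_ga, ← ofZ_mul, ← mul_assoc, mul_inv_cancel_right]

theorem ga_gc (s1 s2 : ℤ) : ga * gc s1 s2 = gc s1 s2 * ga := by
  rw [gc_eq, ga, ← oA_add, ← oA_add, add_comm]

theorem gc_mul (s1 s2 : ℤ) : gc s1 s2 * Gam.ofZ s1 s2 = Gam.ofZ s1 s2 * ga := by
  unfold gc
  rw [inv_mul_cancel_right]

/-- the commutator cycle -/
noncomputable def commCycle (s1 s2 : ℤ) (sa W : C1 E) : C1 E :=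
  sa + g1 ga W + g1 (ga * Gam.ofZ s1 s2) sa - g1 (ga * gc s1 s2) W - g1 (gc s1 s2) sa
    + g1 (gc s1 s2) W - g1 (Gam.ofZ s1 s2) sa - W

theorem commCycle_d (s1 s2 : ℤ) (sa W : C1 E) (y0 : E) (ha : d1 sa = s0 (ga • y0) - s0 y0)
    (hW : d1 W = s0 (Gam.ofZ s1 s2 • y0) - s0 y0) : d1 (commCycle s1 s2 sa W) = 0 := by
  unfold commCycle
  simp only [map_add, map_sub, g1, d1_p1, ha, hW, p0_s0, ← mul_smul]
  rw [← ga_gc, gc_mul]
  have e1 : ga * gc s1 s2 * Gam.ofZ s1 s2 = ga * Gam.ofZ s1 s2 * ga := by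
    rw [mul_assoc, gc_mul, mul_assoc]
  rw [e1]
  abel

/-- algebra of the commutator relation -/
theorem commCycle_eval (B : C1 E →ₗ[ℚ] ℚ) (X : AA →+ ZMod 2)
    (hB : ∀ (a : AA) c, B (g1 (oA a) c) = sg (X a) * B c) (i j s1 s2 : ℤ)
    (h1 : xx X i j = 1) (h2 : xx X (i + s1) (j + s2) = 1) (sa W : C1 E)
    (h0 : B (g1 (Gam.ofZ i j) (commCycle s1 s2 sa W)) = 0) :
    B (g1 (Gam.ofZ i j) W) =
      (B (g1 (Gam.ofZ i j) sa) - B (g1 (Gam.ofZ (i + s1) (j + s2)) sa)) / 2 := by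
  have f1 : ∀ c : C1 E, B (g1 (oA ⟨site i j, site_mem i j⟩) c) = - B c := by
    intro c
    rw [hB]
    unfold xx at h1
    rw [h1, sg_one]; ring
  have f2 : ∀ c : C1 E, B (g1 (oA ⟨site (i + s1) (j + s2), site_mem _ _⟩) c) = - B c := by
    intro c
    rw [hB]
    unfold xx at h2
    rw [h2, sg_one]; ring
  unfold commCycle at h0
  simp only [map_add, map_sub, g1_g1] at h0
  have e1 : Gam.ofZ i j * (ga * Gam.ofZ s1 s2) =
      oA ⟨site i j, site_mem i j⟩ * Gam.ofZ (i + s1) (j + s2) := by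
    rw [← mul_assoc, ofZ_ga, mul_assoc, ofZ_mul]
  have e2 : Gam.ofZ i j * (ga * gc s1 s2) = oA ⟨site i j, site_mem i j⟩ *
      (oA ⟨site (i + s1) (j + s2), site_mem _ _⟩ * Gam.ofZ i j) := by
    rw [← mul_assoc, ofZ_ga, mul_assoc, ofZ_gc]
  rw [e1, e2, ofZ_ga, ofZ_gc, ofZ_mul, ← g1_g1, ← g1_g1, ← g1_g1, ← g1_g1, ← g1_g1, f1, f1, f1,
    f2, f2] at h0
  linarith

/-- the main contradiction -/
theorem contra [Nonempty E] (S : Geo Gam E) (α : Gam →* Gam) (hinj : Function.Injective α)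
    (hr : α.range = GamP) (T : S.SelfMap α) : False := by
  classical
  obtain ⟨ε0, hε0, hJfin⟩ := S.finite_jumps
  obtain ⟨N, lam, nu, hnu, hnear, hlam, hnus⟩ := S.exists_labels (ρ := ε0 / 4) (by positivity)
  set εJ : ℝ := ε0 / 2 with hεJ
  have hεJpos : 0 < εJ := by positivity
  set J : Set Gam := {g : Gam | ∃ n ∈ N, ∃ n' ∈ N, S.near ε0 n (g • n')} with hJdef
  have hJset : ∀ y y', S.near εJ y y' → (lam y)⁻¹ * lam y' ∈ J := by
    intro y y' h
    refine ⟨nu y, hnu y, nu y', hnu y', ?_⟩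
    have h1 : S.near ε0 (lam y • nu y) (lam y' • nu y') :=
      S.mono (by rw [hεJ]; linarith) (S.tri (S.symm (hnear y)) (S.tri h (hnear y')))
    have h2 := S.inv (lam y)⁻¹ h1
    rwa [inv_smul_smul, ← mul_smul] at h2
  obtain ⟨δ, hδ, href⟩ := S.exists_refine hεJpos
  -- base point
  obtain ⟨ya⟩ := ‹Nonempty E›
  obtain ⟨y0, hlam0⟩ : ∃ y0, lam y0 = 1 := ⟨(lam ya)⁻¹ • ya, by rw [hlam, inv_mul_cancel]⟩
  -- simple connectivity at scale δ
  obtain ⟨η', hη', hsc⟩ := S.sc δ hδ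
  set η2 : ℝ := min η' δ with hη2
  have hη2pos : 0 < η2 := lt_min hη' hδ
  have hη2a : η2 ≤ η' := min_le_left _ _
  have hη2b : η2 ≤ δ := min_le_right _ _
  choose σ hσ hσd using fun g : Gam => S.conn hη2pos y0 (g • y0)
  have hσ' : ∀ g, σ g ∈ Sm1 (S.near η') := fun g => Sm1_mono (fun _ _ h => S.mono hη2a h) (hσ g)
  have hσδ : ∀ g, σ g ∈ Sm1 (S.near δ) := fun g => Sm1_mono (fun _ _ h => S.mono hη2b h) (hσ g)
  have hg1mem : ∀ (g : Gam) {ε : ℝ} {c : C1 E}, c ∈ Sm1 (S.near ε) → g1 g c ∈ Sm1 (S.near ε) :=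
    fun g ε c hc => p1_mem (fun a b hab => S.inv g hab) hc
  set st := σ (Gam.ofZ 1 0) with hst
  set su := σ (Gam.ofZ 0 1) with hsu
  set sa := σ ga with hsa
  -- walks
  set W3 : C1 E := g1 (Gam.ofZ (-1) 0) (su - st) with hW3
  have hW3m : W3 ∈ Sm1 (S.near η') := hg1mem _ (sub_mem (hσ' _) (hσ' _))
  have hW3d : d1 W3 = s0 (Gam.ofZ (-1) 1 • y0) - s0 y0 := by
    rw [hW3, g1, d1_p1, map_sub, hst, hsu, hσd, hσd]
    simp only [map_sub, p0_s0, ← mul_smul, ofZ_mul]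
    norm_num [ofZ_zero]
  -- the square
  have hsq0 : d1 (st + g1 (Gam.ofZ 1 0) su - g1 (Gam.ofZ 0 1) st - su) = 0 := by
    simp only [map_add, map_sub, g1, d1_p1, hst, hsu, hσd, p0_s0, ← mul_smul, ofZ_mul]
    norm_num
  obtain ⟨τ, hτ, hτd⟩ := hsc _ (sub_mem (sub_mem (add_mem (hσ' _) (hg1mem _ (hσ' _)))
    (hg1mem _ (hσ' _))) (hσ' _)) hsq0
  -- commutator discs
  have hcomm : ∀ (s1 s2 : ℤ) (W : C1 E), W ∈ Sm1 (S.near η') →
      d1 W = s0 (Gam.ofZ s1 s2 • y0) - s0 y0 → ∃ c ∈ Sm2 (S.near δ), d2 c = commCycle s1 s2 sa W := by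
    intro s1 s2 W hW hWd
    refine hsc _ ?_ (commCycle_d s1 s2 sa W y0 (hσd ga) hWd)
    unfold commCycle
    exact sub_mem (sub_mem (add_mem (sub_mem (sub_mem (add_mem (add_mem (hσ' _) (hg1mem _ hW))
      (hg1mem _ (hσ' _))) (hg1mem _ hW)) (hg1mem _ (hσ' _))) (hg1mem _ hW)) (hg1mem _ (hσ' _))) hW
  obtain ⟨T1, hT1, hT1d⟩ := hcomm 1 0 st (hσ' _) (hσd _)
  obtain ⟨T2, hT2, hT2d⟩ := hcomm 0 1 su (hσ' _) (hσd _)
  obtain ⟨T3, hT3, hT3d⟩ := hcomm (-1) 1 W3 hW3m hW3d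
  -- vertices
  obtain ⟨V1, hV1⟩ := exists_verts1 (hσδ (Gam.ofZ 1 0))
  obtain ⟨V2, hV2⟩ := exists_verts1 (hσδ (Gam.ofZ 0 1))
  obtain ⟨V4, hV4⟩ := exists_verts2 hτ
  obtain ⟨V5, hV5⟩ := exists_verts2 hT1
  obtain ⟨V6, hV6⟩ := exists_verts2 hT2
  obtain ⟨V7, hV7⟩ := exists_verts2 hT3
  set V : Finset E := V1 ∪ V2 ∪ V4 ∪ V5 ∪ V6 ∪ V7 with hV
  have hVs1 : st ∈ Sm1 (fun a b => S.near δ a b ∧ a ∈ V ∧ b ∈ V) :=
    Sm1_mono (fun a b h => ⟨h.1, by simp [hV, h.2.1], by simp [hV, h.2.2]⟩) hV1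
  have hVs2 : su ∈ Sm1 (fun a b => S.near δ a b ∧ a ∈ V ∧ b ∈ V) :=
    Sm1_mono (fun a b h => ⟨h.1, by simp [hV, h.2.1], by simp [hV, h.2.2]⟩) hV2
  have hVτ : τ ∈ Sm2 (fun a b => S.near δ a b ∧ a ∈ V ∧ b ∈ V) :=
    Sm2_mono (fun a b h => ⟨h.1, by simp [hV, h.2.1], by simp [hV, h.2.2]⟩) hV4
  have hVT1 : T1 ∈ Sm2 (fun a b => S.near δ a b ∧ a ∈ V ∧ b ∈ V) :=
    Sm2_mono (fun a b h => ⟨h.1, by simp [hV, h.2.1], by simp [hV, h.2.2]⟩) hV5
  have hVT2 : T2 ∈ Sm2 (fun a b => S.near δ a b ∧ a ∈ V ∧ b ∈ V) :=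
    Sm2_mono (fun a b h => ⟨h.1, by simp [hV, h.2.1], by simp [hV, h.2.2]⟩) hV6
  have hVT3 : T3 ∈ Sm2 (fun a b => S.near δ a b ∧ a ∈ V ∧ b ∈ V) :=
    Sm2_mono (fun a b h => ⟨h.1, by simp [hV, h.2.1], by simp [hV, h.2.2]⟩) hV7
  -- radius
  obtain ⟨r, hrad⟩ := exists_rad_finite (J := J ∪ Set.image2 (fun v s => lam v * s) (V : Set E) J)
    ((hJfin N).union ((V.finite_toSet).image2 _ (hJfin N)))
  have hJ : ∀ y y', S.near εJ y y' → inRad r ((lam y)⁻¹ * lam y') := fun y y' h =>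
    hrad _ (Or.inl (hJset y y' h))
  have hQ : ∀ v ∈ V, ∀ x, S.near εJ v x → inRad r (lam x) := fun v hv x h =>
    hrad _ (Or.inr ⟨v, hv, _, hJset v x h, by simp⟩)
  -- the triangle
  set m : ℕ := 4 * r + 2 with hm
  obtain ⟨k, n, X, hn, hXI, hz, h1, h2, h3⟩ := exists_triangle α hinj hr (2 * m + 8 * r + 4)
  have hX : ∀ a ∈ IA (Gk α k), X a = 0 := fun a ha => hXI a ha
  have : Finite (AA ⧸ IA (Gk α k)) := finite_quot (Gk_index_ne_zero α hinj hr k)
  have : Fintype (AA ⧸ IA (Gk α k)) := Fintype.ofFinite _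
  choose sec hsecL hsec using fun w : ℤ × ℤ => exists_mem_Gk α hinj hr k w.1 w.2
  have hz4 : ∀ p q : ℤ, |p - m| ≤ 4 * r → |q - m| ≤ 4 * r → xx X p q = 0 := by
    intro p q hp hq
    rw [abs_le] at hp hq
    exact hz p q (by omega) (by omega) (by omega)
  have hX0 : X ≠ 0 := by
    intro h
    have := h1 1 le_rfl (by omega)
    rw [h] at this
    exact absurd this (by simp)
  -- the periodized cocycle
  set Φ := Phi lam X (m : ℤ) r sec with hΦ
  have hΦZ : Φ ∈ S.Z (Gk α k) :=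
    ⟨fun g hg y => Phi_inv hlam hsecL hsec hX hg y, εJ, hεJpos, Phi_closed hlam hsec hJ hz4⟩
  obtain ⟨β, hβ, ηv, hηv, hφ⟩ := vanishing T k (fun i j => exists_mem_Gk α hinj hr k i j) hΦZ
    (fun y => avg_zero_Phi hlam hsecL hsec hX hX0 y) hX
  set φ := avg (Gk α k) X Φ with hφdef
  set η : ℝ := min ηv εJ with hη
  have hηpos : 0 < η := lt_min hηv hεJpos
  have hηa : η ≤ ηv := min_le_left _ _
  have hηb : η ≤ εJ := min_le_right _ _
  obtain ⟨η₁, hη₁, ⟨R⟩⟩ := href η hηpos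
  -- the functionals
  set B : C1 E →ₗ[ℚ] ℚ := (ext β).comp (ext R.c1) with hB
  set Θ : C1 E →ₗ[ℚ] ℚ := (ext (theta lam m)).comp (ext R.c1) with hΘ
  have hBa : ∀ (a : AA) c, B (g1 (oA a) c) = sg (X a) * B c := by
    intro a c
    have e1 : ∀ w : C1 E, ext β (g1 (oA a) w) = sg (X a) * ext β w := by
      intro w
      have : (ext β).comp (g1 (oA a)) = sg (X a) • ext β := lin_ext (by
        rintro ⟨x, y⟩
        change ext β (g1 (oA a) (s1 x y)) = sg (X a) • ext β (s1 x y)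
        rw [g1, p1_s1, ext_s1, ext_s1]
        exact hβ a (x, y))
      exact LinearMap.congr_fun this w
    have e2 : ∀ w : C1 E, ext R.c1 (g1 (oA a) w) = g1 (oA a) (ext R.c1 w) := by
      intro w
      have : (ext R.c1).comp (g1 (oA a)) = (g1 (oA a)).comp (ext R.c1) := lin_ext (by
        rintro ⟨x, y⟩
        change ext R.c1 (g1 (oA a) (s1 x y)) = g1 (oA a) (ext R.c1 (s1 x y))
        rw [g1, p1_s1, ext_s1, ext_s1]
        exact R.c1_smul (oA a) (x, y))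
      exact LinearMap.congr_fun this w
    simp only [hB, LinearMap.comp_apply]
    rw [e2, e1]
  -- chain map properties
  have hc1d : ∀ c ∈ Sm1 (S.near δ), d1 (ext R.c1 c) = d1 c := by
    intro c hc
    exact eq_on_supported (f := d1.comp (ext R.c1)) (g := d1) (fun y hy => by
      rw [LinearMap.comp_apply, ext_single]; exact R.c1_d y hy) hc
  have hc2d : ∀ c ∈ Sm2 (S.near δ), d2 (ext R.c2 c) = ext R.c1 (d2 c) := by
    intro c hc
    exact eq_on_supported (f := d2.comp (ext R.c2)) (g := (ext R.c1).comp d2) (fun y hy => by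
      rw [LinearMap.comp_apply, LinearMap.comp_apply, ext_single]; exact R.c2_d y hy) hc
  -- supports
  have supp1 : ∀ (g : Gam) (c : C1 E), c ∈ Sm1 (fun a b => S.near δ a b ∧ a ∈ V ∧ b ∈ V) →
      ext R.c1 (g1 g c) ∈ Sm1 (fun a b => S.near η a b ∧ inRad r (g⁻¹ * lam a) ∧
        inRad r (g⁻¹ * lam b)) := by
    intro g c hc
    refine map_supported (f := (ext R.c1).comp (g1 g)) ?_ hc
    rintro ⟨a, b⟩ ⟨-, ha, hb⟩
    change ext R.c1 (g1 g (s1 a b)) ∈ _
    rw [g1, p1_s1, ext_s1]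
    have key : ∀ x, S.near εJ (g • a) x → inRad r (g⁻¹ * lam x) := by
      intro x hx
      rw [← hlam]
      apply hQ a ha
      have := S.inv g⁻¹ hx
      rwa [inv_smul_smul] at this
    exact Sm1_mono (fun x y h => ⟨h.1, key x h.2.1, key y h.2.2⟩) (R.c1_mem (g • a, g • b))
  have supp2 : ∀ (g : Gam) (c : C2 E), c ∈ Sm2 (fun a b => S.near δ a b ∧ a ∈ V ∧ b ∈ V) →
      ext R.c2 (g2 g c) ∈ Sm2 (fun a b => S.near η a b ∧ inRad r (g⁻¹ * lam a) ∧
        inRad r (g⁻¹ * lam b)) := by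
    intro g c hc
    refine map_supported (f := (ext R.c2).comp (g2 g)) ?_ hc
    rintro ⟨a, b, c⟩ ⟨⟨-, ha, hb⟩, -⟩
    change ext R.c2 (g2 g (s2 a b c)) ∈ _
    rw [g2, p2_s2, ext_s2]
    have key : ∀ x, S.near εJ (g • a) x → inRad r (g⁻¹ * lam x) := by
      intro x hx
      rw [← hlam]
      apply hQ a ha
      have := S.inv g⁻¹ hx
      rwa [inv_smul_smul] at this
    exact Sm2_mono (fun x y h => ⟨h.1, key x h.2.1, key y h.2.2⟩) (R.c2_mem (g • a, g • b, g • c))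
  -- evaluation of the coboundary of B
  have hBd : ∀ (g : Gam) (c : C2 E), c ∈ Sm2 (fun a b => S.near δ a b ∧ a ∈ V ∧ b ∈ V) →
      B (g1 g (d2 c)) = ext φ (ext R.c2 (g2 g c)) := by
    intro g c hc
    have m1 : g2 g c ∈ Sm2 (S.near δ) := p2_mem (fun a b hab => S.inv g hab.1) hc
    rw [g1, ← d2_p2]
    simp only [hB, LinearMap.comp_apply]
    rw [← hc2d _ m1]
    refine eq_on_supported (f := (ext β).comp d2) (g := ext φ) ?_ (supp2 g c hc)
    rintro y ⟨e1, e2, e3⟩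
    rw [ext_single, hφ y ⟨S.mono hηa e1.1, S.mono hηa e2.1, S.mono hηa e3.1⟩]
    rfl
  have hΘd : ∀ (g : Gam) (c : C2 E), c ∈ Sm2 (fun a b => S.near δ a b ∧ a ∈ V ∧ b ∈ V) →
      Θ (g1 g (d2 c)) = ext (kap1 lam m) (ext R.c2 (g2 g c)) := by
    intro g c hc
    have m1 : g2 g c ∈ Sm2 (S.near δ) := p2_mem (fun a b hab => S.inv g hab.1) hc
    rw [g1, ← d2_p2]
    simp only [hΘ, LinearMap.comp_apply]
    rw [← hc2d _ m1]
    have : (ext (theta lam m)).comp d2 = ext (kap1 lam m) := lin_ext (by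
      intro y
      rw [ext_single, kap1_eq_cob]
      rfl)
    exact LinearMap.congr_fun this _
  have ofZrad : ∀ (p q : ℤ) (x : E), inRad r ((Gam.ofZ p q)⁻¹ * lam x) →
      |(lam x).i - p| ≤ r ∧ |(lam x).j - q| ≤ r := by
    intro p q x h
    have e1 := h.1
    have e2 := h.2.1
    simp only [Gam.mul_i, Gam.mul_j, Gam.inv_i, Gam.inv_j, Gam.ofZ_i, Gam.ofZ_j] at e1 e2
    rw [neg_add_eq_sub] at e1 e2
    exact ⟨e1, e2⟩
  have evalOne : ∀ (p q : ℤ) (c : C2 E),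
      c ∈ Sm2 (fun a b => S.near δ a b ∧ a ∈ V ∧ b ∈ V) → xx X p q = 1 →
      B (g1 (Gam.ofZ p q) (d2 c)) = 0 := by
    intro p q c hc hpq
    rw [hBd _ _ hc]
    refine eq_on_supported (f := ext φ) (g := 0) ?_ (supp2 _ c hc)
    rintro y ⟨e1, e2, e3⟩
    rw [ext_single, LinearMap.zero_apply]
    have := ofZrad p q y.1 e1.2.1
    exact avg_Phi_one hlam hsecL hsec hX hz4 y hpq this.1 this.2
  have evalTri : ∀ (p q : ℤ) (c : C2 E),
      c ∈ Sm2 (fun a b => S.near δ a b ∧ a ∈ V ∧ b ∈ V) → 0 ≤ p → 0 ≤ q → p + q ≤ n →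
      B (g1 (Gam.ofZ p q) (d2 c)) = Θ (g1 (Gam.ofZ p q) (d2 c)) := by
    intro p q c hc hp hq hpq
    rw [hBd _ _ hc, hΘd _ _ hc]
    refine eq_on_supported (f := ext φ) (g := ext (kap1 lam m)) ?_ (supp2 _ c hc)
    rintro y ⟨e1, e2, e3⟩
    rw [ext_single, ext_single]
    have := ofZrad p q y.1 e1.2.1
    have hh := avg_Phi_tri (m := (m : ℤ)) (n := (n : ℤ)) hlam hsecL hsec hX (by push_cast [hm]; omega)
      (by push_cast; omega) hz h1 h2 h3 y hp hq hpq this.1 this.2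
    rw [hφdef, hΦ, hh]
    exact kap_eq_kap1 hJ hz4 ⟨S.mono hηb e1.1, S.mono hηb e2.1, S.mono hηb e3.1⟩ e1.2.1
  -- apply the lattice contradiction
  refine lattice_contradiction n m r (by omega) (by omega)
    (fun i j => B (g1 (Gam.ofZ i j) st)) (fun i j => B (g1 (Gam.ofZ i j) su))
    (fun i j => Θ (g1 (Gam.ofZ i j) st)) (fun i j => Θ (g1 (Gam.ofZ i j) su))
    (fun i j => B (g1 (Gam.ofZ i j) sa)) (fun i j => xx X i j = 1)
    ?_ ?_ ?_ ?_ ?_ ?_ ?_ ?_ ?_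
  · -- squares
    intro i j hij
    have := evalTri i j τ hVτ (by positivity) (by positivity) (by omega)
    rw [hτd] at this
    simp only [map_add, map_sub, g1_g1, ofZ_mul] at this
    simpa using this
  · intro i j e1 e2
    have := evalOne i j T1 hVT1 e1
    rw [hT1d] at this
    have := commCycle_eval B X hBa i j 1 0 e1 (by simpa using e2) sa st this
    simpa using this
  · intro i j e1 e2
    have := evalOne i j T2 hVT2 e1
    rw [hT2d] at this
    have := commCycle_eval B X hBa i j 0 1 e1 (by simpa using e2) sa su this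
    simpa using this
  · intro i j e1 e2
    have := evalOne (i + 1) j T3 hVT3 (by simpa using e1)
    rw [hT3d] at this
    have := commCycle_eval B X hBa (i + 1) j (-1) 1 (by simpa using e1) (by simpa using e2) sa W3 this
    rw [hW3, g1_g1, ofZ_mul] at this
    simpa using this
  · intro i e1 e2
    have := h1 i (by omega) (by omega)
    simpa [xx] using this
  · intro j e1 e2
    have := h2 j (by omega) (by omega)
    simpa [xx] using this
  · intro i j e1 e2 e3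
    exact h3 i j (by omega) (by omega) (by omega)
  · -- vanishing of theta
    intro i j hij
    have key : ∀ c : C1 E, c ∈ Sm1 (fun a b => S.near δ a b ∧ a ∈ V ∧ b ∈ V) →
        Θ (g1 (Gam.ofZ i j) c) = 0 := by
      intro c hc
      simp only [hΘ, LinearMap.comp_apply]
      refine eq_on_supported (f := ext (theta lam m)) (g := 0) ?_ (supp1 _ c hc)
      rintro ⟨a, b⟩ ⟨-, ha, hb⟩
      rw [ext_single, LinearMap.zero_apply]
      have ha' := ofZrad i j a ha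
      have hb' := ofZrad i j b hb
      rw [abs_le, abs_le] at ha' hb'
      unfold theta PP
      rcases hij with h | h | h
      · rw [if_neg (by simp only; omega)]; ring
      · rw [if_neg (c := (m : ℤ) < (lam (a, b).2).j) (by simp only; omega),
          if_neg (c := (m : ℤ) < (lam (a, b).1).j) (by simp only; omega)]; ring
      · rw [if_pos (c := (m : ℤ) < (lam (a, b).2).j) (by simp only; omega),
          if_pos (c := (m : ℤ) < (lam (a, b).1).j) (by simp only; omega)]; ring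
    exact ⟨key st hVs1, key su hVs2⟩
  · intro i j hij
    have key : ∀ (c : C1 E) (g : Gam), c ∈ Sm1 (fun a b => S.near δ a b ∧ a ∈ V ∧ b ∈ V) →
        d1 c = s0 (g • y0) - s0 y0 →
        Θ (g1 (Gam.ofZ i j) c) = PP m (j + g.j) - PP m j := by
      intro c g hc hcd
      simp only [hΘ, LinearMap.comp_apply]
      have e1 : ext (theta lam m) (ext R.c1 (g1 (Gam.ofZ i j) c)) =
          (ext (fun x => PP m (lam x).j)).comp d1 (ext R.c1 (g1 (Gam.ofZ i j) c)) := by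
        refine eq_on_supported ?_ (supp1 _ c hc)
        rintro ⟨a, b⟩ ⟨-, ha, hb⟩
        have ha' := ofZrad i j a ha
        have hb' := ofZrad i j b hb
        rw [abs_le, abs_le] at ha' hb'
        rw [ext_single, LinearMap.comp_apply]
        change _ = ext (fun x => PP m (lam x).j) (d1 (s1 a b))
        rw [d1_s1, map_sub, ext_s0, ext_s0]
        unfold theta
        have : PP m (lam (a, b).1).i = 1 := by
          unfold PP
          rw [if_pos]
          simp only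
          omega
        rw [this, one_mul]
      have e2 : d1 (ext R.c1 (g1 (Gam.ofZ i j) c)) = d1 (g1 (Gam.ofZ i j) c) :=
        hc1d _ (p1_mem (fun a b hab => S.inv _ hab.1) hc)
      have e3 : d1 (g1 (Gam.ofZ i j) c) = g0 (Gam.ofZ i j) (d1 c) := d1_p1 _ _
      rw [e1, LinearMap.comp_apply, e2, e3, hcd, map_sub, p0_s0, p0_s0, map_sub, ext_s0, ext_s0,
        hlam, hlam, hlam, hlam0]
      simp
    refine ⟨?_, ?_⟩
    · have := key st _ hVs1 (hσd _)
      simpa using this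
    · have := key su _ hVs2 (hσd _)
      simpa using this

end

end Pool.Agent.SelfCover
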