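import Pool.Agent.SelfCover.Gam

set_option autoImplicit false

/-!
# Finite presentation of `Gam`
-/

namespace Pool.Agent.SelfCover

namespace FpAux

section Abstract

variable {P : Type*} [Group P] {a t u : P}

/-- The conjugates `t^i a t^-i`. -/
def cj (a t : P) (i : ℤ) : P := t ^ i * a * t ^ (-i)

theorem cj_zero (a t : P) : cj a t 0 = a := by simp [cj]

theorem conj_t (a t : P) (k i : ℤ) : t ^ k * cj a t i * t ^ (-k) = cj a t (k + i) := by
  unfold cj; group

theorem conj_u (h2 : t * u = u * t) (h4 : u * a * u⁻¹ = a * (t * a * t⁻¹)) (i : ℤ) :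
    u * cj a t i * u⁻¹ = cj a t i * cj a t (i + 1) := by
  have hc : Commute u (t ^ i) := (Commute.zpow_left (show Commute t u from h2) i).symm
  have hc' : Commute u⁻¹ (t ^ (-i)) :=
    ((Commute.zpow_left (show Commute t u from h2) (-i)).symm).inv_left
  calc u * cj a t i * u⁻¹ = (u * t ^ i) * a * (t ^ (-i) * u⁻¹) := by unfold cj; group
    _ = (t ^ i * u) * a * (u⁻¹ * t ^ (-i)) := by rw [hc.eq, hc'.eq]
    _ = t ^ i * (u * a * u⁻¹) * t ^ (-i) := by group
    _ = t ^ i * (a * (t * a * t⁻¹)) * t ^ (-i) := by rw [h4]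
    _ = cj a t i * cj a t (i + 1) := by unfold cj; group

theorem comm_step (h2 : t * u = u * t) (h3 : a * (t * a * t⁻¹) = (t * a * t⁻¹) * a)
    (h4 : u * a * u⁻¹ = a * (t * a * t⁻¹)) (d : ℕ) :
    ∀ d' : ℕ, d' ≤ d → ∀ i : ℤ, Commute (cj a t i) (cj a t (i + d')) := by
  -- it is enough to treat `i = 0`
  have shift : ∀ d' : ℕ, Commute (cj a t 0) (cj a t d') →
      ∀ i : ℤ, Commute (cj a t i) (cj a t (i + d')) := by
    intro d' h i
    have h1 : cj a t i = t ^ i * cj a t 0 * (t ^ i)⁻¹ := by
      rw [← zpow_neg, conj_t, add_zero]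
    have h2 : cj a t (i + d') = t ^ i * cj a t d' * (t ^ i)⁻¹ := by
      rw [← zpow_neg, conj_t]
    rw [h1, h2]
    exact (Commute.conj_iff (t ^ i)).2 h
  induction d with
  | zero =>
    intro d' hd' i
    obtain rfl : d' = 0 := by omega
    rw [Nat.cast_zero, add_zero]
  | succ d ih =>
    intro d' hd'
    rcases Nat.lt_or_ge d' (d + 1) with h | h
    · exact ih d' (by omega)
    · obtain rfl : d' = d + 1 := by omega
      apply shift
      rcases Nat.eq_zero_or_pos d with rfl | hd
      · have e1 : cj a t ((0 + 1 : ℕ) : ℤ) = t * a * t⁻¹ := by unfold cj; simp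
        rw [e1, cj_zero]
        exact h3
      · -- the induction step
        have c1 : Commute (cj a t 0) (cj a t d) := by simpa using ih d le_rfl 0
        have hx : Commute (u * cj a t 0 * u⁻¹) (u * cj a t d * u⁻¹) :=
          (Commute.conj_iff u).2 c1
        rw [conj_u h2 h4, conj_u h2 h4] at hx
        have c2 : Commute (cj a t (0 + 1)) (cj a t d) := by
          have := ih (d - 1) (by omega) 1
          have e : (1 : ℤ) + ((d - 1 : ℕ) : ℤ) = d := by
            have : 1 ≤ d := hd
            push_cast [Nat.cast_sub this]; ring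
          rw [e] at this
          simpa using this
        have c3 : Commute (cj a t (0 + 1)) (cj a t (d + 1)) := by
          have := ih d le_rfl 1
          rw [add_comm] at this
          simpa [add_comm] using this
        have c4 : Commute (cj a t (0 + 1)) (cj a t d * cj a t (d + 1)) := c2.mul_right c3
        have c5 : Commute (cj a t 0) (cj a t d * cj a t (d + 1)) := by
          have := hx.mul_left (c4.inv_left)
          simpa using this
        have c6 : Commute (cj a t 0) (cj a t (d + 1)) := by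
          have := (c1.inv_right).mul_right c5
          simpa using this
        have e : ((d + 1 : ℕ) : ℤ) = (d : ℤ) + 1 := by push_cast; ring
        rw [e]
        exact c6

theorem comm_all (h2 : t * u = u * t) (h3 : a * (t * a * t⁻¹) = (t * a * t⁻¹) * a)
    (h4 : u * a * u⁻¹ = a * (t * a * t⁻¹)) (i j : ℤ) : cj a t i * cj a t j = cj a t j * cj a t i := by
  rcases le_total i j with h | h
  · obtain ⟨d, hd⟩ := Int.eq_ofNat_of_zero_le (sub_nonneg.2 h)
    have := comm_step h2 h3 h4 d d le_rfl i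
    have e : i + (d : ℤ) = j := by omega
    rw [e] at this
    exact this
  · obtain ⟨d, hd⟩ := Int.eq_ofNat_of_zero_le (sub_nonneg.2 h)
    have := comm_step h2 h3 h4 d d le_rfl j
    have e : j + (d : ℤ) = i := by omega
    rw [e] at this
    exact this.symm

theorem cj_sq (h1 : a * a = 1) (i : ℤ) : cj a t i * cj a t i = 1 := by
  have : cj a t i * cj a t i = t ^ i * (a * a) * t ^ (-i) := by unfold cj; group
  rw [this, h1]; group

/-- The subgroup generated by the conjugates. -/
def BB (a t : P) : Subgroup P := Subgroup.closure (Set.range (cj a t))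

theorem cj_mem (a t : P) (i : ℤ) : cj a t i ∈ BB a t := Subgroup.subset_closure ⟨i, rfl⟩

theorem conj_t_mem (a t : P) (k : ℤ) {b : P} (hb : b ∈ BB a t) : t ^ k * b * t ^ (-k) ∈ BB a t := by
  unfold BB at hb ⊢
  induction hb using Subgroup.closure_induction with
  | mem x hx =>
    obtain ⟨i, rfl⟩ := hx
    rw [conj_t]
    exact Subgroup.subset_closure ⟨_, rfl⟩
  | one => simp
  | mul x y _ _ hx hy =>
    have : t ^ k * (x * y) * t ^ (-k) = (t ^ k * x * t ^ (-k)) * (t ^ k * y * t ^ (-k)) := by group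
    rw [this]
    exact Subgroup.mul_mem _ hx hy
  | inv x _ hx =>
    have : t ^ k * x⁻¹ * t ^ (-k) = (t ^ k * x * t ^ (-k))⁻¹ := by group
    rw [this]
    exact Subgroup.inv_mem _ hx

theorem conj_u_mem (h2 : t * u = u * t) (h4 : u * a * u⁻¹ = a * (t * a * t⁻¹)) {b : P}
    (hb : b ∈ BB a t) : u * b * u⁻¹ ∈ BB a t := by
  unfold BB at hb ⊢
  induction hb using Subgroup.closure_induction with
  | mem x hx =>
    obtain ⟨i, rfl⟩ := hx
    rw [conj_u h2 h4]
    exact Subgroup.mul_mem _ (Subgroup.subset_closure ⟨_, rfl⟩) (Subgroup.subset_closure ⟨_, rfl⟩)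
  | one => simp
  | mul x y _ _ hx hy =>
    have : u * (x * y) * u⁻¹ = (u * x * u⁻¹) * (u * y * u⁻¹) := by group
    rw [this]
    exact Subgroup.mul_mem _ hx hy
  | inv x _ hx =>
    have : u * x⁻¹ * u⁻¹ = (u * x * u⁻¹)⁻¹ := by group
    rw [this]
    exact Subgroup.inv_mem _ hx

theorem conj_upow_mem (h2 : t * u = u * t) (h4 : u * a * u⁻¹ = a * (t * a * t⁻¹)) (n : ℕ) {b : P}
    (hb : b ∈ BB a t) : u ^ n * b * (u ^ n)⁻¹ ∈ BB a t := by
  induction n with
  | zero => simpa using hb
  | succ n ih =>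
    have := conj_u_mem h2 h4 ih
    have e : u ^ (n + 1) * b * (u ^ (n + 1))⁻¹ = u * (u ^ n * b * (u ^ n)⁻¹) * u⁻¹ := by
      rw [pow_succ']; group
    rw [e]; exact this

/-- The normal form. -/
def NF (a t u p : P) : Prop :=
  ∃ (m : ℕ) (b : P) (n i : ℤ), b ∈ BB a t ∧ p = (u ^ m)⁻¹ * b * u ^ n * t ^ i

theorem nf_one (a t u : P) : NF a t u 1 := ⟨0, 1, 0, 0, Subgroup.one_mem _, by simp⟩

theorem nf_mul_t (a t u : P) {p : P} (h : NF a t u p) (k : ℤ) : NF a t u (p * t ^ k) := by
  obtain ⟨m, b, n, i, hb, rfl⟩ := h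
  exact ⟨m, b, n, i + k, hb, by rw [zpow_add]; group⟩

theorem nf_mul_u (h2 : t * u = u * t) {p : P} (h : NF a t u p) (k : ℤ) :
    NF a t u (p * u ^ k) := by
  obtain ⟨m, b, n, i, hb, rfl⟩ := h
  refine ⟨m, b, n + k, i, hb, ?_⟩
  have hc : t ^ i * u ^ k = u ^ k * t ^ i :=
    ((show Commute t u from h2).zpow_left i).zpow_right k
  rw [mul_assoc, hc, zpow_add]
  group

theorem nf_mul_a (h2 : t * u = u * t) (h4 : u * a * u⁻¹ = a * (t * a * t⁻¹)) {p : P}
    (h : NF a t u p) : NF a t u (p * a) := by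
  obtain ⟨m, b, n, i, hb, rfl⟩ := h
  have e1 : t ^ i * a = cj a t i * t ^ i := by unfold cj; group
  rcases le_total 0 n with hn | hn
  · obtain ⟨k, rfl⟩ := Int.eq_ofNat_of_zero_le hn
    refine ⟨m, b * (u ^ k * cj a t i * (u ^ k)⁻¹), k, i,
      Subgroup.mul_mem _ hb (conj_upow_mem h2 h4 k (cj_mem a t i)), ?_⟩
    rw [mul_assoc _ (t ^ i) a, e1, zpow_natCast]
    group
  · obtain ⟨k, hk⟩ := Int.eq_ofNat_of_zero_le (neg_nonneg.2 hn)
    obtain rfl : n = -(k : ℤ) := by omega
    refine ⟨m + k, (u ^ k * b * (u ^ k)⁻¹) * cj a t i, 0, i,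
      Subgroup.mul_mem _ (conj_upow_mem h2 h4 k hb) (cj_mem a t i), ?_⟩
    rw [mul_assoc _ (t ^ i) a, e1, zpow_neg, zpow_natCast, add_comm, pow_add]
    group

theorem nf_all (h1 : a * a = 1) (h2 : t * u = u * t)
    (h4 : u * a * u⁻¹ = a * (t * a * t⁻¹)) (hgen : Subgroup.closure {a, t, u} = ⊤) (p : P) :
    NF a t u p := by
  have ha : a⁻¹ = a := inv_eq_of_mul_eq_one_right h1
  have key : ∀ q ∈ Subgroup.closure ({a, t, u} : Set P),
      ∀ p, NF a t u p → NF a t u (p * q) ∧ NF a t u (p * q⁻¹) := by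
    intro q hq
    induction hq using Subgroup.closure_induction with
    | mem x hx =>
      intro p hp
      rcases hx with rfl | rfl | hx
      · rw [ha]; exact ⟨nf_mul_a h2 h4 hp, nf_mul_a h2 h4 hp⟩
      · constructor
        · simpa using nf_mul_t a x u hp 1
        · simpa using nf_mul_t a x u hp (-1)
      · obtain rfl : x = u := hx
        constructor
        · simpa using nf_mul_u h2 hp 1
        · simpa using nf_mul_u h2 hp (-1)
    | one => intro p hp; simpa using hp
    | mul x y _ _ hx hy =>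
      intro p hp
      constructor
      · rw [← mul_assoc]; exact (hy _ (hx p hp).1).1
      · rw [mul_inv_rev, ← mul_assoc]; exact (hx _ (hy p hp).2).2
    | inv x _ hx =>
      intro p hp
      rw [inv_inv]
      exact ⟨(hx p hp).2, (hx p hp).1⟩
  have := (key p (by rw [hgen]; trivial) 1 (nf_one a t u)).1
  simpa using this

end Abstract

/-! ### the powers of `t` are linearly independent -/

open scoped RatFunc

theorem linInd : LinearIndependent (ZMod 2) (fun i : ℤ => (tt ^ i : K2)) := by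
  rw [linearIndependent_iff]
  intro f hf
  have hf' : ∑ i ∈ f.support, f i • (tt ^ i : K2) = 0 := hf
  have h1 := congrArg (algebraMap K2 (LaurentSeries (ZMod 2))) hf'
  rw [map_zero, map_sum] at h1
  have h2 : ∀ i : ℤ, algebraMap K2 (LaurentSeries (ZMod 2)) (f i • (tt ^ i : K2))
      = HahnSeries.single i (f i) := by
    intro i
    have e1 : algebraMap K2 (LaurentSeries (ZMod 2)) (tt ^ i) = HahnSeries.single i 1 := by
      rw [map_zpow₀, RatFunc.single_zpow]
      congr 1
      exact RatFunc.coe_X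
    have h01 : ∀ c : ZMod 2, c = 0 ∨ c = 1 := by decide
    rcases h01 (f i) with h | h
    · rw [h, zero_smul, map_zero, HahnSeries.single_eq_zero]
    · rw [h, one_smul, e1]
  simp only [h2] at h1
  ext i
  have h3 := congrArg (fun s : LaurentSeries (ZMod 2) => s.coeff i) h1
  simp only [HahnSeries.coeff_zero, HahnSeries.coeff_sum] at h3
  rw [Finsupp.coe_zero, Pi.zero_apply]
  by_cases hi : i ∈ f.support
  · rw [Finset.sum_eq_single_of_mem i hi] at h3
    · rwa [HahnSeries.coeff_single_same] at h3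
    · intro j _ hj
      rw [HahnSeries.coeff_single_of_ne hj.symm]
  · exact Finsupp.notMem_support_iff.1 hi

/-! ### injectivity -/

section Inj

variable {P : Type*} [Group P] {a t u : P}

theorem one_mem_AA : (1 : K2) ∈ AA := by
  have := site_mem 0 0
  rwa [site_zero] at this

theorem site_eq (i : ℤ) : site i 0 = tt ^ i := by simp [site]

theorem ofZ_mul (i j i' j' : ℤ) : Gam.ofZ i j * Gam.ofZ i' j' = Gam.ofZ (i + i') (j + j') := by
  ext <;> simp

theorem ofZ_zero : Gam.ofZ 0 0 = 1 := by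
  ext <;> simp

theorem ofZ_inv (i j : ℤ) : (Gam.ofZ i j)⁻¹ = Gam.ofZ (-i) (-j) := by
  ext <;> simp

theorem ofZ_zpow (i j k : ℤ) : (Gam.ofZ i j) ^ k = Gam.ofZ (k * i) (k * j) := by
  induction k using Int.induction_on with
  | zero => rw [zpow_zero, zero_mul, zero_mul, ofZ_zero]
  | succ n ih =>
    rw [zpow_add_one, ih, ofZ_mul]
    congr 1 <;> ring
  | pred n ih =>
    rw [zpow_sub_one, ih, ofZ_inv, ofZ_mul]
    congr 1 <;> ring

theorem pi_cj {π : P →* Gam} (ha : π a = Gam.ofA 1 one_mem_AA) (ht : π t = Gam.ofZ 1 0) (i : ℤ) :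
    π (cj a t i) = Gam.ofA (tt ^ i) (by rw [← site_eq]; exact site_mem i 0) := by
  unfold cj
  rw [map_mul, map_mul, map_zpow, map_zpow, ha, ht, ofZ_zpow, ofZ_zpow]
  ext
  · simp [site_eq]
  · simp
  · simp

theorem pi_BB {π : P →* Gam} (ha : π a = Gam.ofA 1 one_mem_AA) (ht : π t = Gam.ofZ 1 0) {b : P}
    (hb : b ∈ BB a t) : (π b).i = 0 ∧ (π b).j = 0 := by
  unfold BB at hb
  induction hb using Subgroup.closure_induction with
  | mem x hx =>
    obtain ⟨i, rfl⟩ := hx
    rw [pi_cj ha ht]
    simp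
  | one => simp
  | mul x y _ _ hx hy =>
    rw [map_mul, Gam.mul_i, Gam.mul_j, hx.1, hx.2, hy.1, hy.2]
    simp
  | inv x _ hx =>
    rw [map_inv, Gam.inv_i, Gam.inv_j, hx.1, hx.2]
    simp

open scoped IsMulCommutative in
theorem inj_BB (h1 : a * a = 1) (h2 : t * u = u * t) (h3 : a * (t * a * t⁻¹) = (t * a * t⁻¹) * a)
    (h4 : u * a * u⁻¹ = a * (t * a * t⁻¹)) {π : P →* Gam} (ha : π a = Gam.ofA 1 one_mem_AA)
    (ht : π t = Gam.ofZ 1 0) {b : P} (hb : b ∈ BB a t) (hπ : π b = 1) : b = 1 := by
  have hcomm : IsMulCommutative (BB a t) := by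
    apply Subgroup.isMulCommutative_closure
    rintro x ⟨i, rfl⟩ y ⟨j, rfl⟩
    exact comm_all h2 h3 h4 i j
  let _ : CommGroup (BB a t) := inferInstance
  have hsq : ∀ x : BB a t, x * x = 1 := by
    rintro ⟨x, hx⟩
    have hx2 : x ∈ Subgroup.closure (Set.range (cj a t)) := hx
    induction hx2 using Subgroup.closure_induction with
    | mem x hx' =>
      obtain ⟨i, rfl⟩ := hx'
      exact Subtype.ext (cj_sq h1 i)
    | one => exact Subtype.ext (mul_one 1)
    | mul x y hx' hy' ihx ihy =>
      have e : (⟨x * y, hx⟩ : BB a t) = ⟨x, hx'⟩ * ⟨y, hy'⟩ := rfl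
      rw [e, mul_mul_mul_comm, ihx hx', ihy hy', mul_one]
    | inv x hx' ihx =>
      have e : (⟨x⁻¹, hx⟩ : BB a t) = (⟨x, hx'⟩)⁻¹ := rfl
      rw [e, ← mul_inv, ihx hx', inv_one]
  let _ : Module (ZMod 2) (Additive (BB a t)) := AddCommGroup.zmodModule (n := 2) (by
    intro x
    rw [two_nsmul]
    exact hsq x.toMul)
  set g : ℤ → Additive (BB a t) := fun i => Additive.ofMul ⟨cj a t i, cj_mem a t i⟩ with hg
  set ψ := Finsupp.linearCombination (ZMod 2) g with hψ
  have hsurj : ∀ x : BB a t, ∃ f, ψ f = Additive.ofMul x := by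
    rintro ⟨x, hx⟩
    have hx2 : x ∈ Subgroup.closure (Set.range (cj a t)) := hx
    induction hx2 using Subgroup.closure_induction with
    | mem x hx' =>
      obtain ⟨i, rfl⟩ := hx'
      exact ⟨Finsupp.single i 1, by rw [hψ, Finsupp.linearCombination_single, one_smul]⟩
    | one => exact ⟨0, by rw [map_zero]; rfl⟩
    | mul x y hx' hy' ihx ihy =>
      obtain ⟨f, hf⟩ := ihx hx'
      obtain ⟨f', hf'⟩ := ihy hy'
      exact ⟨f + f', by rw [map_add, hf, hf']; rfl⟩
    | inv x hx' ihx =>
      obtain ⟨f, hf⟩ := ihx hx'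
      exact ⟨-f, by rw [map_neg, hf]; rfl⟩
  let L : Additive (BB a t) →+ K2 :=
    { toFun := fun x => (π (x.toMul : P)).v
      map_zero' := by
        show (π ((1 : BB a t) : P)).v = 0
        rw [Subgroup.coe_one, map_one, Gam.one_v]
      map_add' := by
        intro x y
        show (π (((x.toMul * y.toMul : BB a t)) : P)).v = _
        rw [Subgroup.coe_mul, map_mul, Gam.mul_v, (pi_BB ha ht x.toMul.2).1,
          (pi_BB ha ht x.toMul.2).2, site_zero, one_mul] }
  have hL : ∀ f, L (ψ f) = Finsupp.linearCombination (ZMod 2) (fun i : ℤ => (tt ^ i : K2)) f := by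
    intro f
    have e := Finsupp.apply_linearCombination (ZMod 2) (L.toZModLinearMap 2) g f
    have e2 : (L.toZModLinearMap 2) ∘ g = fun i : ℤ => (tt ^ i : K2) := by
      funext i
      show (π (cj a t i)).v = tt ^ i
      rw [pi_cj ha ht]
      rfl
    rw [e2] at e
    exact e
  obtain ⟨f, hf⟩ := hsurj ⟨b, hb⟩
  have h0 : L (ψ f) = 0 := by
    rw [hf]
    show (π b).v = 0
    rw [hπ, Gam.one_v]
  rw [hL] at h0
  have hf0 : f = 0 := linearIndependent_iff.1 linInd f h0
  rw [hf0, map_zero] at hf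
  have := congrArg (fun x : Additive (BB a t) => (x.toMul : P)) hf
  exact this.symm

theorem inj (h1 : a * a = 1) (h2 : t * u = u * t) (h3 : a * (t * a * t⁻¹) = (t * a * t⁻¹) * a)
    (h4 : u * a * u⁻¹ = a * (t * a * t⁻¹)) (hgen : Subgroup.closure {a, t, u} = ⊤)
    {π : P →* Gam} (ha : π a = Gam.ofA 1 one_mem_AA)
    (ht : π t = Gam.ofZ 1 0) (hu : π u = Gam.ofZ 0 1) {p : P} (hp : π p = 1) : p = 1 := by
  obtain ⟨m, b, n, i, hb, rfl⟩ := nf_all h1 h2 h4 hgen p
  have hb' := pi_BB ha ht hb
  have hum : π (u ^ m) = Gam.ofZ 0 m := by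
    have := ofZ_zpow 0 1 m
    rw [zpow_natCast] at this
    rw [map_pow, hu, this]; simp
  have hun : π (u ^ n) = Gam.ofZ 0 n := by
    rw [map_zpow, hu, ofZ_zpow]; simp
  have hti : π (t ^ i) = Gam.ofZ i 0 := by
    rw [map_zpow, ht, ofZ_zpow]; simp
  have hp' := hp
  rw [map_mul, map_mul, map_mul, map_inv, hum, hun, hti] at hp'
  have hi := congrArg Gam.i hp'
  have hj := congrArg Gam.j hp'
  simp only [Gam.mul_i, Gam.inv_i, Gam.ofZ_i, hb'.1, Gam.one_i] at hi
  simp only [Gam.mul_j, Gam.inv_j, Gam.ofZ_j, hb'.2, Gam.one_j] at hj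
  obtain rfl : i = 0 := by omega
  obtain rfl : n = m := by omega
  have hb1 : π b = 1 := by
    rw [map_mul, map_mul, map_mul, map_inv, zpow_natCast, zpow_zero, map_one, mul_one] at hp
    have := congrArg (fun x => π (u ^ m) * x * (π (u ^ m))⁻¹) hp
    simpa [mul_assoc] using this
  have := inj_BB h1 h2 h3 h4 ha ht hb hb1
  rw [this]
  simp

end Inj

/-! ### the presentation -/

open FreeGroup in
/-- The relators. -/
noncomputable def rels : Finset (FreeGroup (Fin 3)) := by
  classical
  exact {of 0 * of 0, of 1 * of 2 * (of 2 * of 1)⁻¹,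
    of 0 * (of 1 * of 0 * (of 1)⁻¹) * ((of 1 * of 0 * (of 1)⁻¹) * of 0)⁻¹,
    of 2 * of 0 * (of 2)⁻¹ * (of 0 * (of 1 * of 0 * (of 1)⁻¹))⁻¹}

/-- Images of the generators. -/
noncomputable def gens : Fin 3 → Gam := ![Gam.ofA 1 one_mem_AA, Gam.ofZ 1 0, Gam.ofZ 0 1]

end FpAux

open FpAux

theorem gam_fp : ∃ (k : ℕ) (φ : FreeGroup (Fin k) →* Gam) (R : Finset (FreeGroup (Fin k))),
    Function.Surjective φ ∧ φ.ker = Subgroup.normalClosure (↑R : Set (FreeGroup (Fin k))) := by
  classical
  have hv : ∀ x y : Gam, x.v = y.v → x.i = y.i → x.j = y.j → x = y := fun x y h1 h2 h3 =>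
    Gam.ext h1 h2 h3
  have g0 : gens 0 = Gam.ofA 1 one_mem_AA := rfl
  have g1 : gens 1 = Gam.ofZ 1 0 := rfl
  have g2 : gens 2 = Gam.ofZ 0 1 := rfl
  have hrel : ∀ r ∈ (↑rels : Set (FreeGroup (Fin 3))), FreeGroup.lift gens r = 1 := by
    intro r hr
    have hr' : r ∈ rels := hr
    simp only [rels, Finset.mem_insert, Finset.mem_singleton] at hr'
    rcases hr' with rfl | rfl | rfl | rfl
    · rw [map_mul, FreeGroup.lift_apply_of, g0]
      apply hv
      · simp [site_zero, char_two]
      · simp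
      · simp
    · simp only [map_mul, map_inv, FreeGroup.lift_apply_of, g1, g2]
      rw [mul_inv_eq_one, ofZ_mul, ofZ_mul]
      simp
    · simp only [map_mul, map_inv, FreeGroup.lift_apply_of, g0, g1]
      rw [mul_inv_eq_one]
      apply hv
      · simp [site_zero, add_comm]
      · simp
      · simp
    · simp only [map_mul, map_inv, FreeGroup.lift_apply_of, g0, g1, g2]
      rw [mul_inv_eq_one]
      apply hv
      · simp [site_zero, site, tt, uu]
      · simp
      · simp
  refine ⟨3, FreeGroup.lift gens, rels, ?_, ?_⟩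
  · -- surjectivity
    intro x
    have hrange : ∀ y ∈ AA, ∀ hy : y ∈ AA, Gam.ofA y hy ∈ (FreeGroup.lift gens).range := by
      intro y hy0
      unfold AA at hy0
      induction hy0 using AddSubgroup.closure_induction with
      | mem x hx =>
        intro hy
        obtain ⟨i, j, rfl⟩ := hx
        refine ⟨(FreeGroup.of 1 ^ i * FreeGroup.of 2 ^ j) * FreeGroup.of 0
          * (FreeGroup.of 1 ^ i * FreeGroup.of 2 ^ j)⁻¹, ?_⟩
        simp only [map_mul, map_inv, map_zpow, FreeGroup.lift_apply_of, g0, g1, g2, ofZ_zpow]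
        apply hv
        · simp
        · simp
        · simp
      | zero =>
        intro hy
        refine ⟨1, ?_⟩
        rw [map_one]
        apply hv <;> simp
      | add x y hx hy ihx ihy =>
        intro hxy
        have hx' : x ∈ AA := hx
        have hy' : y ∈ AA := hy
        have e : Gam.ofA (x + y) hxy = Gam.ofA x hx' * Gam.ofA y hy' := by
          apply hv <;> simp [site_zero]
        rw [e]
        exact Subgroup.mul_mem _ (ihx hx') (ihy hy')
      | neg x hx ihx =>
        intro hnx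
        have hx' : x ∈ AA := hx
        have e : Gam.ofA (-x) hnx = (Gam.ofA x hx')⁻¹ := by
          apply hv <;> simp [site_zero]
        rw [e]
        exact Subgroup.inv_mem _ (ihx hx')
    have e : x = Gam.ofA x.v x.hv * Gam.ofZ x.i x.j := by
      apply hv <;> simp
    have e2 : Gam.ofZ x.i x.j = gens 1 ^ x.i * gens 2 ^ x.j := by
      rw [g1, g2, ofZ_zpow, ofZ_zpow, ofZ_mul]; simp
    rw [e, e2]
    have : Gam.ofA x.v x.hv * (gens 1 ^ x.i * gens 2 ^ x.j) ∈ (FreeGroup.lift gens).range := by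
      refine Subgroup.mul_mem _ (hrange _ x.hv x.hv) (Subgroup.mul_mem _ ?_ ?_)
      · exact Subgroup.zpow_mem _ (MonoidHom.mem_range.2 ⟨FreeGroup.of 1, by simp⟩) _
      · exact Subgroup.zpow_mem _ (MonoidHom.mem_range.2 ⟨FreeGroup.of 2, by simp⟩) _
    exact this
  · apply le_antisymm
    · intro w hw
      have hw' : FreeGroup.lift gens w = 1 := hw
      set P := PresentedGroup (↑rels : Set (FreeGroup (Fin 3))) with hP
      let π : P →* Gam := PresentedGroup.toGroup hrel
      let a : P := PresentedGroup.of 0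
      let t : P := PresentedGroup.of 1
      let u : P := PresentedGroup.of 2
      have hmk : ∀ r ∈ rels, PresentedGroup.mk (↑rels : Set (FreeGroup (Fin 3))) r = 1 := by
        intro r hr
        exact PresentedGroup.one_of_mem hr
      have r1 : a * a = 1 := by
        have := hmk (FreeGroup.of 0 * FreeGroup.of 0) (by simp [rels])
        rwa [map_mul] at this
      have r2 : t * u = u * t := by
        have := hmk (FreeGroup.of 1 * FreeGroup.of 2 * (FreeGroup.of 2 * FreeGroup.of 1)⁻¹)
          (by simp [rels])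
        rw [map_mul, map_inv, map_mul, map_mul, mul_inv_eq_one] at this
        exact this
      have r3 : a * (t * a * t⁻¹) = (t * a * t⁻¹) * a := by
        have := hmk (FreeGroup.of 0 * (FreeGroup.of 1 * FreeGroup.of 0 * (FreeGroup.of 1)⁻¹)
          * ((FreeGroup.of 1 * FreeGroup.of 0 * (FreeGroup.of 1)⁻¹) * FreeGroup.of 0)⁻¹)
          (by simp [rels])
        simp only [map_mul, map_inv] at this
        rw [mul_inv_eq_one] at this
        exact this
      have r4 : u * a * u⁻¹ = a * (t * a * t⁻¹) := by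
        have := hmk (FreeGroup.of 2 * FreeGroup.of 0 * (FreeGroup.of 2)⁻¹
          * (FreeGroup.of 0 * (FreeGroup.of 1 * FreeGroup.of 0 * (FreeGroup.of 1)⁻¹))⁻¹)
          (by simp [rels])
        simp only [map_mul, map_inv] at this
        rw [mul_inv_eq_one] at this
        exact this
      have hgen : Subgroup.closure {a, t, u} = ⊤ := by
        rw [← PresentedGroup.closure_range_of]
        congr 1
        ext x
        constructor
        · rintro (rfl | rfl | rfl)
          · exact ⟨0, rfl⟩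
          · exact ⟨1, rfl⟩
          · exact ⟨2, rfl⟩
        · rintro ⟨k, rfl⟩
          fin_cases k
          · exact Or.inl rfl
          · exact Or.inr (Or.inl rfl)
          · exact Or.inr (Or.inr rfl)
      have hπ : π (PresentedGroup.mk _ w) = 1 := hw'
      have hone := inj (π := π) r1 r2 r3 r4 hgen (PresentedGroup.toGroup.of hrel)
        (PresentedGroup.toGroup.of hrel) (PresentedGroup.toGroup.of hrel) hπ
      exact PresentedGroup.mk_eq_one_iff.1 hone
    · apply Subgroup.normalClosure_le_normal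
      intro r hr
      exact hrel r hr

end Pool.Agent.SelfCover
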