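import Pool.Agent.SelfCover.PathCover

set_option autoImplicit false

/-!
# The lift of a self-covering to path classes
-/

namespace Pool.Agent.SelfCover

open Path

section general

variable {X Y : Type*} [TopologicalSpace X] [TopologicalSpace Y]

theorem hq_map_trans {a b c : X} (p : Homotopic.Quotient a b) (q : Homotopic.Quotient b c)
    (f : C(X, Y)) : (p.trans q).map f = (p.map f).trans (q.map f) := by
  induction p using Homotopic.Quotient.ind with
  | mk p =>
  induction q using Homotopic.Quotient.ind with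
  | mk q =>
  rw [← Homotopic.Quotient.mk_trans, ← Homotopic.Quotient.mk_map, ← Homotopic.Quotient.mk_map,
    ← Homotopic.Quotient.mk_map, ← Homotopic.Quotient.mk_trans, Path.map_trans]

theorem hq_cancel {a b c : X} (p : Homotopic.Quotient a b) {q q' : Homotopic.Quotient b c}
    (h : p.trans q = p.trans q') : q = q' := by
  have h1 : p.symm.trans (p.trans q) = p.symm.trans (p.trans q') := by rw [h]
  rwa [← Homotopic.Quotient.trans_assoc, ← Homotopic.Quotient.trans_assoc,
    Homotopic.Quotient.symm_trans, Homotopic.Quotient.refl_trans,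
    Homotopic.Quotient.refl_trans] at h1

theorem pc_cast_eq {b z z' : X} (u : Homotopic.Quotient b z) (h : z' = z) :
    (⟨z', u.cast rfl h⟩ : PC X b) = ⟨z, u⟩ := by
  subst h
  rw [Homotopic.Quotient.cast_rfl_rfl]

theorem pc_trans_cast_eq {b a z z' : X} (v : Homotopic.Quotient b a)
    (u : Homotopic.Quotient a z) (h : z' = z) :
    (⟨z', v.trans (u.cast rfl h)⟩ : PC X b) = ⟨z, v.trans u⟩ := by
  subst h
  rw [Homotopic.Quotient.cast_rfl_rfl]

/-- Conjugation with a path class. -/
noncomputable def conjE {x y : X} (γ : Homotopic.Quotient x y) :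
    FundamentalGroup X y ≃* FundamentalGroup X x where
  toFun g := (γ.trans (g : Homotopic.Quotient y y)).trans γ.symm
  invFun h := (γ.symm.trans (h : Homotopic.Quotient x x)).trans γ
  left_inv g := by
    change (γ.symm.trans ((γ.trans (g : Homotopic.Quotient y y)).trans γ.symm)).trans γ = g
    rw [← Homotopic.Quotient.trans_assoc, ← Homotopic.Quotient.trans_assoc,
      Homotopic.Quotient.symm_trans, Homotopic.Quotient.refl_trans,
      Homotopic.Quotient.trans_assoc, Homotopic.Quotient.symm_trans, Homotopic.Quotient.trans_refl]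
  right_inv h := by
    change (γ.trans ((γ.symm.trans (h : Homotopic.Quotient x x)).trans γ)).trans γ.symm = h
    rw [← Homotopic.Quotient.trans_assoc, ← Homotopic.Quotient.trans_assoc,
      Homotopic.Quotient.trans_symm, Homotopic.Quotient.refl_trans,
      Homotopic.Quotient.trans_assoc, Homotopic.Quotient.trans_symm, Homotopic.Quotient.trans_refl]
  map_mul' g h := by
    change (γ.trans ((h : Homotopic.Quotient y y).trans (g : Homotopic.Quotient y y))).trans γ.symm
      = ((γ.trans (h : Homotopic.Quotient y y)).trans γ.symm).trans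
        ((γ.trans (g : Homotopic.Quotient y y)).trans γ.symm)
    simp only [Homotopic.Quotient.trans_assoc]
    congr 2
    rw [← Homotopic.Quotient.trans_assoc γ.symm γ, Homotopic.Quotient.symm_trans,
      Homotopic.Quotient.refl_trans]

end general

section lift

variable {M : Type*} [MetricSpace M] [CompactSpace M]

/-- A covering of a compact metric space is injective at small scales. -/
theorem exists_inj_scale (f : C(M, M)) (hf : IsCoveringMap ⇑f) :
    ∃ η : ℝ, 0 < η ∧ ∀ a b, dist a b < η → f a = f b → a = b := by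
  have hli : ∀ z : M, ∃ U, IsOpen U ∧ z ∈ U ∧ Set.InjOn f U := fun z =>
    hf.isLocalHomeomorph.isLocallyInjective z
  choose U hUo hzU hUi using hli
  obtain ⟨η, hη, hb⟩ := lebesgue_number_lemma_of_metric (s := (Set.univ : Set M)) isCompact_univ
    hUo (fun z _ => Set.mem_iUnion.2 ⟨z, hzU z⟩)
  refine ⟨η, hη, fun a b hab hfab => ?_⟩
  obtain ⟨i, hi⟩ := hb a (Set.mem_univ a)
  exact hUi i (hi (Metric.mem_ball_self hη)) (hi (by rwa [Metric.mem_ball, dist_comm])) hfab

/-- Lifts of short paths are short. -/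
theorem exists_lift_scale (f : C(M, M)) (hf : IsCoveringMap ⇑f) (ε : ℝ) (hε : 0 < ε) :
    ∃ δ : ℝ, 0 < δ ∧ ∀ Γ : C(unitInterval, M), (∀ s t, dist (f (Γ s)) (f (Γ t)) < δ) →
      ∀ s t, dist (Γ s) (Γ t) < ε := by
  obtain ⟨η, hη, hinj⟩ := exists_inj_scale f hf
  set r := min (ε / 3) (η / 2) with hr
  have hr0 : 0 < r := lt_min (by linarith) (by linarith)
  have hrε : r ≤ ε / 3 := min_le_left _ _
  have hrη : r < η := lt_of_le_of_lt (min_le_right _ _) (by linarith)
  have hK : IsCompact {q : M × M | dist q.1 q.2 = r} :=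
    (isClosed_eq (continuous_fst.dist continuous_snd) continuous_const).isCompact
  have hcont : Continuous fun q : M × M => dist (f q.1) (f q.2) :=
    (f.continuous.comp continuous_fst).dist (f.continuous.comp continuous_snd)
  have hδ : ∃ δ : ℝ, 0 < δ ∧ ∀ a b, dist a b = r → δ ≤ dist (f a) (f b) := by
    rcases Set.eq_empty_or_nonempty {q : M × M | dist q.1 q.2 = r} with he | hne
    · refine ⟨1, one_pos, fun a b hab => ?_⟩
      have : (a, b) ∈ {q : M × M | dist q.1 q.2 = r} := hab
      rw [he] at this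
      exact absurd this (Set.notMem_empty _)
    · obtain ⟨q, hq, hmin⟩ := hK.exists_isMinOn hne hcont.continuousOn
      refine ⟨dist (f q.1) (f q.2), ?_, fun a b hab => hmin (show (a, b) ∈ _ from hab)⟩
      rw [dist_pos]
      intro hfe
      have hq' : dist q.1 q.2 = r := hq
      have := hinj q.1 q.2 (by rw [hq']; exact hrη) hfe
      rw [this, dist_self] at hq'
      linarith
  obtain ⟨δ, hδ0, hδ⟩ := hδ
  refine ⟨δ, hδ0, fun Γ hΓ => ?_⟩
  have key : ∀ s, dist (Γ s) (Γ 0) < r := by
    intro s
    by_contra hlt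
    push Not at hlt
    have hc : Continuous fun t => dist (Γ t) (Γ 0) := Γ.continuous.dist continuous_const
    have h1 : r ∈ Set.Icc ((fun t => dist (Γ t) (Γ 0)) 0) ((fun t => dist (Γ t) (Γ 0)) s) := by
      refine ⟨?_, hlt⟩
      show dist (Γ 0) (Γ 0) ≤ r
      rw [dist_self]; exact hr0.le
    obtain ⟨t, ht⟩ := intermediate_value_univ 0 s hc h1
    have h2 := hδ (Γ t) (Γ 0) ht
    exact absurd (hΓ t 0) (not_lt.2 h2)
  intro s t
  calc dist (Γ s) (Γ t) ≤ dist (Γ s) (Γ 0) + dist (Γ t) (Γ 0) := dist_triangle_right _ _ _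
    _ < r + r := add_lt_add (key s) (key t)
    _ ≤ ε := by linarith

end lift

section fwd

variable {M : Type*} [TopologicalSpace M]

/-- The map on path classes. -/
noncomputable def fwd (f : C(M, M)) {x : M} (γ : Homotopic.Quotient x (f x)) (c : PC M (f x)) :
    PC M (f x) := ⟨f c.pt, (γ.trans c.cls).map f⟩

theorem fwd_injective (f : C(M, M)) (hf : IsCoveringMap ⇑f) {x : M}
    (γ : Homotopic.Quotient x (f x)) : Function.Injective (fwd f γ) := by
  intro c c' h
  have h1 : ∀ d : PC M (f x), (hf.monodromy (fwd f γ d).cls ⟨x, rfl⟩ : M) = d.pt := by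
    intro d
    exact congrArg Subtype.val (hf.monodromy_map (γ.trans d.cls))
  have h2 : c.pt = c'.pt := by
    rw [← h1 c, ← h1 c', h]
  obtain ⟨z, u⟩ := c
  obtain ⟨z', u'⟩ := c'
  change z = z' at h2
  subst h2
  have h3 : (γ.trans u).map f = (γ.trans u').map f := by
    have h4 : (⟨f z, (γ.trans u).map f⟩ : PC M (f x)) = ⟨f z, (γ.trans u').map f⟩ := h
    simpa using h4
  have h5 := hf.injective_path_homotopic_map x z h3
  have h6 := hq_cancel γ h5
  rw [h6]

theorem fwd_surjective (f : C(M, M)) (hf : IsCoveringMap ⇑f) {x : M}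
    (γ : Homotopic.Quotient x (f x)) : Function.Surjective (fwd f γ) := by
  intro d
  let e : ⇑f ⁻¹' {f x} := ⟨x, rfl⟩
  let w : Homotopic.Quotient x (hf.monodromy d.cls e : M) := hf.liftPathQuotient d.cls e
  refine ⟨⟨(hf.monodromy d.cls e : M), γ.symm.trans w⟩, ?_⟩
  have h1 : γ.trans (γ.symm.trans w) = w := by
    rw [← Homotopic.Quotient.trans_assoc, Homotopic.Quotient.trans_symm,
      Homotopic.Quotient.refl_trans]
  change (⟨f (hf.monodromy d.cls e : M), (γ.trans (γ.symm.trans w)).map f⟩ : PC M (f x)) = d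
  rw [h1]
  have h2 : w.map f = d.cls.cast rfl (hf.monodromy d.cls e).2 := hf.map_liftPathQuotient d.cls e
  rw [h2]
  exact pc_cast_eq d.cls (hf.monodromy d.cls e).2

end fwd

theorem exists_selfMap {M : Type} [MetricSpace M] [CompactSpace M] [PathConnectedSpace M]
    (f : C(M, M)) (hf : IsCoveringMap ⇑f) (x : M) {G : Type*} [Group G]
    (e : FundamentalGroup M (f x) ≃* G) :
    letI := pcAction e
    ∃ (α : G →* G) (F : PC M (f x) ≃ PC M (f x)),
      Function.Injective α ∧
      α.range = (FundamentalGroup.map f x).range.map e.toMonoidHom ∧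
      (∀ (g : G) c, F (g • c) = α g • F c) ∧
      (∀ ε : ℝ, 0 < ε → ∃ δ : ℝ, 0 < δ ∧ ∀ c c', pnear δ c c' → pnear ε (F c) (F c')) ∧
      (∀ ε : ℝ, 0 < ε → ∃ δ : ℝ, 0 < δ ∧ ∀ c c', pnear δ (F c) (F c') → pnear ε c c') := by
  let _ := pcAction e
  let γ : Homotopic.Quotient x (f x) := Homotopic.Quotient.mk (PathConnectedSpace.somePath x (f x))
  let F : PC M (f x) ≃ PC M (f x) :=
    Equiv.ofBijective (fwd f γ) ⟨fwd_injective f hf γ, fwd_surjective f hf γ⟩
  have hF : ∀ c, F c = fwd f γ c := fun c => rfl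
  let α : G →* G := e.toMonoidHom.comp ((FundamentalGroup.map f x).comp
    ((conjE γ).toMonoidHom.comp e.symm.toMonoidHom))
  have hα : ∀ g, α g = e (FundamentalGroup.map f x (conjE γ (e.symm g))) := fun g => rfl
  have hmapinj : Function.Injective (FundamentalGroup.map f x) := by
    intro p q hpq
    exact hf.injective_path_homotopic_map x x hpq
  refine ⟨α, F, ?_, ?_, ?_, ?_, ?_⟩
  · intro g h hgh
    rw [hα, hα] at hgh
    exact e.symm.injective ((conjE γ).injective (hmapinj (e.injective hgh)))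
  · ext g
    simp only [MonoidHom.mem_range, Subgroup.mem_map, MulEquiv.coe_toMonoidHom]
    constructor
    · rintro ⟨h, rfl⟩
      exact ⟨_, ⟨conjE γ (e.symm h), rfl⟩, rfl⟩
    · rintro ⟨p, ⟨q, rfl⟩, rfl⟩
      refine ⟨e ((conjE γ).symm q), ?_⟩
      rw [hα, MulEquiv.symm_apply_apply, MulEquiv.apply_symm_apply]
  · intro g c
    rw [hF, hF]
    change (⟨f c.pt, (γ.trans (Homotopic.Quotient.trans
      (e.symm g⁻¹ : Homotopic.Quotient (f x) (f x)) c.cls)).map f⟩ : PC M (f x))
      = ⟨f c.pt, Homotopic.Quotient.trans (e.symm (α g)⁻¹ : Homotopic.Quotient (f x) (f x))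
        ((γ.trans c.cls).map f)⟩
    have h1 : (e.symm (α g)⁻¹ : Homotopic.Quotient (f x) (f x))
        = ((γ.trans (e.symm g⁻¹ : Homotopic.Quotient (f x) (f x))).trans γ.symm).map f := by
      rw [← map_inv, hα, MulEquiv.symm_apply_apply]
      rfl
    rw [h1, ← hq_map_trans]
    congr 2
    rw [Homotopic.Quotient.trans_assoc, Homotopic.Quotient.trans_assoc]
    congr 1
    rw [← Homotopic.Quotient.trans_assoc γ.symm, Homotopic.Quotient.symm_trans,
      Homotopic.Quotient.refl_trans]
  · intro ε hε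
    obtain ⟨δ, hδ, hfδ⟩ := Metric.uniformContinuous_iff.1
      (CompactSpace.uniformContinuous_of_continuous f.continuous) ε hε
    refine ⟨δ, hδ, ?_⟩
    rintro c c' ⟨u, hu, hd⟩
    refine ⟨u.map f.continuous, ?_, fun s t => hfδ (hd s t)⟩
    change (γ.trans c'.cls).map f
      = Homotopic.Quotient.trans ((γ.trans c.cls).map f) ((Homotopic.Quotient.mk u).map f)
    rw [hu, ← hq_map_trans, Homotopic.Quotient.trans_assoc]
  · intro ε hε
    obtain ⟨δ, hδ, hlift⟩ := exists_lift_scale f hf ε hε
    refine ⟨δ, hδ, ?_⟩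
    intro c c' hnear
    have hnear' : ∃ u : Path (f c.pt) (f c'.pt), (γ.trans c'.cls).map f
        = Homotopic.Quotient.trans ((γ.trans c.cls).map f) (Homotopic.Quotient.mk u) ∧
        ∀ s t, dist (u s) (u t) < δ := hnear
    obtain ⟨u, hu, hd⟩ := hnear'
    have h0 : u 0 = f c.pt := u.source
    let Γ : C(unitInterval, M) := hf.liftPath u c.pt h0
    have hΓ : ⇑f ∘ Γ = u := hf.liftPath_lifts u c.pt h0
    have hΓ0 : Γ 0 = c.pt := hf.liftPath_zero u c.pt h0
    have hΓ' : ∀ s, f (Γ s) = u s := fun s => congrFun hΓ s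
    have hend : f (Γ 1) = f c'.pt := (hΓ' 1).trans u.target
    let v : Path c.pt (Γ 1) := ⟨Γ, hΓ0, rfl⟩
    have hv : ∀ s t, dist (v s) (v t) < ε := by
      apply hlift Γ
      intro s t
      rw [hΓ', hΓ']
      exact hd s t
    have h1 : F (c.ex (Homotopic.Quotient.mk v)) = F c' := by
      have h2 : F (c.ex (Homotopic.Quotient.mk v))
          = ⟨f (Γ 1), Homotopic.Quotient.trans ((γ.trans c.cls).map f)
              ((Homotopic.Quotient.mk v).map f)⟩ := by
        rw [hF, ← hq_map_trans, Homotopic.Quotient.trans_assoc]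
        rfl
      have h3 : (Homotopic.Quotient.mk v).map f = (Homotopic.Quotient.mk u).cast rfl hend := by
        rw [← Homotopic.Quotient.mk_map, ← Homotopic.Quotient.mk_cast]
        congr 1
        ext s
        exact hΓ' s
      have h4 : F c' = ⟨f c'.pt, Homotopic.Quotient.trans ((γ.trans c.cls).map f)
          (Homotopic.Quotient.mk u)⟩ := by
        have h5 : F c' = ⟨f c'.pt, (γ.trans c'.cls).map f⟩ := rfl
        rw [h5, hu]
      rw [h2, h3, h4]
      exact pc_trans_cast_eq _ _ hend
    have h6 : c.ex (Homotopic.Quotient.mk v) = c' := F.injective h1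
    rw [← h6]
    exact pnear_ex c v hv

end Pool.Agent.SelfCover
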