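import Pool.Agent.SelfCover.Gam

set_option autoImplicit false

/-!
# The subgroup `GamP = gA ⋊ ℤ²` of `Gam`
-/

namespace Pool.Agent.SelfCover

open Polynomial

/-- The polynomial `1 + X + X²`. -/
noncomputable def gPoly : (ZMod 2)[X] := 1 + X + X ^ 2

theorem gPoly_natDegree : gPoly.natDegree = 2 := by
  unfold gPoly
  compute_degree!

theorem gg_eq : gg = algebraMap (ZMod 2)[X] K2 gPoly := by
  simp [gg, gPoly, tt, RatFunc.algebraMap_X]

theorem gg_ne_zero : gg ≠ 0 := by
  rw [gg_eq]
  intro h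
  have h1 : gPoly = 0 := by
    apply RatFunc.algebraMap_injective (ZMod 2)
    rw [h, map_zero]
  have h2 := gPoly_natDegree
  rw [h1] at h2
  simp at h2

theorem mem_A_iff (x : Gam) : x * x = 1 ↔ x.i = 0 ∧ x.j = 0 := by
  constructor
  · intro h
    have h1 := congrArg Gam.i h
    have h2 := congrArg Gam.j h
    simp only [Gam.mul_i, Gam.mul_j, Gam.one_i, Gam.one_j] at h1 h2
    constructor <;> omega
  · rintro ⟨h1, h2⟩
    ext
    · rw [Gam.mul_v, h1, h2, site_zero, one_mul, char_two]; rfl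
    · simp [h1]
    · simp [h2]

/-- Multiplication by `g`. -/
noncomputable def gHom : Gam →* Gam where
  toFun x := ⟨gg * x.v, x.i, x.j, gg_mul_mem x.hv⟩
  map_one' := by ext <;> simp
  map_mul' x y := by
    ext
    · simp only [Gam.mul_v]; ring
    · simp
    · simp

@[simp] theorem gHom_v (x : Gam) : (gHom x).v = gg * x.v := rfl
@[simp] theorem gHom_i (x : Gam) : (gHom x).i = x.i := rfl
@[simp] theorem gHom_j (x : Gam) : (gHom x).j = x.j := rfl

theorem gHom_injective : Function.Injective gHom := by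
  intro x y h
  have h1 := congrArg Gam.v h
  have h2 := congrArg Gam.i h
  have h3 := congrArg Gam.j h
  ext
  · exact mul_left_cancel₀ gg_ne_zero (by simpa using h1)
  · simpa using h2
  · simpa using h3

theorem gHom_range : gHom.range = GamP := by
  ext x
  constructor
  · rintro ⟨y, rfl⟩
    exact ⟨y.v, y.hv, rfl⟩
  · rintro ⟨a, ha, hx⟩
    refine ⟨⟨a, x.i, x.j, ha⟩, ?_⟩
    ext
    · exact hx.symm
    · rfl
    · rfl

theorem gamP_iso : Nonempty (Gam ≃* GamP) :=
  ⟨(MonoidHom.ofInjective gHom_injective).trans (MulEquiv.subgroupCongr gHom_range)⟩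

/-! ### Finite index -/

/-- The four coset representatives of `gA` in `A`. -/
def IsRep (s : K2) : Prop := s = 0 ∨ s = 1 ∨ s = tt ∨ s = 1 + tt

/-- Membership in `gA + {0, 1, t, 1 + t}`. -/
def GoodRep (a : K2) : Prop := ∃ s b : K2, IsRep s ∧ b ∈ AA ∧ a = s + gg * b

theorem one_mem_AA : (1 : K2) ∈ AA := by
  have := site_mem 0 0
  rwa [site_zero] at this

theorem tt_mem_AA : tt ∈ AA := by
  have := site_mem 1 0
  simpa [site] using this

theorem tt_inv_mem_AA : tt⁻¹ ∈ AA := by
  have := site_mem (-1) 0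
  simpa [site] using this

theorem uu_inv_mem_AA : uu⁻¹ ∈ AA := by
  have := site_mem 0 (-1)
  simpa [site] using this

theorem K2_two : (2 : K2) = 0 := CharTwo.two_eq_zero

theorem isRep_add {s s' : K2} (h : IsRep s) (h' : IsRep s') : IsRep (s + s') := by
  have h2 := K2_two
  rcases h with rfl | rfl | rfl | rfl <;> rcases h' with rfl | rfl | rfl | rfl <;>
    unfold IsRep
  · left; ring
  · right; left; ring
  · right; right; left; ring
  · right; right; right; ring
  · right; left; ring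
  · left; linear_combination h2
  · right; right; right; ring
  · right; right; left; linear_combination h2
  · right; right; left; ring
  · right; right; right; ring
  · left; linear_combination tt * h2
  · right; left; linear_combination tt * h2
  · right; right; right; ring
  · right; right; left; linear_combination h2
  · right; left; linear_combination tt * h2
  · left; linear_combination (1 + tt) * h2

theorem goodRep_add {a b : K2} (ha : GoodRep a) (hb : GoodRep b) : GoodRep (a + b) := by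
  obtain ⟨s, c, hs, hc, rfl⟩ := ha
  obtain ⟨s', c', hs', hc', rfl⟩ := hb
  exact ⟨s + s', c + c', isRep_add hs hs', AA.add_mem hc hc', by ring⟩

theorem goodRep_of_isRep {s : K2} (hs : IsRep s) : GoodRep s :=
  ⟨s, 0, hs, AA.zero_mem, by ring⟩

theorem goodRep_gg_mul {b : K2} (hb : b ∈ AA) : GoodRep (gg * b) :=
  ⟨0, b, Or.inl rfl, hb, by ring⟩

theorem isRep_one : IsRep 1 := Or.inr (Or.inl rfl)
theorem isRep_tt : IsRep tt := Or.inr (Or.inr (Or.inl rfl))
theorem isRep_uu : IsRep (1 + tt) := Or.inr (Or.inr (Or.inr rfl))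
theorem isRep_zero : IsRep 0 := Or.inl rfl

/-- A unit times a coset representative is good as soon as the unit times `1` and `t` are. -/
theorem goodRep_unit_mul {w : K2} (hw : ∀ a ∈ AA, w * a ∈ AA) (h1 : GoodRep (w * 1))
    (ht : GoodRep (w * tt)) {a : K2} (ha : GoodRep a) : GoodRep (w * a) := by
  obtain ⟨s, b, hs, hb, rfl⟩ := ha
  have h : w * (s + gg * b) = w * s + gg * (w * b) := by ring
  rw [h]
  refine goodRep_add ?_ (goodRep_gg_mul (hw b hb))
  rcases hs with rfl | rfl | rfl | rfl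
  · rw [mul_zero]; exact goodRep_of_isRep isRep_zero
  · exact h1
  · exact ht
  · rw [mul_add]; exact goodRep_add h1 ht

theorem goodRep_tt_mul {a : K2} (ha : GoodRep a) : GoodRep (tt * a) := by
  refine goodRep_unit_mul ?_ ?_ ?_ ha
  · intro b hb
    have := site_mul_mem 1 0 hb
    simpa [site] using this
  · rw [mul_one]; exact goodRep_of_isRep isRep_tt
  · exact ⟨1 + tt, 1, isRep_uu, one_mem_AA, by
      unfold gg; linear_combination (-1 - tt) * K2_two⟩

theorem goodRep_uu_mul {a : K2} (ha : GoodRep a) : GoodRep (uu * a) := by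
  have h : uu * a = a + tt * a := by
    have : uu = 1 + tt := rfl
    rw [this]; ring
  rw [h]
  exact goodRep_add ha (goodRep_tt_mul ha)

theorem goodRep_tt_inv_mul {a : K2} (ha : GoodRep a) : GoodRep (tt⁻¹ * a) := by
  have htt := tt_ne_zero
  refine goodRep_unit_mul ?_ ?_ ?_ ha
  · intro b hb
    have := site_mul_mem (-1) 0 hb
    simpa [site] using this
  · refine ⟨1 + tt, tt⁻¹, isRep_uu, tt_inv_mem_AA, ?_⟩
    unfold gg
    field_simp
    linear_combination (- tt - tt ^ 2) * K2_two
  · rw [inv_mul_cancel₀ htt]; exact goodRep_of_isRep isRep_one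

theorem goodRep_uu_inv_mul {a : K2} (ha : GoodRep a) : GoodRep (uu⁻¹ * a) := by
  have huu := uu_ne_zero
  have h1 : GoodRep (uu⁻¹ * 1) := by
    refine ⟨tt, uu⁻¹, isRep_tt, uu_inv_mem_AA, ?_⟩
    field_simp
    have : uu = 1 + tt := rfl
    rw [this]
    unfold gg
    linear_combination (- tt - tt ^ 2) * K2_two
  refine goodRep_unit_mul ?_ h1 ?_ ha
  · intro b hb
    have := site_mul_mem 0 (-1) hb
    simpa [site] using this
  · have h : uu⁻¹ * tt = uu⁻¹ * 1 + 1 := by
      field_simp
      have : uu = 1 + tt := rfl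
      rw [this]
      linear_combination (-1) * K2_two
    rw [h]
    exact goodRep_add h1 (goodRep_of_isRep isRep_one)

theorem goodRep_tt_zpow (i : ℤ) {a : K2} (ha : GoodRep a) : GoodRep (tt ^ i * a) := by
  induction i using Int.induction_on with
  | zero => simpa using ha
  | succ n ih =>
    have h : tt ^ ((n : ℤ) + 1) * a = tt * (tt ^ (n : ℤ) * a) := by
      rw [zpow_add₀ tt_ne_zero, zpow_one]; ring
    rw [h]
    exact goodRep_tt_mul ih
  | pred n ih =>
    have h : tt ^ (-(n : ℤ) - 1) * a = tt⁻¹ * (tt ^ (-(n : ℤ)) * a) := by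
      rw [zpow_sub₀ tt_ne_zero, zpow_one]; ring
    rw [h]
    exact goodRep_tt_inv_mul ih

theorem goodRep_uu_zpow (i : ℤ) {a : K2} (ha : GoodRep a) : GoodRep (uu ^ i * a) := by
  induction i using Int.induction_on with
  | zero => simpa using ha
  | succ n ih =>
    have h : uu ^ ((n : ℤ) + 1) * a = uu * (uu ^ (n : ℤ) * a) := by
      rw [zpow_add₀ uu_ne_zero, zpow_one]; ring
    rw [h]
    exact goodRep_uu_mul ih
  | pred n ih =>
    have h : uu ^ (-(n : ℤ) - 1) * a = uu⁻¹ * (uu ^ (-(n : ℤ)) * a) := by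
      rw [zpow_sub₀ uu_ne_zero, zpow_one]; ring
    rw [h]
    exact goodRep_uu_inv_mul ih

theorem goodRep_site (i j : ℤ) : GoodRep (site i j) := by
  have h : site i j = tt ^ i * (uu ^ j * 1) := by rw [mul_one]; rfl
  rw [h]
  exact goodRep_tt_zpow i (goodRep_uu_zpow j (goodRep_of_isRep isRep_one))

theorem goodRep_of_mem {a : K2} (ha : a ∈ AA) : GoodRep a := by
  unfold AA at ha
  induction ha using AddSubgroup.closure_induction with
  | mem x hx =>
    obtain ⟨i, j, rfl⟩ := hx
    exact goodRep_site i j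
  | zero => exact goodRep_of_isRep isRep_zero
  | add x y _ _ hx hy => exact goodRep_add hx hy
  | neg x _ hx =>
    have h : -x = x := by linear_combination (-x) * K2_two
    rw [h]; exact hx

theorem isRep_mem {s : K2} (hs : IsRep s) : s ∈ AA := by
  rcases hs with rfl | rfl | rfl | rfl
  · exact AA.zero_mem
  · exact one_mem_AA
  · exact tt_mem_AA
  · exact AA.add_mem one_mem_AA tt_mem_AA

theorem isRep_finite : Set.Finite {s : K2 | IsRep s} := by
  have h : {s : K2 | IsRep s} ⊆ ({0, 1, tt, 1 + tt} : Set K2) := by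
    rintro s (rfl | rfl | rfl | rfl) <;> simp
  exact Set.Finite.subset (by simp) h

theorem gamP_index_ne_zero : GamP.index ≠ 0 := by
  have : Finite {s : K2 | IsRep s} := isRep_finite.to_subtype
  have : Finite (Gam ⧸ GamP) := by
    refine Finite.of_surjective
      (fun s : {s : K2 | IsRep s} => (QuotientGroup.mk (Gam.ofA s.1 (isRep_mem s.2)) : Gam ⧸ GamP)) ?_
    intro q
    obtain ⟨x, rfl⟩ := QuotientGroup.mk_surjective q
    obtain ⟨s, b, hs, hb, hx⟩ := goodRep_of_mem x.hv
    refine ⟨⟨s, hs⟩, ?_⟩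
    rw [QuotientGroup.eq]
    refine ⟨b, hb, ?_⟩
    simp only [Gam.mul_v, Gam.inv_v, Gam.inv_i, Gam.inv_j, Gam.ofA_v, Gam.ofA_i, Gam.ofA_j,
      neg_zero, site_zero, one_mul, hx]
    ring
  rw [Subgroup.index]
  exact Nat.card_ne_zero.2 ⟨inferInstance, inferInstance⟩

/-! ### Index not one -/

/-- Elements of `A` have denominators `t^m u^m'`. -/
theorem exists_denom {a : K2} (ha : a ∈ AA) : ∃ (m m' : ℕ) (P : (ZMod 2)[X]),
    tt ^ m * uu ^ m' * a = algebraMap (ZMod 2)[X] K2 P := by
  have hX : algebraMap (ZMod 2)[X] K2 X = tt := by simp [tt, RatFunc.algebraMap_X]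
  have hU : algebraMap (ZMod 2)[X] K2 (1 + X) = uu := by
    simp [uu, RatFunc.algebraMap_X]
  unfold AA at ha
  induction ha using AddSubgroup.closure_induction with
  | mem x hx =>
    obtain ⟨i, j, rfl⟩ := hx
    refine ⟨i.natAbs, j.natAbs, X ^ (i.natAbs + i).toNat * (1 + X) ^ (j.natAbs + j).toNat, ?_⟩
    rw [map_mul, map_pow, map_pow, hX, hU]
    unfold site
    rw [← zpow_natCast, ← zpow_natCast, ← zpow_natCast, ← zpow_natCast]
    rw [Int.toNat_of_nonneg (by omega), Int.toNat_of_nonneg (by omega)]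
    rw [zpow_add₀ tt_ne_zero, zpow_add₀ uu_ne_zero]
    ring
  | zero => exact ⟨0, 0, 0, by simp⟩
  | add x y _ _ hx hy =>
    obtain ⟨m, m', P, hP⟩ := hx
    obtain ⟨n, n', Q, hQ⟩ := hy
    refine ⟨m + n, m' + n', X ^ n * (1 + X) ^ n' * P + X ^ m * (1 + X) ^ m' * Q, ?_⟩
    rw [map_add, map_mul, map_mul, map_mul, map_mul, map_pow, map_pow, map_pow, map_pow, hX, hU,
      ← hP, ← hQ]
    ring
  | neg x _ hx =>
    obtain ⟨m, m', P, hP⟩ := hx
    refine ⟨m, m', -P, ?_⟩
    rw [map_neg, ← hP]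
    ring

theorem one_not_mem_gA {a : K2} (ha : a ∈ AA) : (1 : K2) ≠ gg * a := by
  intro h
  have hX : algebraMap (ZMod 2)[X] K2 X = tt := by simp [tt, RatFunc.algebraMap_X]
  have hU : algebraMap (ZMod 2)[X] K2 (1 + X) = uu := by
    simp [uu, RatFunc.algebraMap_X]
  obtain ⟨m, m', P, hP⟩ := exists_denom ha
  have h1 : algebraMap (ZMod 2)[X] K2 (X ^ m * (1 + X) ^ m')
      = algebraMap (ZMod 2)[X] K2 (gPoly * P) := by
    rw [map_mul, map_mul, map_pow, map_pow, hX, hU, ← gg_eq, ← hP]
    calc tt ^ m * uu ^ m' = tt ^ m * uu ^ m' * 1 := by rw [mul_one]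
      _ = tt ^ m * uu ^ m' * (gg * a) := by rw [← h]
      _ = gg * (tt ^ m * uu ^ m' * a) := by ring
  have h2 : X ^ m * (1 + X) ^ m' = gPoly * P := RatFunc.algebraMap_injective (ZMod 2) h1
  have hc1 : IsCoprime gPoly X := ⟨1, -(1 + X), by unfold gPoly; ring⟩
  have hc2 : IsCoprime gPoly (1 + X) := ⟨1, -X, by unfold gPoly; ring⟩
  have hc : IsCoprime gPoly (X ^ m * (1 + X) ^ m') :=
    IsCoprime.mul_right hc1.pow_right hc2.pow_right
  have hu : IsUnit gPoly := hc.isUnit_of_dvd' dvd_rfl ⟨P, h2⟩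
  have := Polynomial.natDegree_eq_zero_of_isUnit hu
  rw [gPoly_natDegree] at this
  exact two_ne_zero this

theorem gamP_ne_top : GamP ≠ ⊤ := by
  intro h
  have h1 : Gam.ofA 1 one_mem_AA ∈ GamP := by rw [h]; exact Subgroup.mem_top _
  obtain ⟨a, ha, hx⟩ := h1
  exact one_not_mem_gA ha hx

theorem gamP_index : 1 < GamP.index := by
  have h0 := gamP_index_ne_zero
  have h1 : GamP.index ≠ 1 := fun h => gamP_ne_top (Subgroup.index_eq_one.1 h)
  omega

end Pool.Agent.SelfCover
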