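import Pool.Agent.SelfCover.Boxes
import Pool.Agent.SelfCover.SelfMapTop
import Pool.Agent.SelfCover.Contra
import Pool.Agent.SelfCover.Fp
import Pool.Agent.SelfCover.Sub

set_option autoImplicit false
open scoped Manifold ContDiff

namespace Pool.Agent.SelfCover

theorem no_manifold (n : ℕ) (M : Type) [MetricSpace M]
    [ChartedSpace (EuclideanSpace ℝ (Fin n)) M] [CompactSpace M] [PathConnectedSpace M]
    (f : C(M, M)) (hf : IsCoveringMap ⇑f) (x : M)
    (e : FundamentalGroup M (f x) ≃* Gam)
    (he : (FundamentalGroup.map f x).range.map e.toMonoidHom = GamP) : False := by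
  let _ := pcAction e
  obtain ⟨α, F, hinj, hr, hF, hu, hu'⟩ := exists_selfMap f hf x e
  have : Nonempty (PC M (f x)) := ⟨⟨f x, Path.Homotopic.Quotient.refl _⟩⟩
  exact contra (geoOf (EuclideanSpace ℝ (Fin n)) e) α hinj (hr.trans he)
    { F := F
      equivariant := hF
      unif := hu
      unif' := hu' }

theorem main :
    ¬ (∀ (Γ : Type) (_ : Group Γ),
      (∃ (k : ℕ) (φ : FreeGroup (Fin k) →* Γ) (R : Finset (FreeGroup (Fin k))),
        Function.Surjective φ ∧
          φ.ker = Subgroup.normalClosure (↑R : Set (FreeGroup (Fin k)))) →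
      ∀ (Γ' : Subgroup Γ), Nonempty (Γ ≃* Γ') → 1 < Γ'.index →
        ∃ (n : ℕ) (M : Type) (_ : TopologicalSpace M)
          (_ : ChartedSpace (EuclideanSpace ℝ (Fin n)) M)
          (_ : IsManifold (𝓡 n) ∞ M),
          CompactSpace M ∧ ConnectedSpace M ∧ T2Space M ∧
          ∃ f : C(M, M), IsCoveringMap ⇑f ∧
            IsLocalDiffeomorph (𝓡 n) (𝓡 n) ∞ ⇑f ∧
            ∃ x : M, ∃ e : FundamentalGroup M (f x) ≃* Γ,
              (FundamentalGroup.map f x).range.map e.toMonoidHom = Γ') := by
  intro h
  obtain ⟨n, M, hTop, hCh, -, hComp, hConn, hT2, f, hf, -, x, e, he⟩ :=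
    h Gam inferInstance gam_fp GamP gamP_iso gamP_index
  have hsc : SecondCountableTopology M :=
    ChartedSpace.secondCountable_of_sigmaCompact (EuclideanSpace ℝ (Fin n)) M
  have hmet : TopologicalSpace.MetrizableSpace M :=
    TopologicalSpace.metrizableSpace_of_t3_secondCountable M
  have hlpc : LocallyPathConnectedSpace M :=
    ChartedSpace.locallyPathConnectedSpace (EuclideanSpace ℝ (Fin n)) M
  have hpc : PathConnectedSpace M := pathConnectedSpace_iff_connectedSpace.2 hConn
  let _ : MetricSpace M := TopologicalSpace.metrizableSpaceMetric M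
  exact no_manifold n M f hf x e he

end Pool.Agent.SelfCover
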