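import Pool.Agent.SelfCover.Compare

set_option autoImplicit false

/-!
# Averages over characters of `A / I`
-/

namespace Pool.Agent.SelfCover

open Finsupp

/-- the sign -/
def sg (x : ZMod 2) : ℚ := if x = 0 then 1 else -1

@[simp] theorem sg_zero : sg 0 = 1 := rfl

theorem sg_one : sg 1 = -1 := by simp [sg]

theorem zmod2_cases (x : ZMod 2) : x = 0 ∨ x = 1 := by
  revert x; decide

theorem sg_add (x y : ZMod 2) : sg (x + y) = sg x * sg y := by
  rcases zmod2_cases x with rfl | rfl <;> rcases zmod2_cases y with rfl | rfl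
  · simp
  · simp
  · simp
  · have : (1 + 1 : ZMod 2) = 0 := by decide
    rw [this, sg_one]; norm_num

theorem sg_mul_self (x : ZMod 2) : sg x * sg x = 1 := by
  rw [← sg_add, CharTwo.add_self_eq_zero, sg_zero]

/-- embedding of `A` -/
noncomputable def oA (a : AA) : Gam := Gam.ofA a.1 a.2

theorem oA_add (a b : AA) : oA (a + b) = oA a * oA b := by
  ext <;> simp [oA, site_zero]

theorem oA_zero : oA 0 = 1 := by
  ext <;> simp [oA]

theorem oA_neg (a : AA) : oA (-a) = (oA a)⁻¹ := by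
  ext <;> simp [oA, site_zero]

/-- the intersection with `A` -/
noncomputable def IA (L : Subgroup Gam) : AddSubgroup AA where
  carrier := {a | oA a ∈ L}
  zero_mem' := by
    change oA 0 ∈ L
    rw [oA_zero]; exact L.one_mem
  add_mem' := by
    intro a b ha hb
    change oA (a + b) ∈ L
    rw [oA_add]; exact L.mul_mem ha hb
  neg_mem' := by
    intro a ha
    change oA (-a) ∈ L
    rw [oA_neg]; exact L.inv_mem ha

theorem mem_IA {L : Subgroup Gam} {a : AA} : a ∈ IA L ↔ oA a ∈ L := Iff.rfl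

theorem finite_quot {L : Subgroup Gam} (hL : L.index ≠ 0) : Finite (AA ⧸ IA L) := by
  have : Finite (Gam ⧸ L) := Nat.finite_of_card_ne_zero (by rwa [← Subgroup.index_eq_card])
  let f : AA ⧸ IA L → Gam ⧸ L := fun q => QuotientGroup.mk (oA q.out)
  refine Finite.of_injective f fun q q' h => ?_
  have h1 : (oA q.out)⁻¹ * oA q'.out ∈ L := QuotientGroup.eq.1 h
  rw [← oA_neg, ← oA_add] at h1
  have h2 : -q.out + q'.out ∈ IA L := h1
  have h3 : (QuotientAddGroup.mk q.out : AA ⧸ IA L) = QuotientAddGroup.mk q'.out :=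
    QuotientAddGroup.eq.2 h2
  rwa [QuotientAddGroup.out_eq', QuotientAddGroup.out_eq'] at h3

section avg

variable {E : Type*} [MulAction Gam E] (L : Subgroup Gam) [Fintype (AA ⧸ IA L)]

theorem reindex (u : AA → ℚ) (hu : ∀ a, ∀ b ∈ IA L, u (a + b) = u a) (τ : AA ⧸ IA L → AA)
    (hτ : ∀ q q', - τ q + τ q' ∈ IA L → q = q') : ∑ q, u (τ q) = ∑ q : AA ⧸ IA L, u q.out := by
  have hinj : Function.Injective (fun q : AA ⧸ IA L => (QuotientAddGroup.mk (τ q) : AA ⧸ IA L)) :=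
    fun q q' h => hτ q q' (QuotientAddGroup.eq.1 h)
  have hbij := Finite.injective_iff_bijective.1 hinj
  have key : ∀ q, u (τ q) = u ((QuotientAddGroup.mk (τ q) : AA ⧸ IA L).out) := by
    intro q
    have h1 : -τ q + (QuotientAddGroup.mk (τ q) : AA ⧸ IA L).out ∈ IA L :=
      QuotientAddGroup.eq.1 (QuotientAddGroup.out_eq' _).symm
    have := hu (τ q) _ h1
    rw [← this]
    congr 1
    abel
  rw [Finset.sum_congr rfl fun q _ => key q]
  exact Function.Bijective.sum_comp hbij (fun q : AA ⧸ IA L => u q.out)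

/-- average against a character -/
noncomputable def avg (X : AA →+ ZMod 2) (ψ : E → ℚ) (y : E) : ℚ :=
  (Fintype.card (AA ⧸ IA L) : ℚ)⁻¹ * ∑ q : AA ⧸ IA L, sg (X q.out) * ψ (oA q.out • y)

variable {L}

theorem card_ne_zero' : (Fintype.card (AA ⧸ IA L) : ℚ) ≠ 0 := by
  have : 0 < Fintype.card (AA ⧸ IA L) := Fintype.card_pos_iff.2 ⟨(0 : AA ⧸ IA L)⟩
  positivity

theorem avg_oA {X : AA →+ ZMod 2} (hX : ∀ a ∈ IA L, X a = 0) {ψ : E → ℚ}
    (hψ : ∀ a ∈ IA L, ∀ y, ψ (oA a • y) = ψ y) (a : AA) (y : E) :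
    avg L X ψ (oA a • y) = sg (X a) * avg L X ψ y := by
  unfold avg
  have h1 : ∀ q : AA ⧸ IA L, sg (X q.out) * ψ (oA q.out • oA a • y) =
      sg (X a) * ((fun b => sg (X b) * ψ (oA b • y)) (q.out + a)) := by
    intro q
    simp only [map_add, sg_add, oA_add, mul_smul]
    calc sg (X q.out) * ψ (oA q.out • oA a • y)
        = (sg (X a) * sg (X a)) * (sg (X q.out) * ψ (oA q.out • oA a • y)) := by
          rw [sg_mul_self, one_mul]
      _ = _ := by ring
  rw [Finset.sum_congr rfl fun q _ => h1 q, ← Finset.mul_sum,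
    reindex L (fun b => sg (X b) * ψ (oA b • y)) ?_ (fun q => q.out + a) ?_]
  · ring
  · intro b c hc
    simp only [map_add, hX c hc, add_zero]
    rw [add_comm b c, oA_add, mul_smul, hψ c hc]
  · intro q q' h
    have h2 : -q.out + q'.out ∈ IA L := by
      have : -(q.out + a) + (q'.out + a) = -q.out + q'.out := by abel
      rwa [this] at h
    have h3 : (QuotientAddGroup.mk q.out : AA ⧸ IA L) = QuotientAddGroup.mk q'.out :=
      QuotientAddGroup.eq.2 h2
    rwa [QuotientAddGroup.out_eq', QuotientAddGroup.out_eq'] at h3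

/-- multiplication of `A` by a monomial -/
noncomputable def sm (i j : ℤ) (a : AA) : AA := ⟨site i j * a.1, site_mul_mem i j a.2⟩

theorem conj_oA (l : Gam) (a : AA) : l * oA a = oA (sm l.i l.j a) * l := by
  ext
  · simp [oA, sm, site_zero]; ring
  · simp [oA, sm]
  · simp [oA, sm]

theorem oA_mul_eq (l : Gam) (a : AA) : oA a * l = l * oA (sm (-l.i) (-l.j) a) := by
  rw [conj_oA]
  congr 2
  ext
  simp only [sm]
  rw [← mul_assoc, site_mul]
  simp [site_zero]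

omit [Fintype (AA ⧸ IA L)] in
theorem sm_mem_IA {l : Gam} (hl : l ∈ L) {a : AA} (ha : a ∈ IA L) : sm l.i l.j a ∈ IA L := by
  rw [mem_IA] at ha ⊢
  have : oA (sm l.i l.j a) = l * oA a * l⁻¹ := by
    rw [conj_oA, mul_inv_cancel_right]
  rw [this]
  exact L.mul_mem (L.mul_mem hl ha) (L.inv_mem hl)

theorem sm_add (i j : ℤ) (a b : AA) : sm i j (a + b) = sm i j a + sm i j b := by
  ext
  simp only [sm, AddSubgroup.coe_add]
  ring

theorem sm_neg (i j : ℤ) (a : AA) : sm i j (-a) = - sm i j a := by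
  ext
  simp only [sm, AddSubgroup.coe_neg]
  ring

theorem sm_sm (i j i' j' : ℤ) (a : AA) : sm i j (sm i' j' a) = sm (i + i') (j + j') a := by
  ext
  simp only [sm]
  rw [← mul_assoc, site_mul]

theorem sm_zero (a : AA) : sm 0 0 a = a := by
  ext
  simp [sm, site_zero]

theorem avg_inv {ψ : E → ℚ} (hψ : ∀ g ∈ L, ∀ y, ψ (g • y) = ψ y) {g : Gam} (hg : g ∈ L) (y : E) :
    avg L 0 ψ (g • y) = avg L 0 ψ y := by
  unfold avg
  congr 1
  have h1 : ∀ q : AA ⧸ IA L, sg ((0 : AA →+ ZMod 2) q.out) * ψ (oA q.out • g • y) =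
      (fun b => sg ((0 : AA →+ ZMod 2) b) * ψ (oA b • y)) (sm (-g.i) (-g.j) q.out) := by
    intro q
    simp only [AddMonoidHom.zero_apply]
    rw [← mul_smul, oA_mul_eq, mul_smul, hψ g hg]
  rw [Finset.sum_congr rfl fun q _ => h1 q]
  refine reindex L (fun b => sg ((0 : AA →+ ZMod 2) b) * ψ (oA b • y)) ?_
    (fun q => sm (-g.i) (-g.j) q.out) ?_
  · intro b c hc
    simp only [AddMonoidHom.zero_apply]
    rw [add_comm b c, oA_add, mul_smul, hψ _ hc]
  · intro q q' h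
    have h2 : sm g.i g.j (-sm (-g.i) (-g.j) q.out + sm (-g.i) (-g.j) q'.out) ∈ IA L :=
      sm_mem_IA hg h
    rw [sm_add, sm_neg, sm_sm, sm_sm, add_neg_cancel, add_neg_cancel, sm_zero, sm_zero] at h2
    have h3 : (QuotientAddGroup.mk q.out : AA ⧸ IA L) = QuotientAddGroup.mk q'.out :=
      QuotientAddGroup.eq.2 h2
    rwa [QuotientAddGroup.out_eq', QuotientAddGroup.out_eq'] at h3

omit [Fintype (AA ⧸ IA L)] in
theorem inv_top (hL : ∀ i j : ℤ, ∃ x ∈ L, x.i = i ∧ x.j = j) {ψ : E → ℚ}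
    (h1 : ∀ g ∈ L, ∀ y, ψ (g • y) = ψ y) (h2 : ∀ (a : AA) y, ψ (oA a • y) = ψ y) (g : Gam)
    (y : E) : ψ (g • y) = ψ y := by
  obtain ⟨l, hl, hi, hj⟩ := hL g.i g.j
  have : g = oA ⟨(g * l⁻¹).v, (g * l⁻¹).hv⟩ * l := by
    have h3 : oA ⟨(g * l⁻¹).v, (g * l⁻¹).hv⟩ = g * l⁻¹ := by
      ext
      · simp [oA]
      · simp [oA, hi]
      · simp [oA, hj]
    rw [h3, inv_mul_cancel_right]
  rw [this, mul_smul, h2, h1 l hl]

theorem avg_top (hL : ∀ i j : ℤ, ∃ x ∈ L, x.i = i ∧ x.j = j) {ψ : E → ℚ}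
    (hψ : ∀ g ∈ L, ∀ y, ψ (g • y) = ψ y) (g : Gam) (y : E) :
    avg L 0 ψ (g • y) = avg L 0 ψ y := by
  refine inv_top hL (fun g hg y => avg_inv hψ hg y) (fun a y => ?_) g y
  rw [avg_oA (fun a _ => rfl) (fun a ha y => hψ _ ha y)]
  simp

theorem avg_of_inv {ψ : E → ℚ} (hψ : ∀ (g : Gam) y, ψ (g • y) = ψ y) (y : E) :
    avg L 0 ψ y = ψ y := by
  unfold avg
  simp only [AddMonoidHom.zero_apply, sg_zero, one_mul, hψ]
  rw [Finset.sum_const, Finset.card_univ, nsmul_eq_mul, ← mul_assoc,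
    inv_mul_cancel₀ card_ne_zero', one_mul]

theorem avg_sub (X : AA →+ ZMod 2) (ψ ψ' : E → ℚ) (y : E) :
    avg L X (fun z => ψ z - ψ' z) y = avg L X ψ y - avg L X ψ' y := by
  unfold avg
  rw [← mul_sub, ← Finset.sum_sub_distrib]
  congr 1
  apply Finset.sum_congr rfl
  intro q _
  ring

theorem avg_add (X : AA →+ ZMod 2) (ψ ψ' : E → ℚ) (y : E) :
    avg L X (fun z => ψ z + ψ' z) y = avg L X ψ y + avg L X ψ' y := by
  unfold avg
  rw [← mul_add, ← Finset.sum_add_distrib]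
  congr 1
  apply Finset.sum_congr rfl
  intro q _
  ring

theorem avg_sum {ι : Type*} (s : Finset ι) (X : AA →+ ZMod 2) (ψ : ι → E → ℚ) (y : E) :
    avg L X (fun z => ∑ i ∈ s, ψ i z) y = ∑ i ∈ s, avg L X (ψ i) y := by
  unfold avg
  rw [← Finset.mul_sum, Finset.sum_comm]
  congr 1
  apply Finset.sum_congr rfl
  intro q _
  rw [Finset.mul_sum]

theorem avg_congr (X : AA →+ ZMod 2) {ψ ψ' : E → ℚ} {y : E}
    (h : ∀ a : AA, ψ (oA a • y) = ψ' (oA a • y)) : avg L X ψ y = avg L X ψ' y := by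
  unfold avg
  congr 1
  apply Finset.sum_congr rfl
  intro q _
  rw [h]

theorem sum_sg {X : AA →+ ZMod 2} (hX : ∀ a ∈ IA L, X a = 0) (hX0 : X ≠ 0) :
    ∑ q : AA ⧸ IA L, sg (X q.out) = 0 := by
  obtain ⟨a, ha⟩ : ∃ a, X a ≠ 0 := by
    by_contra h
    push Not at h
    exact hX0 (AddMonoidHom.ext h)
  have ha1 : X a = 1 := (zmod2_cases _).resolve_left ha
  have h1 : ∑ q : AA ⧸ IA L, (fun b => sg (X b)) (q.out + a) =
      ∑ q : AA ⧸ IA L, (fun b => sg (X b)) q.out := by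
    refine reindex L (fun b => sg (X b)) ?_ (fun q => q.out + a) ?_
    · intro b c hc
      simp only [map_add, hX c hc, add_zero]
    · intro q q' h
      have h2 : -q.out + q'.out ∈ IA L := by
        have : -(q.out + a) + (q'.out + a) = -q.out + q'.out := by abel
        rwa [this] at h
      have h3 : (QuotientAddGroup.mk q.out : AA ⧸ IA L) = QuotientAddGroup.mk q'.out :=
        QuotientAddGroup.eq.2 h2
      rwa [QuotientAddGroup.out_eq', QuotientAddGroup.out_eq'] at h3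
  simp only [map_add, ha1, sg_add, sg_one, mul_neg, mul_one, Finset.sum_neg_distrib] at h1
  linarith

open Classical in
theorem avg_eigen {X X' : AA →+ ZMod 2} (hX : ∀ a ∈ IA L, X a = 0) (hX' : ∀ a ∈ IA L, X' a = 0)
    {ψ : E → ℚ} {y : E} (hψ : ∀ a : AA, ψ (oA a • y) = sg (X' a) * ψ y) :
    avg L X ψ y = if X = X' then ψ y else 0 := by
  unfold avg
  have h1 : ∀ q : AA ⧸ IA L, sg (X q.out) * ψ (oA q.out • y) =
      sg ((X + X') q.out) * ψ y := by
    intro q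
    rw [hψ, AddMonoidHom.add_apply, sg_add]
    ring
  rw [Finset.sum_congr rfl fun q _ => h1 q, ← Finset.sum_mul]
  split_ifs with h
  · have h2 : ∀ q : AA ⧸ IA L, sg ((X + X') q.out) = 1 := by
      intro q
      rw [h, AddMonoidHom.add_apply, CharTwo.add_self_eq_zero, sg_zero]
    rw [Finset.sum_congr rfl fun q _ => h2 q, Finset.sum_const, Finset.card_univ, nsmul_eq_mul,
      mul_one, ← mul_assoc, inv_mul_cancel₀ card_ne_zero', one_mul]
  · rw [sum_sg (fun a ha => by rw [AddMonoidHom.add_apply, hX a ha, hX' a ha, add_zero]) ?_]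
    · simp
    · intro h0
      apply h
      ext a
      have h3 : X a + X' a = 0 := by rw [← AddMonoidHom.add_apply, h0]; rfl
      have h4 : X' a + X' a = 0 := CharTwo.add_self_eq_zero _
      exact add_right_cancel (h3.trans h4.symm)

end avg

section vt

variable {E : Type*} [MulAction Gam E] {S : Geo Gam E} {L : Subgroup Gam}
  [Fintype (AA ⧸ IA L)]

theorem avg_cob (X : AA →+ ZMod 2) {φ : E × E × E → ℚ} {β : E × E → ℚ} {η : ℝ}
    (h : ∀ y ∈ q2 (S.near η), φ y = Geo.cob β y) :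
    ∀ y ∈ q2 (S.near η), avg L X φ y = Geo.cob (avg L X β) y := by
  rintro ⟨a, b, c⟩ ⟨h1, h2, h3⟩
  rw [Geo.cob_apply]
  unfold avg
  rw [← mul_sub, ← mul_add, ← Finset.sum_sub_distrib, ← Finset.sum_add_distrib]
  congr 1
  apply Finset.sum_congr rfl
  intro q _
  have := h (oA q.out • a, oA q.out • b, oA q.out • c)
    ⟨S.inv _ h1, S.inv _ h2, S.inv _ h3⟩
  rw [Geo.cob_apply] at this
  simp only [Prod.smul_mk]
  rw [this]
  ring

theorem transfer (hL : ∀ i j : ℤ, ∃ x ∈ L, x.i = i ∧ x.j = j) (φ : E × E × E → ℚ)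
    (h1 : φ ∈ S.Z ⊤) (h2 : φ ∈ S.B L) : φ ∈ S.B ⊤ := by
  obtain ⟨β, hβ, η, hη, hc⟩ := h2
  refine ⟨avg L 0 β, fun g _ y => avg_top hL hβ g y, η, hη, fun y hy => ?_⟩
  rw [← avg_cob 0 hc y hy, avg_of_inv fun g y => h1.1 g trivial y]

/-- The vanishing theorem. -/
theorem vanishing {α : Gam →* Gam} (T : S.SelfMap α) (k : ℕ)
    [Fintype (AA ⧸ IA (Gk α k))] (hL : ∀ i j : ℤ, ∃ x ∈ Gk α k, x.i = i ∧ x.j = j)
    {Φ : E × E × E → ℚ} (hΦ : Φ ∈ S.Z (Gk α k)) (h0 : ∀ y, avg (Gk α k) 0 Φ y = 0)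
    {X : AA →+ ZMod 2} (hX : ∀ a ∈ IA (Gk α k), X a = 0) :
    ∃ β : E × E → ℚ, (∀ (a : AA) y, β (oA a • y) = sg (X a) * β y) ∧ ∃ η : ℝ, 0 < η ∧
      ∀ y ∈ q2 (S.near η), avg (Gk α k) X Φ y = Geo.cob β y := by
  have hcmp := T.compare (Gk α) rfl (fun _ => rfl) k (fun x h1 h2 => transfer hL x h1 h2)
  obtain ⟨φ0, hφ0, φ1, hφ1, hsum⟩ := Submodule.mem_sup.mp (hcmp hΦ)
  obtain ⟨β1, hβ1, η, hη, hc⟩ := hφ1
  -- the modified primitive
  set β2 : E × E → ℚ := fun y => β1 y - avg (Gk α k) 0 β1 y with hβ2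
  have hβ2inv : ∀ g ∈ Gk α k, ∀ y, β2 (g • y) = β2 y := fun g hg y => by
    simp only [hβ2]
    rw [hβ1 g hg, avg_inv hβ1 hg]
  have hΦ2 : ∀ y ∈ q2 (S.near η), Φ y = Geo.cob β2 y := by
    intro y hy
    have e1 : avg (Gk α k) 0 Φ y = φ0 y + avg (Gk α k) 0 φ1 y := by
      rw [← hsum]
      have : (φ0 + φ1 : E × E × E → ℚ) = fun z => φ0 z + φ1 z := rfl
      rw [this, avg_add, avg_of_inv fun g y => hφ0.1 g trivial y]
    rw [h0] at e1
    have e2 := avg_cob (S := S) (L := Gk α k) 0 hc y hy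
    have e3 : Φ y = φ0 y + φ1 y := by rw [← hsum]; rfl
    have e4 := hc y hy
    obtain ⟨a, b, c⟩ := y
    rw [Geo.cob_apply] at e2 e4 ⊢
    simp only [hβ2]
    linarith
  refine ⟨avg (Gk α k) X β2, fun a y => ?_, η, hη, avg_cob X hΦ2⟩
  exact avg_oA hX (fun a ha y => hβ2inv _ ha y) a y

end vt

end Pool.Agent.SelfCover
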