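import Pool.Agent.SelfCover.Convex

set_option autoImplicit false

/-!
# Geometric data and refinement chain maps
-/

namespace Pool.Agent.SelfCover

open Finsupp

/-- The coarse data carried by the universal cover of a compact manifold. -/
structure Geo (G E : Type*) [Group G] [MulAction G E] where
  /-- the relation of being `ε`-near -/
  near : ℝ → E → E → Prop
  refl : ∀ {ε : ℝ}, 0 < ε → ∀ y, near ε y y
  symm : ∀ {ε : ℝ} {y y' : E}, near ε y y' → near ε y' y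
  tri : ∀ {ε ε' : ℝ} {y y' y'' : E}, near ε y y' → near ε' y' y'' → near (ε + ε') y y''
  mono : ∀ {ε ε' : ℝ} {y y' : E}, ε ≤ ε' → near ε y y' → near ε' y y'
  inv : ∀ {ε : ℝ} {y y' : E} (g : G), near ε y y' → near ε (g • y) (g • y')
  net : ∀ {ε : ℝ}, 0 < ε → ∃ N : Finset E, ∀ y, ∃ g : G, ∃ n ∈ N, near ε y (g • n)
  sep : ∃ ε : ℝ, 0 < ε ∧ ∀ (y : E) (g : G), near ε y (g • y) → g = 1
  acyc : ∀ ε : ℝ, 0 < ε → ∃ δ : ℝ, 0 < δ ∧ ∃ D : E → Set E, (∀ c c', near δ c c' → c' ∈ D c) ∧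
    (∀ c, ∀ c' ∈ D c, near ε c c') ∧ ∀ η : ℝ, 0 < η → ∃ η' : ℝ, 0 < η' ∧ ∀ c,
      Acyc (fun y y' => near η' y y' ∧ y ∈ D c ∧ y' ∈ D c)
        (fun y y' => near η y y' ∧ y ∈ D c ∧ y' ∈ D c) (D c)
  conn : ∀ {η : ℝ}, 0 < η → ∀ y y' : E, ∃ c ∈ Sm1 (near η), d1 c = s0 y' - s0 y
  sc : ∀ η : ℝ, 0 < η → ∃ η' : ℝ, 0 < η' ∧ ∀ z ∈ Sm1 (near η'), d1 z = 0 →
    ∃ c ∈ Sm2 (near η), d2 c = z

section choice

variable {G E : Type*} [Group G] [MulAction G E]

/-- the translation of chains -/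
noncomputable abbrev g0 (g : G) : C0 E →ₗ[ℚ] C0 E := p0 (fun y : E => g • y)
/-- the translation of chains -/
noncomputable abbrev g1 (g : G) : C1 E →ₗ[ℚ] C1 E := p1 (fun y : E => g • y)
/-- the translation of chains -/
noncomputable abbrev g2 (g : G) : C2 E →ₗ[ℚ] C2 E := p2 (fun y : E => g • y)
/-- the translation of chains -/
noncomputable abbrev g3 (g : G) : C3 E →ₗ[ℚ] C3 E := p3 (fun y : E => g • y)

/-- Equivariant choice for a free action. -/
theorem equivariant_choice {X Y : Type*} [MulAction G X] (hfree : ∀ (g : G) (x : X), g • x = x → g = 1)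
    (act : G → Y → Y) (hact : ∀ g h y, act (g * h) y = act g (act h y))
    (P : X → Y → Prop) (hP : ∀ g x y, P x y → P (g • x) (act g y)) (hex : ∀ x, ∃ y, P x y) :
    ∃ F : X → Y, (∀ x, P x (F x)) ∧ ∀ g x, F (g • x) = act g (F x) := by
  classical
  choose f hf using hex
  -- orbit representatives
  let rep : X → X := fun x => (Quotient.mk (MulAction.orbitRel G X) x).out
  have hrep : ∀ x, ∃ g : G, g • rep x = x := fun x => by
    have : (MulAction.orbitRel G X).r (rep x) x := Quotient.exact (Quotient.out_eq _)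
    have h2 : rep x ∈ MulAction.orbit G x := this
    obtain ⟨g, hg⟩ := h2
    refine ⟨g⁻¹, ?_⟩
    have hg' : g • x = rep x := hg
    rw [← hg', inv_smul_smul]
  have hrep2 : ∀ (g : G) x, rep (g • x) = rep x := fun g x => by
    change (Quotient.mk (MulAction.orbitRel G X) (g • x)).out = (Quotient.mk (MulAction.orbitRel G X) x).out
    congr 1
    apply Quotient.sound
    exact ⟨g, rfl⟩
  choose γ hγ using hrep
  have hγ2 : ∀ (g : G) x, γ (g • x) = g * γ x := fun g x => by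
    have h1 : γ (g • x) • rep x = (g * γ x) • rep x := by
      rw [mul_smul, hγ x]
      have := hγ (g • x)
      rw [hrep2] at this
      exact this
    have h2 : ((g * γ x)⁻¹ * γ (g • x)) • rep x = rep x := by
      rw [mul_smul, h1, inv_smul_smul]
    have h3 := hfree _ _ h2
    exact (inv_mul_eq_one.mp h3).symm
  refine ⟨fun x => act (γ x) (f (rep x)), fun x => ?_, fun g x => ?_⟩
  · have := hP (γ x) (rep x) _ (hf (rep x))
    rwa [hγ x] at this
  · change act (γ (g • x)) (f (rep (g • x))) = act g (act (γ x) (f (rep x)))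
    rw [hγ2, hrep2, hact]

end choice

namespace Geo

variable {G E : Type*} [Group G] [MulAction G E] (S : Geo G E)

include S in
theorem free (g : G) (y : E) (h : g • y = y) : g = 1 := by
  obtain ⟨ε, hε, hs⟩ := S.sep
  exact hs y g (by rw [h]; exact S.refl hε y)

theorem g1_mul (g h : G) (c : C1 E) : g1 (g * h) c = g1 g (g1 h c) := by
  simp only [g1, p1_p1]
  congr 2
  funext y
  simp [mul_smul]

theorem g2_mul (g h : G) (c : C2 E) : g2 (g * h) c = g2 g (g2 h c) := by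
  simp only [g2, p2_p2]
  congr 2
  funext y
  simp [mul_smul]

theorem g3_mul (g h : G) (c : C3 E) : g3 (g * h) c = g3 g (g3 h c) := by
  simp only [g3, p3_p3]
  congr 2
  funext y
  simp [mul_smul]

theorem inv_iff {ε : ℝ} {y y' : E} (g : G) : S.near ε (g • y) (g • y') ↔ S.near ε y y' := by
  constructor
  · intro h
    have := S.inv g⁻¹ h
    rwa [inv_smul_smul, inv_smul_smul] at this
  · exact S.inv g

/-- small chains all of whose vertices are `ε`-near to `y` -/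
def loc (ε η : ℝ) (y : E) (a b : E) : Prop := S.near η a b ∧ S.near ε y a ∧ S.near ε y b

theorem loc_smul {ε η : ℝ} {y : E} (g : G) {a b : E} (h : S.loc ε η y a b) :
    S.loc ε η (g • y) (g • a) (g • b) :=
  ⟨S.inv g h.1, S.inv g h.2.1, S.inv g h.2.2⟩

/-- A refinement chain map. -/
structure Refine (ε δ η η₁ : ℝ) where
  /-- degree 1 -/
  c1 : E × E → C1 E
  /-- degree 2 -/
  c2 : E × E × E → C2 E
  /-- degree 3 -/
  c3 : E × E × E × E → C3 E
  c1_smul : ∀ (g : G) y, c1 (g • y) = g1 g (c1 y)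
  c2_smul : ∀ (g : G) y, c2 (g • y) = g2 g (c2 y)
  c1_d : ∀ y ∈ q1 (S.near δ), d1 (c1 y) = d1 (single y 1)
  c2_d : ∀ y ∈ q2 (S.near δ), d2 (c2 y) = ext c1 (d2 (single y 1))
  c3_d : ∀ y ∈ q3 (S.near δ), d3 (c3 y) = ext c2 (d3 (single y 1))
  c1_mem : ∀ y, c1 y ∈ Sm1 (S.loc ε η y.1)
  c2_mem : ∀ y, c2 y ∈ Sm2 (S.loc ε η y.1)
  c3_mem : ∀ y, c3 y ∈ Sm3 (S.loc ε η y.1)
  c1_id : ∀ y ∈ q1 (S.near η₁), c1 y = single y 1
  c2_id : ∀ y ∈ q2 (S.near η₁), c2 y = single y 1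

theorem exists_refine {ε : ℝ} (hε : 0 < ε) : ∃ δ : ℝ, 0 < δ ∧ ∀ η : ℝ, 0 < η →
    ∃ η₁ : ℝ, 0 < η₁ ∧ Nonempty (S.Refine ε δ η η₁) := by
  classical
  obtain ⟨δ3, hδ3, D3, h3a, h3b, h3c⟩ := S.acyc ε hε
  set r2 : ℝ := min (δ3 / 2) ε with hr2
  have hr2pos : 0 < r2 := lt_min (by positivity) hε
  have hr2a : r2 ≤ δ3 / 2 := min_le_left _ _
  have hr2b : r2 ≤ ε := min_le_right _ _
  obtain ⟨δ2, hδ2, D2, h2a, h2b, h2c⟩ := S.acyc r2 hr2pos
  set r1 : ℝ := min (δ2 / 2) ε with hr1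
  have hr1pos : 0 < r1 := lt_min (by positivity) hε
  have hr1a : r1 ≤ δ2 / 2 := min_le_left _ _
  have hr1b : r1 ≤ ε := min_le_right _ _
  obtain ⟨δ1, hδ1, D1, h1a, h1b, h1c⟩ := S.acyc r1 hr1pos
  -- monotonicity of scales
  set δ : ℝ := min δ1 (min r1 r2) with hδ
  have hδpos : 0 < δ := lt_min hδ1 (lt_min hr1pos hr2pos)
  have e1 : δ ≤ δ1 := min_le_left _ _
  have e2 : δ ≤ r1 := (min_le_right _ _).trans (min_le_left _ _)
  have e3 : δ ≤ r2 := (min_le_right _ _).trans (min_le_right _ _)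
  refine ⟨δ, hδpos, fun η hη => ?_⟩
  obtain ⟨η3, hη3, h3d⟩ := h3c η hη
  set η3' : ℝ := min η3 η with hη3'
  have hη3'pos : 0 < η3' := lt_min hη3 hη
  obtain ⟨η2, hη2, h2d⟩ := h2c η3' hη3'pos
  set η2' : ℝ := min η2 η3' with hη2'
  have hη2'pos : 0 < η2' := lt_min hη2 hη3'pos
  obtain ⟨η1, hη1, h1d⟩ := h1c η2' hη2'pos
  set η₁ : ℝ := min η2' δ with hη₁
  have hη₁pos : 0 < η₁ := lt_min hη2'pos hδpos
  have i1 : η₁ ≤ η2' := min_le_left _ _
  have i2 : η₁ ≤ δ := min_le_right _ _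
  have i3 : η2' ≤ η3' := min_le_right _ _
  have i4 : η3' ≤ η := min_le_right _ _
  refine ⟨η₁, hη₁pos, ?_⟩
  have hfr1 : ∀ (g : G) (x : E × E), g • x = x → g = 1 := fun g x h =>
    S.free g x.1 (congrArg Prod.fst h)
  have hfr2 : ∀ (g : G) (x : E × E × E), g • x = x → g = 1 := fun g x h =>
    S.free g x.1 (congrArg Prod.fst h)
  have hfr3 : ∀ (g : G) (x : E × E × E × E), g • x = x → g = 1 := fun g x h =>
    S.free g x.1 (congrArg Prod.fst h)
  -- degree 1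
  obtain ⟨c1, hc1, hc1s⟩ := equivariant_choice (G := G) hfr1 (fun g => (g1 g : C1 E →ₗ[ℚ] C1 E))
    g1_mul (fun (y : E × E) (c : C1 E) => (y ∈ q1 (S.near δ) → d1 c = d1 (single y 1)) ∧
      c ∈ Sm1 (S.loc r1 η2' y.1) ∧ (y ∈ q1 (S.near η₁) → c = single y 1)) (by
      rintro g y c ⟨hc, hc', hc''⟩
      refine ⟨fun hy => ?_, ?_, fun hy => ?_⟩
      · rw [g1, d1_p1, hc ((S.inv_iff g).1 hy), ← d1_p1]
        congr 1
        change p1 _ (s1 y.1 y.2) = s1 (g • y.1) (g • y.2)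
        simp
      · exact p1_mem (fun a b hab => S.loc_smul g hab) hc'
      · rw [hc'' ((S.inv_iff g).1 hy)]
        change p1 _ (s1 y.1 y.2) = s1 (g • y.1) (g • y.2)
        simp) (by
      rintro ⟨a, b⟩
      by_cases hy : S.near η₁ a b
      · refine ⟨s1 a b, fun _ => rfl, s1_mem ⟨S.mono i1 hy, S.refl (by linarith) _,
          S.mono (i2.trans e2) hy⟩, fun _ => rfl⟩
      · by_cases hy2 : S.near δ a b
        · obtain ⟨c, hc, hc'⟩ := (h1d a).1 a (h1a _ _ (S.refl hδ1 _)) b (h1a _ _ (S.mono e1 hy2))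
          refine ⟨c, fun _ => ?_, Sm1_mono (fun x y hxy => ⟨hxy.1, h1b _ _ hxy.2.1,
            h1b _ _ hxy.2.2⟩) hc, fun h => absurd h hy⟩
          rw [hc']
          change _ = d1 (s1 a b)
          simp
        · exact ⟨0, fun h => absurd h hy2, zero_mem _, fun h => absurd h hy⟩)
  -- images of faces
  have hc1near : ∀ y0 a b : E, S.near δ y0 a → c1 (a, b) ∈ Sm1 (fun x y => S.near η2' x y ∧
      x ∈ D2 y0 ∧ y ∈ D2 y0) := by
    intro y0 a b h0
    refine Sm1_mono (fun x y hxy => ⟨hxy.1, h2a _ _ ?_, h2a _ _ ?_⟩) (hc1 (a, b)).2.1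
    · exact S.mono (by linarith) (S.tri h0 hxy.2.1)
    · exact S.mono (by linarith) (S.tri h0 hxy.2.2)
  -- degree 2
  obtain ⟨c2, hc2, hc2s⟩ := equivariant_choice (G := G) hfr2 (fun g => (g2 g : C2 E →ₗ[ℚ] C2 E))
    g2_mul (fun (y : E × E × E) (c : C2 E) =>
      (y ∈ q2 (S.near δ) → d2 c = ext c1 (d2 (single y 1))) ∧
      c ∈ Sm2 (S.loc r2 η3' y.1) ∧ (y ∈ q2 (S.near η₁) → c = single y 1)) (by
      rintro g y c ⟨hc, hc', hc''⟩
      refine ⟨fun hy => ?_, ?_, fun hy => ?_⟩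
      · rw [g2, d2_p2, hc ⟨(S.inv_iff g).1 hy.1, (S.inv_iff g).1 hy.2.1, (S.inv_iff g).1 hy.2.2⟩]
        change p1 _ (ext c1 (d2 (s2 y.1 y.2.1 y.2.2))) = ext c1 (d2 (s2 (g • y.1) (g • y.2.1) (g • y.2.2)))
        simp only [d2_s2, map_add, map_sub, ext_s1]
        have k := fun a b => hc1s g (a, b)
        simp only [Prod.smul_mk] at k
        rw [k, k, k]
      · exact p2_mem (fun a b hab => S.loc_smul g hab) hc'
      · rw [hc'' ⟨(S.inv_iff g).1 hy.1, (S.inv_iff g).1 hy.2.1, (S.inv_iff g).1 hy.2.2⟩]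
        change p2 _ (s2 y.1 y.2.1 y.2.2) = s2 (g • y.1) (g • y.2.1) (g • y.2.2)
        simp) (by
      rintro ⟨a, b, c⟩
      by_cases hy : (a, b, c) ∈ q2 (S.near η₁)
      · obtain ⟨k1, k2, k3⟩ := hy
        refine ⟨s2 a b c, fun _ => ?_, s2_mem ⟨S.mono (i1.trans i3) k1, S.refl (by linarith) _,
          S.mono (i2.trans e3) k1⟩ ⟨S.mono (i1.trans i3) k2, S.refl (by linarith) _,
          S.mono (i2.trans e3) k2⟩ ⟨S.mono (i1.trans i3) k3, S.mono (i2.trans e3) k1,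
          S.mono (i2.trans e3) k2⟩, fun _ => rfl⟩
        change _ = ext c1 (d2 (s2 a b c))
        simp only [d2_s2, map_add, map_sub, ext_s1]
        rw [(hc1 (b, c)).2.2 k3, (hc1 (a, c)).2.2 k2, (hc1 (a, b)).2.2 k1]
        rfl
      · by_cases hy2 : (a, b, c) ∈ q2 (S.near δ)
        · obtain ⟨k1, k2, k3⟩ := hy2
          obtain ⟨w, hw, hw'⟩ := (h2d a).2.1 (c1 (b, c) - c1 (a, c) + c1 (a, b))
            (Sm1_mono (fun x y hxy => ⟨S.mono (min_le_left _ _) hxy.1, hxy.2⟩) (add_mem (sub_mem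
              (hc1near a b c k1) (hc1near a a c (S.refl hδpos _)))
              (hc1near a a b (S.refl hδpos _)))) (by
              rw [map_add, map_sub, (hc1 (b, c)).1 k3, (hc1 (a, c)).1 k2, (hc1 (a, b)).1 k1]
              change d1 (s1 b c) - d1 (s1 a c) + d1 (s1 a b) = 0
              simp)
          refine ⟨w, fun _ => ?_, Sm2_mono (fun x y hxy => ⟨hxy.1, h2b _ _ hxy.2.1,
            h2b _ _ hxy.2.2⟩) hw, fun h => absurd h hy⟩
          rw [hw']
          change _ = ext c1 (d2 (s2 a b c))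
          simp only [d2_s2, map_add, map_sub, ext_s1]
        · exact ⟨0, fun h => absurd h hy2, zero_mem _, fun h => absurd h hy⟩)
  have hc2near : ∀ y0 a b c : E, S.near δ y0 a → c2 (a, b, c) ∈ Sm2 (fun x y => S.near η3' x y ∧
      x ∈ D3 y0 ∧ y ∈ D3 y0) := by
    intro y0 a b c h0
    refine Sm2_mono (fun x y hxy => ⟨hxy.1, h3a _ _ ?_, h3a _ _ ?_⟩) (hc2 (a, b, c)).2.1
    · exact S.mono (by linarith) (S.tri h0 hxy.2.1)
    · exact S.mono (by linarith) (S.tri h0 hxy.2.2)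
  -- degree 3
  have hex3 : ∀ y : E × E × E × E, ∃ c : C3 E,
      (y ∈ q3 (S.near δ) → d3 c = ext c2 (d3 (single y 1))) ∧ c ∈ Sm3 (S.loc ε η y.1) := by
    rintro ⟨a, b, c, d⟩
    by_cases hy2 : (a, b, c, d) ∈ q3 (S.near δ)
    · obtain ⟨kab, kac, kad, kbc, kbd, kcd⟩ := hy2
      obtain ⟨w, hw, hw'⟩ := (h3d a).2.2 (c2 (b, c, d) - c2 (a, c, d) + c2 (a, b, d) - c2 (a, b, c))
        (Sm2_mono (fun x y hxy => ⟨S.mono (min_le_left _ _) hxy.1, hxy.2⟩) (sub_mem (add_mem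
          (sub_mem (hc2near a b c d kab) (hc2near a a c d (S.refl hδpos _)))
          (hc2near a a b d (S.refl hδpos _))) (hc2near a a b c (S.refl hδpos _)))) (by
          rw [map_sub, map_add, map_sub, (hc2 (b, c, d)).1 ⟨kbc, kbd, kcd⟩,
            (hc2 (a, c, d)).1 ⟨kac, kad, kcd⟩, (hc2 (a, b, d)).1 ⟨kab, kad, kbd⟩,
            (hc2 (a, b, c)).1 ⟨kab, kac, kbc⟩]
          change ext c1 (d2 (s2 b c d)) - ext c1 (d2 (s2 a c d)) + ext c1 (d2 (s2 a b d))
            - ext c1 (d2 (s2 a b c)) = 0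
          rw [← map_sub, ← map_add, ← map_sub, ← map_sub, ← map_add, ← map_sub, ← d3_s3, d2_d3,
            map_zero])
      refine ⟨w, fun _ => ?_, Sm3_mono (fun x y hxy => ⟨hxy.1, h3b _ _ hxy.2.1,
        h3b _ _ hxy.2.2⟩) hw⟩
      rw [hw']
      change _ = ext c2 (d3 (s3 a b c d))
      simp only [d3_s3, map_add, map_sub, ext_s2]
    · exact ⟨0, fun h => absurd h hy2, zero_mem _⟩
  choose c3 hc3 using hex3
  exact ⟨{
    c1 := c1
    c2 := c2
    c3 := c3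
    c1_smul := hc1s
    c2_smul := hc2s
    c1_d := fun y hy => (hc1 y).1 hy
    c2_d := fun y hy => (hc2 y).1 hy
    c3_d := fun y hy => (hc3 y).1 hy
    c1_mem := fun y => Sm1_mono (fun a b hab => ⟨S.mono (i3.trans i4) hab.1,
      S.mono hr1b hab.2.1, S.mono hr1b hab.2.2⟩) (hc1 y).2.1
    c2_mem := fun y => Sm2_mono (fun a b hab => ⟨S.mono i4 hab.1,
      S.mono hr2b hab.2.1, S.mono hr2b hab.2.2⟩) (hc2 y).2.1
    c3_mem := fun y => (hc3 y).2
    c1_id := fun y hy => (hc1 y).2.2 hy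
    c2_id := fun y hy => (hc2 y).2.2 hy }⟩

end Geo

end Pool.Agent.SelfCover
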