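import Pool.Agent.SelfCover.SC
import Pool.Agent.SelfCover.Geo

set_option autoImplicit false

/-!
# Chart boxes and the geometric data of a compact manifold
-/

namespace Pool.Agent.SelfCover

open Path

/-- A convex chart box. -/
structure Box (M F : Type*) [MetricSpace M] [NormedAddCommGroup F] [NormedSpace ℝ F] (ε : ℝ)
    (m : M) where
  /-- the convex compact set -/
  K : Set F
  /-- the parametrization -/
  H : C(K, M)
  /-- the coordinates -/
  φ : M → F
  /-- the open set -/
  U : Set M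
  convex : Convex ℝ K
  compact : IsCompact K
  isOpen : IsOpen U
  mem : m ∈ U
  maps : ∀ x ∈ U, φ x ∈ K
  left : ∀ x (hx : x ∈ U), H ⟨φ x, maps x hx⟩ = x
  right : ∀ a : K, φ (H a) = a
  cont : ContinuousOn φ U
  unif : UniformContinuousOn φ (Set.range H)
  small : ∀ a a' : K, dist (H a) (H a') < ε

theorem exists_box {M F : Type*} [MetricSpace M] [NormedAddCommGroup F] [NormedSpace ℝ F]
    [ProperSpace F] [ChartedSpace F M] {ε : ℝ} (hε : 0 < ε) (m : M) : Nonempty (Box M F ε m) := by
  set e := chartAt F m with he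
  have hm : m ∈ e.source := mem_chart_source F m
  have h1 : e.target ∈ nhds (e m) := e.open_target.mem_nhds (e.map_source hm)
  have h2 : ∀ᶠ a in nhds (e m), dist (e.symm a) m < ε / 2 := by
    have hc : ContinuousAt e.symm (e m) := e.continuousAt_symm (e.map_source hm)
    have := hc.eventually (Metric.ball_mem_nhds (e.symm (e m)) (half_pos hε))
    rw [e.left_inv hm] at this
    exact this
  obtain ⟨r, hr, hball⟩ := Metric.nhds_basis_closedBall.mem_iff.1 (Filter.inter_mem h1 h2)
  have hK1 : ∀ a ∈ Metric.closedBall (e m) r, a ∈ e.target := fun a ha => (hball ha).1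
  have hK2 : ∀ a ∈ Metric.closedBall (e m) r, dist (e.symm a) m < ε / 2 := fun a ha => (hball ha).2
  have hcompact : IsCompact (Metric.closedBall (e m) r) := isCompact_closedBall _ _
  have hcH : Continuous (fun a : Metric.closedBall (e m) r => e.symm a.1) :=
    (e.continuousOn_symm.mono fun a ha => hK1 a ha).domRestrict
  refine ⟨{
    K := Metric.closedBall (e m) r
    H := ⟨fun a => e.symm a.1, hcH⟩
    φ := e
    U := e.source ∩ e ⁻¹' Metric.ball (e m) r
    convex := convex_closedBall _ _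
    compact := hcompact
    isOpen := e.isOpen_inter_preimage Metric.isOpen_ball
    mem := ⟨hm, Metric.mem_ball_self hr⟩
    maps := fun x hx => Metric.ball_subset_closedBall hx.2
    left := fun x hx => e.left_inv hx.1
    right := fun a => e.right_inv (hK1 a a.2)
    cont := e.continuousOn.mono Set.inter_subset_left
    unif := ?_
    small := ?_ }⟩
  · have hcK : CompactSpace (Metric.closedBall (e m) r) := isCompact_iff_compactSpace.1 hcompact
    have hrange : IsCompact (Set.range (fun a : Metric.closedBall (e m) r => e.symm a.1)) :=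
      isCompact_range hcH
    refine hrange.uniformContinuousOn_of_continuous (e.continuousOn.mono ?_)
    rintro _ ⟨a, rfl⟩
    exact e.map_target (hK1 a a.2)
  · intro a a'
    calc dist (e.symm a.1) (e.symm a'.1) ≤ dist (e.symm a.1) m + dist (e.symm a'.1) m :=
          dist_triangle_right _ _ _
      _ < ε := by linarith [hK2 a a.2, hK2 a' a'.2]

theorem exists_min {ι : Type*} (t : Finset ι) (f : ι → ℝ) (hf : ∀ i, 0 < f i) :
    ∃ δ : ℝ, 0 < δ ∧ ∀ i ∈ t, δ ≤ f i := by
  classical
  induction t using Finset.induction_on with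
  | empty => exact ⟨1, one_pos, fun i hi => absurd hi (Finset.notMem_empty i)⟩
  | insert a s _ ih =>
    obtain ⟨δ, hδ, h⟩ := ih
    refine ⟨min δ (f a), lt_min hδ (hf a), fun i hi => ?_⟩
    rcases Finset.mem_insert.1 hi with rfl | hi
    · exact min_le_right _ _
    · exact (min_le_left _ _).trans (h i hi)

theorem Lft.along {X M : Type*} [TopologicalSpace X] [TopologicalSpace M] {b : M} {H : C(X, M)}
    (L : Lft b H) {a a' : X} (v : Path a a') {y : PC M b} {z : M} (u : Path y.pt z)
    (hu : ∀ s, H (v s) = u s) (hy : L.pt a = y) : L.pt a' = y.ex (Homotopic.Quotient.mk u) := by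
  subst hy
  have hz : z = H a' := by
    rw [← u.target, ← hu, v.target]
  subst hz
  have : u = v.map H.continuous := by
    ext s
    exact (hu s).symm
  rw [this]
  unfold Lft.pt PC.ex
  rw [L.h v]
  rfl

section

variable {M : Type*} [MetricSpace M] [CompactSpace M] {b : M} (F : Type*)
  [NormedAddCommGroup F] [NormedSpace ℝ F] [ProperSpace F] [ChartedSpace F M]

include F in
theorem locBox {ε : ℝ} (hε : 0 < ε) : ∃ δ : ℝ, 0 < δ ∧ ∃ D : PC M b → Set (PC M b),
    (∀ c c', pnear δ c c' → c' ∈ D c) ∧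
    (∀ c, ∀ c' ∈ D c, pnear ε c c') ∧
    (∀ η : ℝ, 0 < η → ∃ η' : ℝ, 0 < η' ∧ ∀ c,
      Acyc (fun y y' => pnear η' y y' ∧ y ∈ D c ∧ y' ∈ D c)
        (fun y y' => pnear η y y' ∧ y ∈ D c ∧ y' ∈ D c) (D c)) ∧
    (∀ c, ∀ c' ∈ D c, c'.pt = c.pt → c' = c) ∧
    ∃ P : Finset M, ∀ c, ∃ c' ∈ D c, c'.pt ∈ P := by
  classical
  obtain ⟨B⟩ : Nonempty (∀ m : M, Box M F ε m) := ⟨fun m => (exists_box (F := F) hε m).some⟩
  obtain ⟨t, ht⟩ := isCompact_univ.elim_nhds_subcover (fun m => (B m).U)
    (fun m _ => (B m).isOpen.mem_nhds (B m).mem)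
  obtain ⟨δ, hδ, hleb⟩ := lebesgue_number_lemma_of_metric (s := Set.univ)
    (c := fun i : {m // m ∈ t} => (B i.1).U) isCompact_univ (fun i => (B i.1).isOpen) (by
      intro x hx
      have := ht.2 hx
      simp only [Set.mem_iUnion] at this ⊢
      obtain ⟨m, hm, hxm⟩ := this
      exact ⟨⟨m, hm⟩, hxm⟩)
  choose ix hix using fun x : M => hleb x trivial
  have hxU : ∀ x, x ∈ (B (ix x).1).U := fun x => hix x (Metric.mem_ball_self hδ)
  -- lifts
  have hlift : ∀ c : PC M b, ∃ L : Lft b (B (ix c.pt).1).H,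
      L.pt ⟨(B (ix c.pt).1).φ c.pt, (B (ix c.pt).1).maps _ (hxU _)⟩ = c := by
    intro c
    have : ContractibleSpace (B (ix c.pt).1).K :=
      (B (ix c.pt).1).convex.contractibleSpace ⟨_, (B (ix c.pt).1).maps _ (hxU c.pt)⟩
    exact exists_lift _ _ c ((B (ix c.pt).1).left _ (hxU c.pt)).symm
  choose L hL using hlift
  set D : PC M b → Set (PC M b) := fun c => Set.range (L c).pt with hD
  refine ⟨δ, hδ, D, ?_, ?_, ?_, ?_, ?_⟩
  · -- near points are in the box
    rintro c c' ⟨u, hu, hd⟩
    set Bc := B (ix c.pt).1 with hBc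
    have huU : ∀ s, u s ∈ Bc.U := fun s => hix c.pt (by
      rw [Metric.mem_ball, dist_comm]
      have := hd 0 s
      rwa [u.source] at this)
    have hc'U : c'.pt ∈ Bc.U := by
      have := huU 1
      rwa [u.target] at this
    let v : Path (⟨Bc.φ c.pt, Bc.maps _ (hxU _)⟩ : Bc.K) ⟨Bc.φ c'.pt, Bc.maps _ hc'U⟩ :=
      { toFun := fun s => ⟨Bc.φ (u s), Bc.maps _ (huU s)⟩
        continuous_toFun := by
          apply Continuous.subtype_mk
          exact Bc.cont.comp_continuous u.continuous huU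
        source' := by ext; simp
        target' := by ext; simp }
    have h1 := (L c).along v u (fun s => Bc.left _ (huU s)) (hL c)
    refine ⟨_, h1.trans ?_⟩
    obtain ⟨p', q'⟩ := c'
    simp only at hu
    rw [hu]
    rfl
  · -- boxes are small
    rintro c _ ⟨a, rfl⟩
    have := (L c).near (segP (B (ix c.pt).1).convex ⟨(B (ix c.pt).1).φ c.pt,
      (B (ix c.pt).1).maps _ (hxU _)⟩ a) (ε := ε) (fun s t => (B (ix c.pt).1).small _ _)
    rwa [hL c] at this
  · -- acyclicity
    intro η hη
    have h1 : ∀ m : M, ∃ δ : ℝ, 0 < δ ∧ ∀ (L : Lft b (B m).H) (c0 : PC M b) (a a' : F),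
        KN (B m).K δ a a' → pnear η (L.psi c0 a) (L.psi c0 a') := fun m =>
      Lft.psi_near (B m).convex (B m).compact hη
    choose η0 hη0 hη0' using h1
    have h2 : ∀ m : M, ∃ η1 : ℝ, 0 < η1 ∧ ∀ x ∈ Set.range (B m).H, ∀ x' ∈ Set.range (B m).H,
        dist x x' < η1 → dist ((B m).φ x) ((B m).φ x') < η0 m / 2 := fun m => by
      have := Metric.uniformContinuousOn_iff.1 (B m).unif (η0 m / 2) (half_pos (hη0 m))
      exact this
    choose η1 hη1 hη1' using h2
    obtain ⟨η', hη', hmin⟩ := exists_min t η1 hη1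
    refine ⟨η', hη', fun c => ?_⟩
    set m : M := (ix c.pt).1 with hm
    have hmt : m ∈ t := (ix c.pt).2
    refine Acyc.transport (fun y : PC M b => (B m).φ y.pt) ((L c).psi c)
      (acyc_convex (B m).convex (B m).compact.isBounded (hη0 m)) ?_ ?_ ?_
    · rintro _ ⟨a, rfl⟩
      have h3 : (B m).φ ((L c).pt a).pt = a := (B m).right a
      refine ⟨by rw [h3]; exact a.2, ?_⟩
      rw [h3, (L c).psi_of_mem c a.2]
    · rintro y y' ⟨⟨u, hu, hd⟩, ⟨a, rfl⟩, ⟨a', rfl⟩⟩
      refine ⟨⟨a, rfl⟩, ⟨a', rfl⟩, ?_, ?_, ?_⟩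
      · have h3 : (B m).φ ((L c).pt a).pt = a := (B m).right a
        rw [h3]; exact a.2
      · have h3 : (B m).φ ((L c).pt a').pt = a' := (B m).right a'
        rw [h3]; exact a'.2
      · apply hη1' m _ ⟨a, rfl⟩ _ ⟨a', rfl⟩
        have := hd 0 1
        rw [u.source, u.target] at this
        exact this.trans_le (hmin m hmt)
    · intro a a' h
      refine ⟨hη0' m (L c) c a a' h, ?_, ?_⟩
      · rw [(L c).psi_of_mem c h.1]; exact ⟨_, rfl⟩
      · rw [(L c).psi_of_mem c h.2.1]; exact ⟨_, rfl⟩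
  · rintro c _ ⟨a, rfl⟩ h
    conv_rhs => rw [← hL c]
    congr 1
    ext
    have h3 : (B (ix c.pt).1).φ ((L c).pt a).pt = a := (B (ix c.pt).1).right a
    rw [← h3, h]
  · refine ⟨t, fun c => ?_⟩
    set m : M := (ix c.pt).1 with hm
    refine ⟨(L c).pt ⟨(B m).φ m, (B m).maps _ (B m).mem⟩, ⟨_, rfl⟩, ?_⟩
    have : ((L c).pt ⟨(B m).φ m, (B m).maps _ (B m).mem⟩).pt = m := (B m).left _ (B m).mem
    rw [this]
    exact (ix c.pt).2

theorem fiber_trans {M : Type*} [TopologicalSpace M] {b : M} {G : Type*} [Group G]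
    (e : FundamentalGroup M b ≃* G) (c c' : PC M b) (h : c.pt = c'.pt) :
    letI := pcAction e
    ∃ g : G, c = g • c' := by
  obtain ⟨p, q⟩ := c
  obtain ⟨p', q'⟩ := c'
  simp only at h
  subst h
  refine ⟨(e (q.trans q'.symm))⁻¹, ?_⟩
  change (⟨p, q⟩ : PC M b) = ⟨p, Homotopic.Quotient.trans
    (e.symm ((e (q.trans q'.symm))⁻¹)⁻¹ : Homotopic.Quotient b b) q'⟩
  rw [inv_inv, MulEquiv.symm_apply_apply, Homotopic.Quotient.trans_assoc,
    Homotopic.Quotient.symm_trans, Homotopic.Quotient.trans_refl]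

theorem pc_free {M : Type*} [TopologicalSpace M] {b : M} {G : Type*} [Group G]
    (e : FundamentalGroup M b ≃* G) (g : G) (c : PC M b)
    (h : letI := pcAction e; g • c = c) : g = 1 := by
  obtain ⟨p, q⟩ := c
  have h1 : Homotopic.Quotient.trans (e.symm g⁻¹ : Homotopic.Quotient b b) q = q := PC.ext_cls h
  have h2 : (e.symm g⁻¹ : Homotopic.Quotient b b) = Homotopic.Quotient.refl b := by
    calc (e.symm g⁻¹ : Homotopic.Quotient b b)
        = Homotopic.Quotient.trans (Homotopic.Quotient.trans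
          (e.symm g⁻¹ : Homotopic.Quotient b b) q) q.symm := by
          rw [Homotopic.Quotient.trans_assoc, Homotopic.Quotient.trans_symm,
            Homotopic.Quotient.trans_refl]
      _ = _ := by rw [h1, Homotopic.Quotient.trans_symm]
  have h3 : e.symm g⁻¹ = 1 := h2
  rw [map_eq_one_iff e.symm e.symm.injective, inv_eq_one] at h3
  exact h3

/-- The geometric data of a compact manifold. -/
noncomputable def geoOf [PathConnectedSpace M] {G : Type*} [Group G]
    (e : FundamentalGroup M b ≃* G) :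
    letI := pcAction e
    Geo G (PC M b) :=
  letI := pcAction e
  { near := pnear
    refl := fun hε y => pnear_refl hε y
    symm := fun h => pnear_symm h
    tri := fun h h' => pnear_trans h h'
    mono := fun h h' => pnear_mono h h'
    inv := fun g h => pnear_smul e g h
    net := by
      classical
      intro ε hε
      obtain ⟨δ, hδ, D, h1, h2, h3, h4, P, hP⟩ := locBox (b := b) F hε
      refine ⟨P.image fun m => ⟨m, Homotopic.Quotient.mk (PathConnectedSpace.somePath b m)⟩,
        fun y => ?_⟩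
      obtain ⟨c', hc', hcP⟩ := hP y
      obtain ⟨g, hg⟩ := fiber_trans e c'
        ⟨c'.pt, Homotopic.Quotient.mk (PathConnectedSpace.somePath b c'.pt)⟩ rfl
      refine ⟨g, _, Finset.mem_image_of_mem _ hcP, ?_⟩
      rw [← hg]
      exact h2 y c' hc'
    sep := by
      obtain ⟨δ, hδ, D, h1, h2, h3, h4, P, hP⟩ := locBox (M := M) (b := b) F one_pos
      refine ⟨δ, hδ, fun y g h => ?_⟩
      exact pc_free e g y (h4 y _ (h1 _ _ h) rfl)
    acyc := by
      intro ε hε
      obtain ⟨δ, hδ, D, h1, h2, h3, -⟩ := locBox (b := b) F hε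
      exact ⟨δ, hδ, D, h1, h2, h3⟩
    conn := fun hη y y' => pc_conn hη y y'
    sc := fun η hη => ⟨η, hη, fun z hz hd => pc_sc hη z hz hd⟩ }

end

end Pool.Agent.SelfCover
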