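import Mathlib

set_option autoImplicit false

/-!
# Small chains

Chains of degree `0, 1, 2, 3` on the vertices of a set `E` (all ordered tuples), with rational
coefficients; boundary, push-forward, prism and cone operators; supports.
-/

namespace Pool.Agent.SelfCover

open Finsupp

variable {E F G : Type*}

/-- 0-chains -/
abbrev C0 (E : Type*) := E →₀ ℚ
/-- 1-chains -/
abbrev C1 (E : Type*) := (E × E) →₀ ℚ
/-- 2-chains -/
abbrev C2 (E : Type*) := (E × E × E) →₀ ℚ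
/-- 3-chains -/
abbrev C3 (E : Type*) := (E × E × E × E) →₀ ℚ

/-- basic 0-simplex -/
noncomputable def s0 (a : E) : C0 E := single a 1
/-- basic 1-simplex -/
noncomputable def s1 (a b : E) : C1 E := single (a, b) 1
/-- basic 2-simplex -/
noncomputable def s2 (a b c : E) : C2 E := single (a, b, c) 1
/-- basic 3-simplex -/
noncomputable def s3 (a b c d : E) : C3 E := single (a, b, c, d) 1

/-- linear extension -/
noncomputable def ext {α M : Type*} [AddCommGroup M] [Module ℚ M] (f : α → M) :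
    (α →₀ ℚ) →ₗ[ℚ] M := Finsupp.linearCombination ℚ f

theorem ext_single {α M : Type*} [AddCommGroup M] [Module ℚ M] (f : α → M) (a : α) :
    ext f (single a 1) = f a := by
  simp [ext]

@[simp] theorem ext_s0 {M : Type*} [AddCommGroup M] [Module ℚ M] (f : E → M) (a : E) :
    ext f (s0 a) = f a := ext_single f a
@[simp] theorem ext_s1 {M : Type*} [AddCommGroup M] [Module ℚ M] (f : E × E → M) (a b : E) :
    ext f (s1 a b) = f (a, b) := ext_single f _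
@[simp] theorem ext_s2 {M : Type*} [AddCommGroup M] [Module ℚ M] (f : E × E × E → M)
    (a b c : E) : ext f (s2 a b c) = f (a, b, c) := ext_single f _
@[simp] theorem ext_s3 {M : Type*} [AddCommGroup M] [Module ℚ M] (f : E × E × E × E → M)
    (a b c d : E) : ext f (s3 a b c d) = f (a, b, c, d) := ext_single f _

/-- two linear maps agreeing on basis elements are equal -/
theorem lin_ext {α M : Type*} [AddCommGroup M] [Module ℚ M] {f g : (α →₀ ℚ) →ₗ[ℚ] M}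
    (h : ∀ a, f (single a 1) = g (single a 1)) : f = g := by
  apply Finsupp.lhom_ext'
  intro a
  apply LinearMap.ext_ring
  exact h a

theorem lin_apply_ext {α M : Type*} [AddCommGroup M] [Module ℚ M] {f g : (α →₀ ℚ) →ₗ[ℚ] M}
    (h : ∀ a, f (single a 1) = g (single a 1)) (c : α →₀ ℚ) : f c = g c := by
  rw [lin_ext h]

/-- a linear map sends supported chains into a submodule if it does so on the basis -/
theorem map_supported {α M : Type*} [AddCommGroup M] [Module ℚ M] {f : (α →₀ ℚ) →ₗ[ℚ] M}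
    {s : Set α} {T : Submodule ℚ M} (h : ∀ a ∈ s, f (single a 1) ∈ T) {c : α →₀ ℚ}
    (hc : c ∈ Finsupp.supported ℚ ℚ s) : f c ∈ T := by
  rw [Finsupp.supported_eq_span_single] at hc
  induction hc using Submodule.span_induction with
  | mem x hx =>
    obtain ⟨a, ha, rfl⟩ := hx
    exact h a ha
  | zero => simp
  | add x y _ _ hx hy => rw [map_add]; exact T.add_mem hx hy
  | smul r x _ hx => rw [map_smul]; exact T.smul_mem r hx

/-- equality of linear maps on supported chains -/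
theorem eq_on_supported {α M : Type*} [AddCommGroup M] [Module ℚ M] {f g : (α →₀ ℚ) →ₗ[ℚ] M}
    {s : Set α} (h : ∀ a ∈ s, f (single a 1) = g (single a 1)) {c : α →₀ ℚ}
    (hc : c ∈ Finsupp.supported ℚ ℚ s) : f c = g c := by
  have : (f - g) c ∈ (⊥ : Submodule ℚ M) := map_supported (f := f - g) (by
    intro a ha
    simp [h a ha]) hc
  rw [Submodule.mem_bot] at this
  simpa [sub_eq_zero] using this

/-- boundary in degree 1 -/
noncomputable def d1 : C1 E →ₗ[ℚ] C0 E := ext (fun y => s0 y.2 - s0 y.1)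
/-- boundary in degree 2 -/
noncomputable def d2 : C2 E →ₗ[ℚ] C1 E :=
  ext (fun y => s1 y.2.1 y.2.2 - s1 y.1 y.2.2 + s1 y.1 y.2.1)
/-- boundary in degree 3 -/
noncomputable def d3 : C3 E →ₗ[ℚ] C2 E :=
  ext (fun y => s2 y.2.1 y.2.2.1 y.2.2.2 - s2 y.1 y.2.2.1 y.2.2.2 + s2 y.1 y.2.1 y.2.2.2
    - s2 y.1 y.2.1 y.2.2.1)
/-- augmentation -/
noncomputable def aug : C0 E →ₗ[ℚ] ℚ := ext (fun _ => 1)

@[simp] theorem aug_s0 (a : E) : aug (s0 a) = 1 := by simp [aug]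
@[simp] theorem d1_s1 (a b : E) : d1 (s1 a b) = s0 b - s0 a := by simp [d1]
@[simp] theorem d2_s2 (a b c : E) : d2 (s2 a b c) = s1 b c - s1 a c + s1 a b := by simp [d2]
@[simp] theorem d3_s3 (a b c d : E) :
    d3 (s3 a b c d) = s2 b c d - s2 a c d + s2 a b d - s2 a b c := by simp [d3]

theorem aug_d1 (c : C1 E) : aug (d1 c) = 0 := by
  have : (aug ∘ₗ d1 : C1 E →ₗ[ℚ] ℚ) = 0 := lin_ext (by
    rintro ⟨a, b⟩
    change aug (d1 (s1 a b)) = _
    simp)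
  exact LinearMap.congr_fun this c

theorem d1_d2 (c : C2 E) : d1 (d2 c) = 0 := by
  have : (d1 ∘ₗ d2 : C2 E →ₗ[ℚ] C0 E) = 0 := lin_ext (by
    rintro ⟨a, b, c⟩
    change d1 (d2 (s2 a b c)) = _
    simp only [d2_s2, map_add, map_sub, d1_s1, LinearMap.zero_apply]
    abel)
  exact LinearMap.congr_fun this c

theorem d2_d3 (c : C3 E) : d2 (d3 c) = 0 := by
  have : (d2 ∘ₗ d3 : C3 E →ₗ[ℚ] C1 E) = 0 := lin_ext (by
    rintro ⟨a, b, c, d⟩
    change d2 (d3 (s3 a b c d)) = _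
    simp only [d3_s3, map_add, map_sub, d2_s2, LinearMap.zero_apply]
    abel)
  exact LinearMap.congr_fun this c

/-! ### Push-forward -/

/-- push-forward of 0-chains -/
noncomputable def p0 (f : E → F) : C0 E →ₗ[ℚ] C0 F := ext (fun y => s0 (f y))
/-- push-forward of 1-chains -/
noncomputable def p1 (f : E → F) : C1 E →ₗ[ℚ] C1 F := ext (fun y => s1 (f y.1) (f y.2))
/-- push-forward of 2-chains -/
noncomputable def p2 (f : E → F) : C2 E →ₗ[ℚ] C2 F :=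
  ext (fun y => s2 (f y.1) (f y.2.1) (f y.2.2))
/-- push-forward of 3-chains -/
noncomputable def p3 (f : E → F) : C3 E →ₗ[ℚ] C3 F :=
  ext (fun y => s3 (f y.1) (f y.2.1) (f y.2.2.1) (f y.2.2.2))

@[simp] theorem p0_s0 (f : E → F) (a : E) : p0 f (s0 a) = s0 (f a) := by simp [p0]
@[simp] theorem p1_s1 (f : E → F) (a b : E) : p1 f (s1 a b) = s1 (f a) (f b) := by simp [p1]
@[simp] theorem p2_s2 (f : E → F) (a b c : E) : p2 f (s2 a b c) = s2 (f a) (f b) (f c) := by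
  simp [p2]
@[simp] theorem p3_s3 (f : E → F) (a b c d : E) :
    p3 f (s3 a b c d) = s3 (f a) (f b) (f c) (f d) := by simp [p3]

theorem aug_p0 (f : E → F) (c : C0 E) : aug (p0 f c) = aug c := by
  have : (aug ∘ₗ p0 f : C0 E →ₗ[ℚ] ℚ) = aug := lin_ext (by
    intro a
    change aug (p0 f (s0 a)) = aug (s0 a)
    simp)
  exact LinearMap.congr_fun this c

theorem d1_p1 (f : E → F) (c : C1 E) : d1 (p1 f c) = p0 f (d1 c) := by
  have : (d1 ∘ₗ p1 f : C1 E →ₗ[ℚ] C0 F) = p0 f ∘ₗ d1 := lin_ext (by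
    rintro ⟨a, b⟩
    change d1 (p1 f (s1 a b)) = p0 f (d1 (s1 a b))
    simp)
  exact LinearMap.congr_fun this c

theorem d2_p2 (f : E → F) (c : C2 E) : d2 (p2 f c) = p1 f (d2 c) := by
  have : (d2 ∘ₗ p2 f : C2 E →ₗ[ℚ] C1 F) = p1 f ∘ₗ d2 := lin_ext (by
    rintro ⟨a, b, c⟩
    change d2 (p2 f (s2 a b c)) = p1 f (d2 (s2 a b c))
    simp)
  exact LinearMap.congr_fun this c

theorem d3_p3 (f : E → F) (c : C3 E) : d3 (p3 f c) = p2 f (d3 c) := by
  have : (d3 ∘ₗ p3 f : C3 E →ₗ[ℚ] C2 F) = p2 f ∘ₗ d3 := lin_ext (by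
    rintro ⟨a, b, c, d⟩
    change d3 (p3 f (s3 a b c d)) = p2 f (d3 (s3 a b c d))
    simp)
  exact LinearMap.congr_fun this c

theorem p0_p0 (f : E → F) (g : F → G) (c : C0 E) : p0 g (p0 f c) = p0 (g ∘ f) c := by
  have : (p0 g ∘ₗ p0 f : C0 E →ₗ[ℚ] C0 G) = p0 (g ∘ f) := lin_ext (by
    intro a
    change p0 g (p0 f (s0 a)) = p0 (g ∘ f) (s0 a)
    simp)
  exact LinearMap.congr_fun this c

theorem p1_p1 (f : E → F) (g : F → G) (c : C1 E) : p1 g (p1 f c) = p1 (g ∘ f) c := by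
  have : (p1 g ∘ₗ p1 f : C1 E →ₗ[ℚ] C1 G) = p1 (g ∘ f) := lin_ext (by
    rintro ⟨a, b⟩
    change p1 g (p1 f (s1 a b)) = p1 (g ∘ f) (s1 a b)
    simp)
  exact LinearMap.congr_fun this c

theorem p2_p2 (f : E → F) (g : F → G) (c : C2 E) : p2 g (p2 f c) = p2 (g ∘ f) c := by
  have : (p2 g ∘ₗ p2 f : C2 E →ₗ[ℚ] C2 G) = p2 (g ∘ f) := lin_ext (by
    rintro ⟨a, b, c⟩
    change p2 g (p2 f (s2 a b c)) = p2 (g ∘ f) (s2 a b c)
    simp)
  exact LinearMap.congr_fun this c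

theorem p3_p3 (f : E → F) (g : F → G) (c : C3 E) : p3 g (p3 f c) = p3 (g ∘ f) c := by
  have : (p3 g ∘ₗ p3 f : C3 E →ₗ[ℚ] C3 G) = p3 (g ∘ f) := lin_ext (by
    rintro ⟨a, b, c, d⟩
    change p3 g (p3 f (s3 a b c d)) = p3 (g ∘ f) (s3 a b c d)
    simp)
  exact LinearMap.congr_fun this c

/-! ### Small chains -/

/-- smallness of 1-simplices -/
def q1 (R : E → E → Prop) : Set (E × E) := {y | R y.1 y.2}
/-- smallness of 2-simplices -/
def q2 (R : E → E → Prop) : Set (E × E × E) := {y | R y.1 y.2.1 ∧ R y.1 y.2.2 ∧ R y.2.1 y.2.2}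
/-- smallness of 3-simplices -/
def q3 (R : E → E → Prop) : Set (E × E × E × E) :=
  {y | R y.1 y.2.1 ∧ R y.1 y.2.2.1 ∧ R y.1 y.2.2.2 ∧ R y.2.1 y.2.2.1 ∧ R y.2.1 y.2.2.2 ∧
    R y.2.2.1 y.2.2.2}

theorem mem_q1 {R : E → E → Prop} {a b : E} : (a, b) ∈ q1 R ↔ R a b := Iff.rfl
theorem mem_q2 {R : E → E → Prop} {a b c : E} :
    (a, b, c) ∈ q2 R ↔ R a b ∧ R a c ∧ R b c := Iff.rfl
theorem mem_q3 {R : E → E → Prop} {a b c d : E} :
    (a, b, c, d) ∈ q3 R ↔ R a b ∧ R a c ∧ R a d ∧ R b c ∧ R b d ∧ R c d := Iff.rfl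

/-- small 0-chains (supported in a set) -/
noncomputable abbrev Sm0 (D : Set E) : Submodule ℚ (C0 E) := Finsupp.supported ℚ ℚ D
/-- small 1-chains -/
noncomputable abbrev Sm1 (R : E → E → Prop) : Submodule ℚ (C1 E) := Finsupp.supported ℚ ℚ (q1 R)
/-- small 2-chains -/
noncomputable abbrev Sm2 (R : E → E → Prop) : Submodule ℚ (C2 E) := Finsupp.supported ℚ ℚ (q2 R)
/-- small 3-chains -/
noncomputable abbrev Sm3 (R : E → E → Prop) : Submodule ℚ (C3 E) := Finsupp.supported ℚ ℚ (q3 R)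

theorem q1_mono {R R' : E → E → Prop} (h : ∀ a b, R a b → R' a b) : q1 R ⊆ q1 R' :=
  fun _ hy => h _ _ hy
theorem q2_mono {R R' : E → E → Prop} (h : ∀ a b, R a b → R' a b) : q2 R ⊆ q2 R' :=
  fun _ hy => ⟨h _ _ hy.1, h _ _ hy.2.1, h _ _ hy.2.2⟩
theorem q3_mono {R R' : E → E → Prop} (h : ∀ a b, R a b → R' a b) : q3 R ⊆ q3 R' :=
  fun _ hy => ⟨h _ _ hy.1, h _ _ hy.2.1, h _ _ hy.2.2.1, h _ _ hy.2.2.2.1, h _ _ hy.2.2.2.2.1,
    h _ _ hy.2.2.2.2.2⟩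

theorem Sm1_mono {R R' : E → E → Prop} (h : ∀ a b, R a b → R' a b) : Sm1 R ≤ Sm1 R' :=
  Finsupp.supported_mono (q1_mono h)
theorem Sm2_mono {R R' : E → E → Prop} (h : ∀ a b, R a b → R' a b) : Sm2 R ≤ Sm2 R' :=
  Finsupp.supported_mono (q2_mono h)
theorem Sm3_mono {R R' : E → E → Prop} (h : ∀ a b, R a b → R' a b) : Sm3 R ≤ Sm3 R' :=
  Finsupp.supported_mono (q3_mono h)

theorem s0_mem {D : Set E} {a : E} (h : a ∈ D) : s0 a ∈ Sm0 D :=
  Finsupp.single_mem_supported _ _ h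
theorem s1_mem {R : E → E → Prop} {a b : E} (h : R a b) : s1 a b ∈ Sm1 R :=
  Finsupp.single_mem_supported _ _ (by exact h)
theorem s2_mem {R : E → E → Prop} {a b c : E} (h1 : R a b) (h2 : R a c) (h3 : R b c) :
    s2 a b c ∈ Sm2 R :=
  Finsupp.single_mem_supported _ _ (by exact ⟨h1, h2, h3⟩)
theorem s3_mem {R : E → E → Prop} {a b c d : E} (h1 : R a b) (h2 : R a c) (h3 : R a d)
    (h4 : R b c) (h5 : R b d) (h6 : R c d) : s3 a b c d ∈ Sm3 R :=
  Finsupp.single_mem_supported _ _ (by exact ⟨h1, h2, h3, h4, h5, h6⟩)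

theorem d2_mem {R : E → E → Prop} {c : C2 E} (hc : c ∈ Sm2 R) : d2 c ∈ Sm1 R := by
  refine map_supported ?_ hc
  rintro ⟨a, b, c⟩ ⟨h1, h2, h3⟩
  change d2 (s2 a b c) ∈ _
  rw [d2_s2]
  exact add_mem (sub_mem (s1_mem h3) (s1_mem h2)) (s1_mem h1)

theorem d3_mem {R : E → E → Prop} {c : C3 E} (hc : c ∈ Sm3 R) : d3 c ∈ Sm2 R := by
  refine map_supported ?_ hc
  rintro ⟨a, b, c, d⟩ ⟨h1, h2, h3, h4, h5, h6⟩
  change d3 (s3 a b c d) ∈ _
  rw [d3_s3]
  exact sub_mem (add_mem (sub_mem (s2_mem h4 h5 h6) (s2_mem h2 h3 h6)) (s2_mem h1 h3 h5))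
    (s2_mem h1 h2 h4)

theorem p0_mem {D : Set E} {D' : Set F} {f : E → F} (h : ∀ a ∈ D, f a ∈ D') {c : C0 E}
    (hc : c ∈ Sm0 D) : p0 f c ∈ Sm0 D' := by
  refine map_supported ?_ hc
  intro a ha
  change p0 f (s0 a) ∈ _
  rw [p0_s0]
  exact s0_mem (h a ha)

theorem p1_mem {R : E → E → Prop} {R' : F → F → Prop} {f : E → F}
    (h : ∀ a b, R a b → R' (f a) (f b)) {c : C1 E} (hc : c ∈ Sm1 R) : p1 f c ∈ Sm1 R' := by
  refine map_supported ?_ hc
  rintro ⟨a, b⟩ h1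
  change p1 f (s1 a b) ∈ _
  rw [p1_s1]
  exact s1_mem (h _ _ h1)

theorem p2_mem {R : E → E → Prop} {R' : F → F → Prop} {f : E → F}
    (h : ∀ a b, R a b → R' (f a) (f b)) {c : C2 E} (hc : c ∈ Sm2 R) : p2 f c ∈ Sm2 R' := by
  refine map_supported ?_ hc
  rintro ⟨a, b, c⟩ ⟨h1, h2, h3⟩
  change p2 f (s2 a b c) ∈ _
  rw [p2_s2]
  exact s2_mem (h _ _ h1) (h _ _ h2) (h _ _ h3)

theorem p3_mem {R : E → E → Prop} {R' : F → F → Prop} {f : E → F}
    (h : ∀ a b, R a b → R' (f a) (f b)) {c : C3 E} (hc : c ∈ Sm3 R) : p3 f c ∈ Sm3 R' := by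
  refine map_supported ?_ hc
  rintro ⟨a, b, c, d⟩ ⟨h1, h2, h3, h4, h5, h6⟩
  change p3 f (s3 a b c d) ∈ _
  rw [p3_s3]
  exact s3_mem (h _ _ h1) (h _ _ h2) (h _ _ h3) (h _ _ h4) (h _ _ h5) (h _ _ h6)

theorem p1_eq_self {R : E → E → Prop} {f : E → E} (h : ∀ a b, R a b → f a = a ∧ f b = b)
    {c : C1 E} (hc : c ∈ Sm1 R) : p1 f c = c := by
  refine eq_on_supported (f := p1 f) (g := LinearMap.id) ?_ hc
  rintro ⟨a, b⟩ h1
  change p1 f (s1 a b) = s1 a b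
  rw [p1_s1, (h _ _ h1).1, (h _ _ h1).2]

theorem p2_eq_self {R : E → E → Prop} {f : E → E} (h : ∀ a b, R a b → f a = a ∧ f b = b)
    {c : C2 E} (hc : c ∈ Sm2 R) : p2 f c = c := by
  refine eq_on_supported (f := p2 f) (g := LinearMap.id) ?_ hc
  rintro ⟨a, b, c⟩ ⟨h1, h2, h3⟩
  change p2 f (s2 a b c) = s2 a b c
  rw [p2_s2, (h _ _ h1).1, (h _ _ h1).2, (h _ _ h3).2]

/-! ### Prism operators -/

/-- prism in degree 0 -/
noncomputable def h0 (H : E → E) : C0 E →ₗ[ℚ] C1 E := ext (fun a => s1 a (H a))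
/-- prism in degree 1 -/
noncomputable def h1 (H : E → E) : C1 E →ₗ[ℚ] C2 E :=
  ext (fun y => s2 y.1 (H y.1) (H y.2) - s2 y.1 y.2 (H y.2))
/-- prism in degree 2 -/
noncomputable def h2 (H : E → E) : C2 E →ₗ[ℚ] C3 E :=
  ext (fun y => s3 y.1 (H y.1) (H y.2.1) (H y.2.2) - s3 y.1 y.2.1 (H y.2.1) (H y.2.2)
    + s3 y.1 y.2.1 y.2.2 (H y.2.2))

@[simp] theorem h0_s0 (H : E → E) (a : E) : h0 H (s0 a) = s1 a (H a) := by simp [h0]
@[simp] theorem h1_s1 (H : E → E) (a b : E) :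
    h1 H (s1 a b) = s2 a (H a) (H b) - s2 a b (H b) := by simp [h1]
@[simp] theorem h2_s2 (H : E → E) (a b c : E) :
    h2 H (s2 a b c) = s3 a (H a) (H b) (H c) - s3 a b (H b) (H c) + s3 a b c (H c) := by
  simp [h2]

theorem d1_h0 (H : E → E) (c : C0 E) : d1 (h0 H c) = p0 H c - c := by
  have : (d1 ∘ₗ h0 H : C0 E →ₗ[ℚ] C0 E) = p0 H - LinearMap.id := lin_ext (by
    intro a
    change d1 (h0 H (s0 a)) = p0 H (s0 a) - s0 a
    simp)
  exact LinearMap.congr_fun this c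

theorem d2_h1 (H : E → E) (c : C1 E) : d2 (h1 H c) = p1 H c - c - h0 H (d1 c) := by
  have : (d2 ∘ₗ h1 H : C1 E →ₗ[ℚ] C1 E) = p1 H - LinearMap.id - h0 H ∘ₗ d1 := lin_ext (by
    rintro ⟨a, b⟩
    change d2 (h1 H (s1 a b)) = p1 H (s1 a b) - s1 a b - h0 H (d1 (s1 a b))
    simp only [h1_s1, map_sub, d2_s2, p1_s1, d1_s1, h0_s0]
    abel)
  exact LinearMap.congr_fun this c

theorem d3_h2 (H : E → E) (c : C2 E) : d3 (h2 H c) = p2 H c - c - h1 H (d2 c) := by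
  have : (d3 ∘ₗ h2 H : C2 E →ₗ[ℚ] C2 E) = p2 H - LinearMap.id - h1 H ∘ₗ d2 := lin_ext (by
    rintro ⟨a, b, c⟩
    change d3 (h2 H (s2 a b c)) = p2 H (s2 a b c) - s2 a b c - h1 H (d2 (s2 a b c))
    simp only [h2_s2, map_sub, map_add, d3_s3, d2_s2, p2_s2, h1_s1]
    abel)
  exact LinearMap.congr_fun this c

/-! ### Cone operators -/

/-- cone in degree 0 -/
noncomputable def k0 (x : E) : C0 E →ₗ[ℚ] C1 E := ext (fun a => s1 x a)
/-- cone in degree 1 -/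
noncomputable def k1 (x : E) : C1 E →ₗ[ℚ] C2 E := ext (fun y => s2 x y.1 y.2)
/-- cone in degree 2 -/
noncomputable def k2 (x : E) : C2 E →ₗ[ℚ] C3 E := ext (fun y => s3 x y.1 y.2.1 y.2.2)

@[simp] theorem k0_s0 (x a : E) : k0 x (s0 a) = s1 x a := by simp [k0]
@[simp] theorem k1_s1 (x a b : E) : k1 x (s1 a b) = s2 x a b := by simp [k1]
@[simp] theorem k2_s2 (x a b c : E) : k2 x (s2 a b c) = s3 x a b c := by simp [k2]

theorem d1_k0 (x : E) (c : C0 E) : d1 (k0 x c) = c - aug c • s0 x := by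
  have : (d1 ∘ₗ k0 x : C0 E →ₗ[ℚ] C0 E) = LinearMap.id - aug.smulRight (s0 x) := lin_ext (by
    intro a
    change d1 (k0 x (s0 a)) = s0 a - aug (s0 a) • s0 x
    simp)
  exact LinearMap.congr_fun this c

theorem d2_k1 (x : E) (c : C1 E) : d2 (k1 x c) = c - k0 x (d1 c) := by
  have : (d2 ∘ₗ k1 x : C1 E →ₗ[ℚ] C1 E) = LinearMap.id - k0 x ∘ₗ d1 := lin_ext (by
    rintro ⟨a, b⟩
    change d2 (k1 x (s1 a b)) = s1 a b - k0 x (d1 (s1 a b))
    simp only [k1_s1, d2_s2, d1_s1, map_sub, k0_s0]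
    abel)
  exact LinearMap.congr_fun this c

theorem d3_k2 (x : E) (c : C2 E) : d3 (k2 x c) = c - k1 x (d2 c) := by
  have : (d3 ∘ₗ k2 x : C2 E →ₗ[ℚ] C2 E) = LinearMap.id - k1 x ∘ₗ d2 := lin_ext (by
    rintro ⟨a, b, c⟩
    change d3 (k2 x (s2 a b c)) = s2 a b c - k1 x (d2 (s2 a b c))
    simp only [k2_s2, d3_s3, d2_s2, map_add, map_sub, k1_s1]
    abel)
  exact LinearMap.congr_fun this c

end Pool.Agent.SelfCover
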