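import Mathlib

set_option autoImplicit false

/-!
# The group `Gam = F_2[t, 1/t, 1/(1+t)] ⋊ ℤ²`

Basic definitions for the disproof of `MP_16d5f9_gt`.
-/

namespace Pool.Agent.SelfCover

/-- The field `F_2(t)`. -/
abbrev K2 : Type := RatFunc (ZMod 2)

/-- The variable `t`. -/
noncomputable def tt : K2 := RatFunc.X

/-- The unit `u = 1 + t`. -/
noncomputable def uu : K2 := 1 + RatFunc.X

/-- The monomial `t^i u^j`. -/
noncomputable def site (i j : ℤ) : K2 := tt ^ i * uu ^ j

/-- The additive group `A` generated by all `t^i u^j`. -/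
noncomputable def AA : AddSubgroup K2 := AddSubgroup.closure {x | ∃ i j : ℤ, x = site i j}

theorem tt_ne_zero : tt ≠ 0 := RatFunc.X_ne_zero

theorem uu_ne_zero : uu ≠ 0 := by
  unfold uu
  intro h
  have h1 : (RatFunc.X : K2) = -1 := by linear_combination h
  have h2 := congrArg RatFunc.intDegree h1
  rw [RatFunc.intDegree_X, RatFunc.intDegree_neg, RatFunc.intDegree_one] at h2
  exact one_ne_zero h2

theorem site_zero : site 0 0 = 1 := by simp [site]

theorem site_ne_zero (i j : ℤ) : site i j ≠ 0 :=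
  mul_ne_zero (zpow_ne_zero _ tt_ne_zero) (zpow_ne_zero _ uu_ne_zero)

theorem site_mul (i j i' j' : ℤ) : site i j * site i' j' = site (i + i') (j + j') := by
  unfold site
  rw [zpow_add₀ tt_ne_zero, zpow_add₀ uu_ne_zero]
  ring

theorem char_two (x : K2) : x + x = 0 := CharTwo.add_self_eq_zero x

/-- The three-dot relation. -/
theorem site_rel (i j : ℤ) : site i (j + 1) = site i j + site (i + 1) j := by
  unfold site
  rw [zpow_add₀ tt_ne_zero, zpow_add₀ uu_ne_zero, zpow_one, zpow_one]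
  simp only [uu, tt]
  ring

theorem site_mem (i j : ℤ) : site i j ∈ AA := AddSubgroup.subset_closure ⟨i, j, rfl⟩

theorem site_mul_mem (i j : ℤ) {a : K2} (ha : a ∈ AA) : site i j * a ∈ AA := by
  unfold AA at ha ⊢
  induction ha using AddSubgroup.closure_induction with
  | mem x hx =>
    obtain ⟨i', j', rfl⟩ := hx
    rw [site_mul]
    exact AddSubgroup.subset_closure ⟨_, _, rfl⟩
  | zero => rw [mul_zero]; exact AddSubgroup.zero_mem _
  | add x y _ _ hx hy => rw [mul_add]; exact AddSubgroup.add_mem _ hx hy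
  | neg x _ hx => rw [mul_neg]; exact AddSubgroup.neg_mem _ hx

/-- The group `A ⋊ ℤ²`; the element `(v, i, j)` acts on `K2` by `x ↦ t^i u^j x + v`. -/
@[ext] structure Gam where
  /-- the `A`-part -/
  v : K2
  /-- the first coordinate in `ℤ²` -/
  i : ℤ
  /-- the second coordinate in `ℤ²` -/
  j : ℤ
  /-- the `A`-part lies in `A` -/
  hv : v ∈ AA

namespace Gam

noncomputable instance : Mul Gam :=
  ⟨fun x y => ⟨x.v + site x.i x.j * y.v, x.i + y.i, x.j + y.j,
    AA.add_mem x.hv (site_mul_mem _ _ y.hv)⟩⟩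

noncomputable instance : One Gam := ⟨⟨0, 0, 0, AA.zero_mem⟩⟩

noncomputable instance : Inv Gam :=
  ⟨fun x => ⟨-(site (-x.i) (-x.j) * x.v), -x.i, -x.j, AA.neg_mem (site_mul_mem _ _ x.hv)⟩⟩

@[simp] theorem mul_v (x y : Gam) : (x * y).v = x.v + site x.i x.j * y.v := rfl
@[simp] theorem mul_i (x y : Gam) : (x * y).i = x.i + y.i := rfl
@[simp] theorem mul_j (x y : Gam) : (x * y).j = x.j + y.j := rfl
@[simp] theorem one_v : (1 : Gam).v = 0 := rfl
@[simp] theorem one_i : (1 : Gam).i = 0 := rfl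
@[simp] theorem one_j : (1 : Gam).j = 0 := rfl
@[simp] theorem inv_v (x : Gam) : (x⁻¹).v = -(site (-x.i) (-x.j) * x.v) := rfl
@[simp] theorem inv_i (x : Gam) : (x⁻¹).i = -x.i := rfl
@[simp] theorem inv_j (x : Gam) : (x⁻¹).j = -x.j := rfl

noncomputable instance : Group Gam :=
  Group.ofLeftAxioms
    (fun x y z => by
      ext
      · simp only [mul_v, mul_i, mul_j, ← site_mul]; ring
      · simp only [mul_i]; ring
      · simp only [mul_j]; ring)
    (fun x => by
      ext
      · simp [site_zero]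
      · simp
      · simp)
    (fun x => by
      ext
      · simp
      · simp
      · simp)

/-- The embedding of `A`. -/
noncomputable def ofA (a : K2) (ha : a ∈ AA) : Gam := ⟨a, 0, 0, ha⟩

/-- The splitting of `ℤ²`. -/
noncomputable def ofZ (i j : ℤ) : Gam := ⟨0, i, j, AA.zero_mem⟩

@[simp] theorem ofA_v (a : K2) (ha : a ∈ AA) : (ofA a ha).v = a := rfl
@[simp] theorem ofA_i (a : K2) (ha : a ∈ AA) : (ofA a ha).i = 0 := rfl
@[simp] theorem ofA_j (a : K2) (ha : a ∈ AA) : (ofA a ha).j = 0 := rfl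
@[simp] theorem ofZ_v (i j : ℤ) : (ofZ i j).v = 0 := rfl
@[simp] theorem ofZ_i (i j : ℤ) : (ofZ i j).i = i := rfl
@[simp] theorem ofZ_j (i j : ℤ) : (ofZ i j).j = j := rfl

end Gam

/-- The element `g = 1 + t + t²`, which is prime to `t` and `1 + t`. -/
noncomputable def gg : K2 := 1 + tt + tt ^ 2

theorem gg_mul_mem {a : K2} (ha : a ∈ AA) : gg * a ∈ AA := by
  have h : gg * a = a + site 1 0 * a + site 2 0 * a := by
    simp only [gg, site, zpow_zero, mul_one, zpow_one]
    norm_cast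
    ring
  rw [h]
  exact AA.add_mem (AA.add_mem ha (site_mul_mem _ _ ha)) (site_mul_mem _ _ ha)

/-- The subgroup `gA ⋊ ℤ²`. -/
noncomputable def GamP : Subgroup Gam where
  carrier := {x | ∃ a ∈ AA, x.v = gg * a}
  one_mem' := ⟨0, AA.zero_mem, by simp⟩
  mul_mem' := by
    rintro x y ⟨a, ha, hx⟩ ⟨b, hb, hy⟩
    exact ⟨a + site x.i x.j * b, AA.add_mem ha (site_mul_mem _ _ hb), by
      rw [Gam.mul_v, hx, hy]; ring⟩
  inv_mem' := by
    rintro x ⟨a, ha, hx⟩
    exact ⟨-(site (-x.i) (-x.j) * a), AA.neg_mem (site_mul_mem _ _ ha), by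
      rw [Gam.inv_v, hx]; ring⟩

/-- The iterated images `α^k(Γ)`. -/
noncomputable def Gk (α : Gam →* Gam) : ℕ → Subgroup Gam
  | 0 => ⊤
  | k + 1 => (Gk α k).map α

end Pool.Agent.SelfCover
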