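import Pool.Agent.SelfCover.Fin
import Pool.Agent.SelfCover.Gam

set_option autoImplicit false

/-!
# Comparison of the cohomology for a subgroup isomorphic through a self-map
-/

namespace Pool.Agent.SelfCover

open Finsupp

theorem compare_abstract {V : Type*} [AddCommGroup V] [Module ℚ V] (Z0 B0 Zk Bk F : Submodule ℚ V)
    (hZ : Z0 ≤ Zk) (hB : B0 ≤ Bk) (htr : ∀ x ∈ Z0, x ∈ Bk → x ∈ B0) (P : V ≃ₗ[ℚ] V)
    (hPZ : ∀ x, x ∈ Zk ↔ P x ∈ Z0) (hPB : ∀ x, x ∈ Bk ↔ P x ∈ B0)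
    [FiniteDimensional ℚ F] (hF : Z0 ≤ F ⊔ B0) : Zk ≤ Z0 ⊔ Bk := by
  -- quotient spaces
  let N0 : Submodule ℚ Z0 := B0.comap Z0.subtype
  let Nk : Submodule ℚ Zk := Bk.comap Zk.subtype
  -- finite dimension of the first quotient
  have hfin0 : FiniteDimensional ℚ (Z0 ⧸ N0) := by
    -- Z0 ⧸ N0 embeds in V ⧸ B0 with image contained in the image of F
    let f : (Z0 ⧸ N0) →ₗ[ℚ] (F.map B0.mkQ : Submodule ℚ (V ⧸ B0)) :=
      LinearMap.codRestrict _ (Submodule.mapQ N0 B0 Z0.subtype le_rfl) (by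
        intro x
        obtain ⟨x, rfl⟩ := Submodule.mkQ_surjective N0 x
        obtain ⟨a, ha, b, hb, hab⟩ := Submodule.mem_sup.mp (hF x.2)
        refine ⟨a, ha, ?_⟩
        change (Submodule.Quotient.mk a : V ⧸ B0) = Submodule.Quotient.mk (Z0.subtype x)
        rw [Submodule.Quotient.eq]
        have : a - (Z0.subtype x) = -b := by
          rw [Submodule.subtype_apply, ← hab]; abel
        rw [this]
        exact B0.neg_mem hb)
    have hf : Function.Injective f := by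
      rw [← LinearMap.ker_eq_bot, LinearMap.ker_codRestrict]
      rw [LinearMap.ker_eq_bot']
      intro x hx
      obtain ⟨x, rfl⟩ := Submodule.mkQ_surjective N0 x
      rw [Submodule.mkQ_apply, Submodule.mapQ_apply, Submodule.Quotient.mk_eq_zero] at hx
      rw [Submodule.mkQ_apply, Submodule.Quotient.mk_eq_zero]
      exact hx
    exact FiniteDimensional.of_injective f hf
  -- isomorphism between the quotients
  let PZ : Zk ≃ₗ[ℚ] Z0 := P.ofSubmodules Zk Z0 (by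
    ext x
    simp only [Submodule.mem_map, LinearEquiv.coe_coe]
    constructor
    · rintro ⟨y, hy, rfl⟩
      exact (hPZ y).1 hy
    · intro hx
      exact ⟨P.symm x, (hPZ _).2 (by rwa [P.apply_symm_apply]), P.apply_symm_apply x⟩)
  let e : (Zk ⧸ Nk) ≃ₗ[ℚ] (Z0 ⧸ N0) := Submodule.Quotient.equiv Nk N0 PZ (by
    ext x
    simp only [Submodule.mem_map, LinearEquiv.coe_coe]
    constructor
    · rintro ⟨y, hy, rfl⟩
      exact (hPB y).1 hy
    · intro hx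
      refine ⟨PZ.symm x, ?_, PZ.apply_symm_apply x⟩
      change ((PZ.symm x : Zk) : V) ∈ Bk
      rw [hPB]
      have : P ((PZ.symm x : Zk) : V) = (x : V) := congrArg Subtype.val (PZ.apply_symm_apply x)
      rw [this]
      exact hx)
  have hfink : FiniteDimensional ℚ (Zk ⧸ Nk) := e.symm.finiteDimensional
  have hrank : Module.finrank ℚ (Z0 ⧸ N0) = Module.finrank ℚ (Zk ⧸ Nk) :=
    (LinearEquiv.finrank_eq e).symm
  -- the inclusion map
  let j : (Z0 ⧸ N0) →ₗ[ℚ] (Zk ⧸ Nk) := Submodule.mapQ N0 Nk (Submodule.inclusion hZ) (by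
    intro x hx
    exact hB hx)
  have hj : Function.Injective j := by
    rw [← LinearMap.ker_eq_bot, LinearMap.ker_eq_bot']
    intro x hx
    obtain ⟨x, rfl⟩ := Submodule.mkQ_surjective N0 x
    simp only [j] at hx
    rw [Submodule.mkQ_apply, Submodule.mapQ_apply, Submodule.Quotient.mk_eq_zero] at hx
    rw [Submodule.mkQ_apply, Submodule.Quotient.mk_eq_zero]
    exact htr x.1 x.2 hx
  have hsurj : Function.Surjective j :=
    (LinearMap.injective_iff_surjective_of_finrank_eq_finrank hrank).1 hj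
  intro x hx
  obtain ⟨y, hy⟩ := hsurj (Nk.mkQ ⟨x, hx⟩)
  obtain ⟨y, rfl⟩ := Submodule.mkQ_surjective N0 y
  simp only [j] at hy
  rw [Submodule.mkQ_apply, Submodule.mapQ_apply, Submodule.mkQ_apply,
    Submodule.Quotient.eq] at hy
  have hy' : (y : V) - x ∈ Bk := hy
  rw [Submodule.mem_sup]
  exact ⟨y, y.2, x - y, by rw [← neg_sub]; exact Bk.neg_mem hy', by abel⟩

namespace Geo

/-- A self-map of the geometric data over an endomorphism of the group. -/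
structure SelfMap {G E : Type*} [Group G] [MulAction G E] (S : Geo G E) (α : G →* G) where
  /-- the bijection -/
  F : E ≃ E
  equivariant : ∀ (g : G) y, F (g • y) = α g • F y
  unif : ∀ ε : ℝ, 0 < ε → ∃ δ : ℝ, 0 < δ ∧ ∀ y y', S.near δ y y' → S.near ε (F y) (F y')
  unif' : ∀ ε : ℝ, 0 < ε → ∃ δ : ℝ, 0 < δ ∧ ∀ y y', S.near δ (F y) (F y') → S.near ε y y'

variable {G E : Type*} [Group G] [MulAction G E] {S : Geo G E} {α : G →* G}

/-- pull-back of 2-cochains along the self-map -/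
def SelfMap.pull (T : S.SelfMap α) : (E × E × E → ℚ) ≃ₗ[ℚ] (E × E × E → ℚ) :=
  LinearEquiv.funCongrLeft ℚ ℚ (Equiv.prodCongr T.F (Equiv.prodCongr T.F T.F))

theorem SelfMap.pull_apply (T : S.SelfMap α) (φ : E × E × E → ℚ) (a b c : E) :
    T.pull φ (a, b, c) = φ (T.F a, T.F b, T.F c) := rfl

theorem SelfMap.mem_Z_iff (T : S.SelfMap α) (L : Subgroup G) (φ : E × E × E → ℚ) :
    φ ∈ S.Z (L.map α) ↔ T.pull φ ∈ S.Z L := by
  constructor
  · rintro ⟨h1, η, hη, h2⟩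
    obtain ⟨δ, hδ, hu⟩ := T.unif η hη
    refine ⟨fun g hg y => ?_, δ, hδ, ?_⟩
    · obtain ⟨a, b, c⟩ := y
      simp only [Prod.smul_mk]
      rw [T.pull_apply, T.pull_apply, T.equivariant, T.equivariant, T.equivariant]
      exact h1 (α g) ⟨g, hg, rfl⟩ (T.F a, T.F b, T.F c)
    · rintro ⟨a, b, c, d⟩ ⟨e1, e2, e3, e4, e5, e6⟩
      have := h2 (T.F a, T.F b, T.F c, T.F d)
        ⟨hu _ _ e1, hu _ _ e2, hu _ _ e3, hu _ _ e4, hu _ _ e5, hu _ _ e6⟩
      rw [ext_d3_apply] at this ⊢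
      simpa only [T.pull_apply] using this
  · rintro ⟨h1, η, hη, h2⟩
    obtain ⟨δ, hδ, hu⟩ := T.unif' η hη
    refine ⟨?_, δ, hδ, ?_⟩
    · rintro _ ⟨g, hg, rfl⟩ ⟨a, b, c⟩
      obtain ⟨a, rfl⟩ := T.F.surjective a
      obtain ⟨b, rfl⟩ := T.F.surjective b
      obtain ⟨c, rfl⟩ := T.F.surjective c
      have := h1 g hg (a, b, c)
      simp only [Prod.smul_mk] at this ⊢
      rwa [T.pull_apply, T.pull_apply, T.equivariant, T.equivariant, T.equivariant] at this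
    · rintro ⟨a, b, c, d⟩ ⟨e1, e2, e3, e4, e5, e6⟩
      obtain ⟨a, rfl⟩ := T.F.surjective a
      obtain ⟨b, rfl⟩ := T.F.surjective b
      obtain ⟨c, rfl⟩ := T.F.surjective c
      obtain ⟨d, rfl⟩ := T.F.surjective d
      have := h2 (a, b, c, d)
        ⟨hu _ _ e1, hu _ _ e2, hu _ _ e3, hu _ _ e4, hu _ _ e5, hu _ _ e6⟩
      rw [ext_d3_apply] at this ⊢
      simpa only [T.pull_apply] using this

theorem SelfMap.mem_B_iff (T : S.SelfMap α) (L : Subgroup G) (φ : E × E × E → ℚ) :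
    φ ∈ S.B (L.map α) ↔ T.pull φ ∈ S.B L := by
  constructor
  · rintro ⟨β, h1, η, hη, h2⟩
    obtain ⟨δ, hδ, hu⟩ := T.unif η hη
    refine ⟨fun y => β (T.F y.1, T.F y.2), fun g hg y => ?_, δ, hδ, ?_⟩
    · obtain ⟨a, b⟩ := y
      simp only [Prod.smul_mk]
      rw [T.equivariant, T.equivariant]
      exact h1 (α g) ⟨g, hg, rfl⟩ (T.F a, T.F b)
    · rintro ⟨a, b, c⟩ ⟨e1, e2, e3⟩
      have := h2 (T.F a, T.F b, T.F c) ⟨hu _ _ e1, hu _ _ e2, hu _ _ e3⟩
      rw [cob_apply] at this ⊢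
      simpa only [T.pull_apply] using this
  · rintro ⟨β, h1, η, hη, h2⟩
    obtain ⟨δ, hδ, hu⟩ := T.unif' η hη
    refine ⟨fun y => β (T.F.symm y.1, T.F.symm y.2), ?_, δ, hδ, ?_⟩
    · rintro _ ⟨g, hg, rfl⟩ ⟨a, b⟩
      obtain ⟨a, rfl⟩ := T.F.surjective a
      obtain ⟨b, rfl⟩ := T.F.surjective b
      have := h1 g hg (a, b)
      simp only [Prod.smul_mk] at this ⊢
      rw [← T.equivariant, ← T.equivariant]
      simpa using this
    · rintro ⟨a, b, c⟩ ⟨e1, e2, e3⟩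
      obtain ⟨a, rfl⟩ := T.F.surjective a
      obtain ⟨b, rfl⟩ := T.F.surjective b
      obtain ⟨c, rfl⟩ := T.F.surjective c
      have := h2 (a, b, c) ⟨hu _ _ e1, hu _ _ e2, hu _ _ e3⟩
      rw [cob_apply] at this ⊢
      simpa [T.pull_apply] using this

/-- the iterated equivalence -/
theorem SelfMap.exists_iter (T : S.SelfMap α) (L : ℕ → Subgroup G) (h0 : L 0 = ⊤)
    (hs : ∀ k, L (k + 1) = (L k).map α) (k : ℕ) :
    ∃ P : (E × E × E → ℚ) ≃ₗ[ℚ] (E × E × E → ℚ), (∀ x, x ∈ S.Z (L k) ↔ P x ∈ S.Z ⊤) ∧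
      (∀ x, x ∈ S.B (L k) ↔ P x ∈ S.B ⊤) := by
  induction k with
  | zero => exact ⟨LinearEquiv.refl _ _, fun x => by rw [h0]; rfl, fun x => by rw [h0]; rfl⟩
  | succ k ih =>
    obtain ⟨P, hP1, hP2⟩ := ih
    refine ⟨T.pull.trans P, fun x => ?_, fun x => ?_⟩
    · rw [hs, T.mem_Z_iff, hP1]; rfl
    · rw [hs, T.mem_B_iff, hP2]; rfl

theorem SelfMap.compare (T : S.SelfMap α) (L : ℕ → Subgroup G) (h0 : L 0 = ⊤)
    (hs : ∀ k, L (k + 1) = (L k).map α) (k : ℕ)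
    (htr : ∀ x ∈ S.Z ⊤, x ∈ S.B (L k) → x ∈ S.B ⊤) : S.Z (L k) ≤ S.Z ⊤ ⊔ S.B (L k) := by
  obtain ⟨P, hP1, hP2⟩ := T.exists_iter L h0 hs k
  obtain ⟨F, hF, hF'⟩ := S.fin
  refine compare_abstract (S.Z ⊤) (S.B ⊤) (S.Z (L k)) (S.B (L k)) F (S.Z_anti le_top) ?_ htr P
    hP1 hP2 hF'
  rintro φ ⟨β, h1, h2⟩
  exact ⟨β, fun g _ y => h1 g trivial y, h2⟩

end Geo

end Pool.Agent.SelfCover
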