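import Pool.Agent.SelfCover.Chains

set_option autoImplicit false

/-!
# Acyclicity of small chains in convex sets, and transport
-/

namespace Pool.Agent.SelfCover

open Finsupp

/-- acyclicity in degrees 0, 1, 2: `R'`-small cycles bound `R`-small chains -/
def Acyc {E : Type*} (R' R : E → E → Prop) (D : Set E) : Prop :=
  (∀ y ∈ D, ∀ y' ∈ D, ∃ c ∈ Sm1 R, d1 c = s0 y' - s0 y) ∧
  (∀ z ∈ Sm1 R', d1 z = 0 → ∃ c ∈ Sm2 R, d2 c = z) ∧
  (∀ z ∈ Sm2 R', d2 z = 0 → ∃ c ∈ Sm3 R, d3 c = z)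

theorem Acyc.mono {E : Type*} {R' R S' S : E → E → Prop} {D : Set E} (h : Acyc R' R D)
    (h' : ∀ a b, S' a b → R' a b) (h'' : ∀ a b, R a b → S a b) : Acyc S' S D := by
  refine ⟨fun y hy y' hy' => ?_, fun z hz hd => ?_, fun z hz hd => ?_⟩
  · obtain ⟨c, hc, h1⟩ := h.1 y hy y' hy'
    exact ⟨c, Sm1_mono h'' hc, h1⟩
  · obtain ⟨c, hc, h1⟩ := h.2.1 z (Sm1_mono h' hz) hd
    exact ⟨c, Sm2_mono h'' hc, h1⟩
  · obtain ⟨c, hc, h1⟩ := h.2.2 z (Sm2_mono h' hz) hd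
    exact ⟨c, Sm3_mono h'' hc, h1⟩

theorem Acyc.transport {E F : Type*} {R' R : E → E → Prop} {S' S : F → F → Prop} {D : Set E}
    {K : Set F} (φ : E → F) (ψ : F → E) (h : Acyc S' S K)
    (hφ : ∀ y ∈ D, φ y ∈ K ∧ ψ (φ y) = y)
    (hR' : ∀ y y', R' y y' → y ∈ D ∧ y' ∈ D ∧ S' (φ y) (φ y'))
    (hS : ∀ a b, S a b → R (ψ a) (ψ b)) : Acyc R' R D := by
  refine ⟨fun y hy y' hy' => ?_, fun z hz hd => ?_, fun z hz hd => ?_⟩
  · obtain ⟨c, hc, h1⟩ := h.1 _ (hφ y hy).1 _ (hφ y' hy').1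
    refine ⟨p1 ψ c, p1_mem hS hc, ?_⟩
    rw [d1_p1, h1, map_sub, p0_s0, p0_s0, (hφ y hy).2, (hφ y' hy').2]
  · obtain ⟨c, hc, h1⟩ := h.2.1 (p1 φ z) (p1_mem (fun a b hab => (hR' a b hab).2.2) hz)
      (by rw [d1_p1, hd, map_zero])
    refine ⟨p2 ψ c, p2_mem hS hc, ?_⟩
    rw [d2_p2, h1, p1_p1]
    exact p1_eq_self (fun a b hab => ⟨(hφ _ (hR' a b hab).1).2, (hφ _ (hR' a b hab).2.1).2⟩) hz
  · obtain ⟨c, hc, h1⟩ := h.2.2 (p2 φ z) (p2_mem (fun a b hab => (hR' a b hab).2.2) hz)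
      (by rw [d2_p2, hd, map_zero])
    refine ⟨p3 ψ c, p3_mem hS hc, ?_⟩
    rw [d3_p3, h1, p2_p2]
    exact p2_eq_self (fun a b hab => ⟨(hφ _ (hR' a b hab).1).2, (hφ _ (hR' a b hab).2.1).2⟩) hz

section convex

variable {F : Type*} [NormedAddCommGroup F] [NormedSpace ℝ F]

/-- the contraction towards `x0` -/
noncomputable def ctr (x0 : F) (s : ℝ) (y : F) : F := x0 + s • (y - x0)

theorem dist_ctr_ctr (x0 : F) {s : ℝ} (hs : 0 ≤ s) (a b : F) :
    dist (ctr x0 s a) (ctr x0 s b) = s * dist a b := by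
  unfold ctr
  rw [dist_eq_norm, dist_eq_norm]
  have : x0 + s • (a - x0) - (x0 + s • (b - x0)) = s • (a - b) := by
    rw [smul_sub, smul_sub, smul_sub]; abel
  rw [this, norm_smul, Real.norm_of_nonneg hs]

theorem dist_center_ctr (x0 : F) {s : ℝ} (hs : 0 ≤ s) (a : F) :
    dist x0 (ctr x0 s a) = s * dist x0 a := by
  have := dist_ctr_ctr x0 hs x0 a
  simpa [ctr] using this

theorem dist_self_ctr (x0 : F) {s : ℝ} (hs : s ≤ 1) (a : F) :
    dist a (ctr x0 s a) = (1 - s) * dist x0 a := by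
  unfold ctr
  rw [dist_eq_norm, dist_eq_norm]
  have : a - (x0 + s • (a - x0)) = -((1 - s) • (x0 - a)) := by
    rw [sub_smul, one_smul, smul_sub, smul_sub]; abel
  rw [this, norm_neg, norm_smul, Real.norm_of_nonneg (by linarith)]

theorem ctr_mem {K : Set F} (hK : Convex ℝ K) {x0 : F} (hx : x0 ∈ K) {s : ℝ} (hs : 0 ≤ s)
    (hs1 : s ≤ 1) {a : F} (ha : a ∈ K) : ctr x0 s a ∈ K := by
  have : ctr x0 s a = (1 - s) • x0 + s • a := by
    unfold ctr; rw [sub_smul, one_smul, smul_sub]; abel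
  rw [this]
  exact hK hx ha (by linarith) hs (by ring)

/-- the relation used in the induction -/
def SN (K : Set F) (x0 : F) (s η : ℝ) (n : ℕ) (a b : F) : Prop :=
  a ∈ K ∧ b ∈ K ∧ dist a b < η / 2 ∧ dist x0 a * s ^ n < η ∧ dist x0 b * s ^ n < η

theorem SN_ctr {K : Set F} (hK : Convex ℝ K) {x0 : F} (hx : x0 ∈ K) {s η : ℝ} (hs : 0 ≤ s)
    (hs1 : s ≤ 1) {n : ℕ} {a b : F} (h : SN K x0 s η (n + 1) a b) :
    SN K x0 s η n (ctr x0 s a) (ctr x0 s b) := by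
  obtain ⟨h1, h2, h3, h4, h5⟩ := h
  refine ⟨ctr_mem hK hx hs hs1 h1, ctr_mem hK hx hs hs1 h2, ?_, ?_, ?_⟩
  · rw [dist_ctr_ctr x0 hs]
    have : s * dist a b ≤ 1 * dist a b := mul_le_mul_of_nonneg_right hs1 dist_nonneg
    linarith
  · rw [dist_center_ctr x0 hs]
    calc s * dist x0 a * s ^ n = dist x0 a * s ^ (n + 1) := by ring
      _ < η := h4
  · rw [dist_center_ctr x0 hs]
    calc s * dist x0 b * s ^ n = dist x0 b * s ^ (n + 1) := by ring
      _ < η := h5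

/-- small in `K` at scale `η` -/
def KN (K : Set F) (η : ℝ) (a b : F) : Prop := a ∈ K ∧ b ∈ K ∧ dist a b < η

theorem KN_of_SN {K : Set F} {x0 : F} {s η : ℝ} (hη : 0 < η) {n : ℕ} {a b : F}
    (h : SN K x0 s η n a b) : KN K η a b := ⟨h.1, h.2.1, by linarith [h.2.2.1]⟩

theorem acyc1_aux {K : Set F} (hK : Convex ℝ K) {x0 : F} (hx : x0 ∈ K) {s η : ℝ} (hη : 0 < η)
    (hs : 0 ≤ s) (hs1 : s ≤ 1) (hD : ∀ a ∈ K, (1 - s) * dist x0 a < η / 2) (n : ℕ) :
    ∀ z ∈ Sm1 (SN K x0 s η n), d1 z = 0 → ∃ c ∈ Sm2 (KN K η), d2 c = z := by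
  induction n with
  | zero =>
    intro z hz hd
    refine ⟨k1 x0 z, ?_, by rw [d2_k1, hd, map_zero, sub_zero]⟩
    refine map_supported ?_ hz
    rintro ⟨a, b⟩ hab
    change k1 x0 (s1 a b) ∈ _
    rw [k1_s1]
    obtain ⟨h1, h2, h3, h4, h5⟩ := hab
    simp only [pow_zero, mul_one] at h4 h5
    exact s2_mem ⟨hx, h1, h4⟩ ⟨hx, h2, h5⟩ ⟨h1, h2, by linarith⟩
  | succ n ih =>
    intro z hz hd
    have hz' : p1 (ctr x0 s) z ∈ Sm1 (SN K x0 s η n) :=
      p1_mem (fun a b hab => SN_ctr hK hx hs hs1 hab) hz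
    obtain ⟨c, hc, hc'⟩ := ih _ hz' (by rw [d1_p1, hd, map_zero])
    refine ⟨c - h1 (ctr x0 s) z, sub_mem hc ?_, ?_⟩
    · refine map_supported ?_ hz
      rintro ⟨a, b⟩ hab
      change h1 _ (s1 a b) ∈ _
      rw [h1_s1]
      have hab' : SN K x0 s η (n + 1) a b := hab
      have hH := SN_ctr hK hx hs hs1 hab'
      obtain ⟨e1, e2, e3, e4, e5⟩ := hab'
      have f1 : dist a (ctr x0 s a) < η / 2 := by rw [dist_self_ctr x0 hs1]; exact hD a e1
      have f2 : dist b (ctr x0 s b) < η / 2 := by rw [dist_self_ctr x0 hs1]; exact hD b e2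
      have f3 : dist a (ctr x0 s b) < η := by
        calc dist a (ctr x0 s b) ≤ dist a b + dist b (ctr x0 s b) := dist_triangle _ _ _
          _ < η := by linarith
      exact sub_mem (s2_mem ⟨e1, hH.1, by linarith⟩ ⟨e1, hH.2.1, f3⟩ (KN_of_SN hη hH))
        (s2_mem ⟨e1, e2, by linarith⟩ ⟨e1, hH.2.1, f3⟩ ⟨e2, hH.2.1, by linarith⟩)
    · rw [map_sub, hc', d2_h1, hd, map_zero]; abel

theorem acyc2_aux {K : Set F} (hK : Convex ℝ K) {x0 : F} (hx : x0 ∈ K) {s η : ℝ} (hη : 0 < η)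
    (hs : 0 ≤ s) (hs1 : s ≤ 1) (hD : ∀ a ∈ K, (1 - s) * dist x0 a < η / 2) (n : ℕ) :
    ∀ z ∈ Sm2 (SN K x0 s η n), d2 z = 0 → ∃ c ∈ Sm3 (KN K η), d3 c = z := by
  induction n with
  | zero =>
    intro z hz hd
    refine ⟨k2 x0 z, ?_, by rw [d3_k2, hd, map_zero, sub_zero]⟩
    refine map_supported ?_ hz
    rintro ⟨a, b, c⟩ ⟨hab, hac, hbc⟩
    change k2 x0 (s2 a b c) ∈ _
    rw [k2_s2]
    obtain ⟨h1, h2, h3, h4, h5⟩ := hab
    obtain ⟨-, h2', h3', h4', h5'⟩ := hac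
    simp only [pow_zero, mul_one] at h4 h5 h5'
    exact s3_mem ⟨hx, h1, h4⟩ ⟨hx, h2, h5⟩ ⟨hx, h2', h5'⟩ ⟨h1, h2, by dsimp only at *; linarith⟩
      ⟨h1, h2', by dsimp only at *; linarith⟩ (KN_of_SN hη hbc)
  | succ n ih =>
    intro z hz hd
    have hz' : p2 (ctr x0 s) z ∈ Sm2 (SN K x0 s η n) :=
      p2_mem (fun a b hab => SN_ctr hK hx hs hs1 hab) hz
    obtain ⟨c, hc, hc'⟩ := ih _ hz' (by rw [d2_p2, hd, map_zero])
    refine ⟨c - h2 (ctr x0 s) z, sub_mem hc ?_, ?_⟩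
    · refine map_supported ?_ hz
      rintro ⟨a, b, c⟩ ⟨hab, hac, hbc⟩
      change h2 _ (s2 a b c) ∈ _
      rw [h2_s2]
      have hab' : SN K x0 s η (n + 1) a b := hab
      have hac' : SN K x0 s η (n + 1) a c := hac
      have hbc' : SN K x0 s η (n + 1) b c := hbc
      have hHab := SN_ctr hK hx hs hs1 hab'
      have hHac := SN_ctr hK hx hs hs1 hac'
      have hHbc := SN_ctr hK hx hs hs1 hbc'
      have hKab := KN_of_SN hη hab'
      have hKac := KN_of_SN hη hac'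
      have hKbc := KN_of_SN hη hbc'
      have key : ∀ x ∈ K, ∀ y ∈ K, dist x y < η / 2 → KN K η x (ctr x0 s y) := by
        intro x hx1 y hy1 hxy
        refine ⟨hx1, ctr_mem hK hx hs hs1 hy1, ?_⟩
        have : dist y (ctr x0 s y) < η / 2 := by rw [dist_self_ctr x0 hs1]; exact hD y hy1
        calc dist x (ctr x0 s y) ≤ dist x y + dist y (ctr x0 s y) := dist_triangle _ _ _
          _ < η := by linarith
      have kaa := key a hab'.1 a hab'.1 (by rw [dist_self]; linarith)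
      have kab := key a hab'.1 b hab'.2.1 hab'.2.2.1
      have kac := key a hab'.1 c hac'.2.1 hac'.2.2.1
      have kbb := key b hab'.2.1 b hab'.2.1 (by rw [dist_self]; linarith)
      have kbc := key b hab'.2.1 c hac'.2.1 hbc'.2.2.1
      have kcc := key c hac'.2.1 c hac'.2.1 (by rw [dist_self]; linarith)
      exact add_mem (sub_mem
        (s3_mem kaa kab kac (KN_of_SN hη hHab) (KN_of_SN hη hHac) (KN_of_SN hη hHbc))
        (s3_mem hKab kab kac kbb kbc (KN_of_SN hη hHbc)))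
        (s3_mem hKab hKac kac hKbc kbc kcc)
    · rw [map_sub, hc', d3_h2, hd, map_zero]; abel

theorem acyc0_aux {K : Set F} (hK : Convex ℝ K) {x0 : F} (hx : x0 ∈ K) {s η : ℝ} (hη : 0 < η)
    (hs : 0 ≤ s) (hs1 : s ≤ 1) (hD : ∀ a ∈ K, (1 - s) * dist x0 a < η / 2) (n : ℕ) :
    ∀ a ∈ K, dist x0 a * s ^ n < η → ∃ c ∈ Sm1 (KN K η), d1 c = s0 a - s0 x0 := by
  induction n with
  | zero =>
    intro a ha hd
    simp only [pow_zero, mul_one] at hd
    exact ⟨s1 x0 a, s1_mem ⟨hx, ha, hd⟩, by simp⟩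
  | succ n ih =>
    intro a ha hd
    obtain ⟨c, hc, hc'⟩ := ih (ctr x0 s a) (ctr_mem hK hx hs hs1 ha) (by
      rw [dist_center_ctr x0 hs]
      calc s * dist x0 a * s ^ n = dist x0 a * s ^ (n + 1) := by ring
        _ < η := hd)
    refine ⟨c - s1 a (ctr x0 s a), sub_mem hc (s1_mem ⟨ha, ctr_mem hK hx hs hs1 ha, ?_⟩), ?_⟩
    · rw [dist_self_ctr x0 hs1]; linarith [hD a ha]
    · rw [map_sub, hc', d1_s1]; abel

theorem acyc_convex {K : Set F} (hK : Convex ℝ K) (hb : Bornology.IsBounded K) {η : ℝ}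
    (hη : 0 < η) : Acyc (KN K (η / 2)) (KN K η) K := by
  rcases K.eq_empty_or_nonempty with rfl | ⟨x0, hx⟩
  · refine ⟨fun y hy => hy.elim, fun z hz _ => ⟨0, zero_mem _, ?_⟩,
      fun z hz _ => ⟨0, zero_mem _, ?_⟩⟩
    · have : z = 0 := by
        have := eq_on_supported (f := LinearMap.id) (g := 0) (c := z) (s := q1 (KN ∅ (η / 2)))
          (by rintro ⟨a, b⟩ h; exact h.1.elim) hz
        simpa using this
      simp [this]
    · have : z = 0 := by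
        have := eq_on_supported (f := LinearMap.id) (g := 0) (c := z) (s := q2 (KN ∅ (η / 2)))
          (by rintro ⟨a, b⟩ h; exact h.1.1.elim) hz
        simpa using this
      simp [this]
  obtain ⟨D, hD⟩ := hb.subset_closedBall x0
  have hD' : ∀ a ∈ K, dist x0 a ≤ max D 1 := fun a ha => by
    rw [dist_comm]; exact (hD ha).trans (le_max_left _ _)
  set D' := max D 1 with hD'def
  have hD1 : 1 ≤ D' := le_max_right _ _
  -- the contraction factor
  set r : ℝ := min (1 / 2) (η / (4 * D')) with hr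
  have hr0 : 0 < r := lt_min (by norm_num) (by positivity)
  have hr1 : r ≤ 1 / 2 := min_le_left _ _
  have hr2 : r * D' < η / 2 := by
    have : r ≤ η / (4 * D') := min_le_right _ _
    calc r * D' ≤ η / (4 * D') * D' := mul_le_mul_of_nonneg_right this (by linarith)
      _ = η / 4 := by field_simp
      _ < η / 2 := by linarith
  set s : ℝ := 1 - r with hs
  have hs0 : 0 ≤ s := by linarith
  have hs1 : s < 1 := by linarith
  have hDs : ∀ a ∈ K, (1 - s) * dist x0 a < η / 2 := fun a ha => by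
    have : 1 - s = r := by rw [hs]; ring
    rw [this]
    calc r * dist x0 a ≤ r * D' := mul_le_mul_of_nonneg_left (hD' a ha) hr0.le
      _ < η / 2 := hr2
  obtain ⟨n, hn⟩ : ∃ n : ℕ, D' * s ^ n < η := by
    obtain ⟨n, hn⟩ := exists_pow_lt_of_lt_one (show 0 < η / D' by positivity) hs1
    exact ⟨n, by rw [lt_div_iff₀ (by linarith)] at hn; linarith⟩
  have hn' : ∀ a ∈ K, dist x0 a * s ^ n < η := fun a ha =>
    lt_of_le_of_lt (mul_le_mul_of_nonneg_right (hD' a ha) (pow_nonneg hs0 n)) hn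
  have hsm : ∀ a b, KN K (η / 2) a b → SN K x0 s η n a b := fun a b h =>
    ⟨h.1, h.2.1, h.2.2, hn' a h.1, hn' b h.2.1⟩
  refine ⟨fun y hy y' hy' => ?_, fun z hz hd => ?_, fun z hz hd => ?_⟩
  · obtain ⟨c, hc, hc'⟩ := acyc0_aux hK hx hη hs0 hs1.le hDs n y hy (hn' y hy)
    obtain ⟨c2, hc2, hc2'⟩ := acyc0_aux hK hx hη hs0 hs1.le hDs n y' hy' (hn' y' hy')
    exact ⟨c2 - c, sub_mem hc2 hc, by rw [map_sub, hc', hc2']; abel⟩
  · exact acyc1_aux hK hx hη hs0 hs1.le hDs n z (Sm1_mono hsm hz) hd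
  · exact acyc2_aux hK hx hη hs0 hs1.le hDs n z (Sm2_mono hsm hz) hd

end convex

end Pool.Agent.SelfCover
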