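import Pool.Agent.SelfCover.Geo

set_option autoImplicit false

/-!
# Finite-dimensionality of the second cohomology of invariant small cochains
-/

namespace Pool.Agent.SelfCover

open Finsupp

namespace Geo

variable {G E : Type*} [Group G] [MulAction G E] (S : Geo G E)

/-- coboundary of a 1-cochain -/
noncomputable def cob (β : E × E → ℚ) (y : E × E × E) : ℚ := ext β (d2 (single y 1))

theorem cob_apply (β : E × E → ℚ) (a b c : E) :
    cob β (a, b, c) = β (b, c) - β (a, c) + β (a, b) := by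
  change ext β (d2 (s2 a b c)) = _
  simp

/-- `φ` is closed on `η`-small simplices -/
def Closed (η : ℝ) (φ : E × E × E → ℚ) : Prop :=
  ∀ y ∈ q3 (S.near η), ext φ (d3 (single y 1)) = 0

theorem ext_d3_apply (φ : E × E × E → ℚ) (a b c d : E) :
    ext φ (d3 (single (a, b, c, d) 1)) = φ (b, c, d) - φ (a, c, d) + φ (a, b, d) - φ (a, b, c) := by
  change ext φ (d3 (s3 a b c d)) = _
  simp

variable {S} in
theorem Closed.chain {η : ℝ} {φ : E × E × E → ℚ} (h : S.Closed η φ) {c : C3 E}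
    (hc : c ∈ Sm3 (S.near η)) : ext φ (d3 c) = 0 := by
  have := eq_on_supported (f := (ext φ).comp d3) (g := 0) (c := c) (s := q3 (S.near η))
    (fun a ha => h a ha) hc
  exact this

variable {S} in
theorem Closed.mono {η η' : ℝ} {φ : E × E × E → ℚ} (h : S.Closed η φ) (h' : η' ≤ η) :
    S.Closed η' φ := fun y hy => h y (q3_mono (fun _ _ hab => S.mono h' hab) hy)

/-- invariant closed cochains -/
def Z (L : Subgroup G) : Submodule ℚ (E × E × E → ℚ) where
  carrier := {φ | (∀ g ∈ L, ∀ y, φ (g • y) = φ y) ∧ ∃ η : ℝ, 0 < η ∧ S.Closed η φ}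
  zero_mem' := ⟨fun _ _ _ => rfl, 1, one_pos, fun y _ => by
    obtain ⟨a, b, c, d⟩ := y
    rw [ext_d3_apply]; simp⟩
  add_mem' := by
    rintro φ ψ ⟨h1, η, hη, h2⟩ ⟨h1', η', hη', h2'⟩
    refine ⟨fun g hg y => by simp [h1 g hg y, h1' g hg y], min η η', lt_min hη hη', fun y hy => ?_⟩
    have k1 := h2.mono (min_le_left η η') y hy
    have k2 := h2'.mono (min_le_right η η') y hy
    obtain ⟨a, b, c, d⟩ := y
    rw [ext_d3_apply] at k1 k2 ⊢
    simp only [Pi.add_apply]
    linarith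
  smul_mem' := by
    rintro r φ ⟨h1, η, hη, h2⟩
    refine ⟨fun g hg y => by simp [h1 g hg y], η, hη, fun y hy => ?_⟩
    have k1 := h2 y hy
    obtain ⟨a, b, c, d⟩ := y
    rw [ext_d3_apply] at k1 ⊢
    simp only [Pi.smul_apply, smul_eq_mul]
    linear_combination r * k1

/-- coboundaries of invariant cochains -/
def B (L : Subgroup G) : Submodule ℚ (E × E × E → ℚ) where
  carrier := {φ | ∃ β : E × E → ℚ, (∀ g ∈ L, ∀ y, β (g • y) = β y) ∧ ∃ η : ℝ, 0 < η ∧
    ∀ y ∈ q2 (S.near η), φ y = cob β y}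
  zero_mem' := ⟨0, fun _ _ _ => rfl, 1, one_pos, fun y _ => by
    obtain ⟨a, b, c⟩ := y
    rw [cob_apply]; simp⟩
  add_mem' := by
    rintro φ ψ ⟨β, h1, η, hη, h2⟩ ⟨β', h1', η', hη', h2'⟩
    refine ⟨β + β', fun g hg y => by simp [h1 g hg y, h1' g hg y], min η η', lt_min hη hη',
      fun y hy => ?_⟩
    have k1 := h2 y (q2_mono (fun _ _ hab => S.mono (min_le_left η η') hab) hy)
    have k2 := h2' y (q2_mono (fun _ _ hab => S.mono (min_le_right η η') hab) hy)
    obtain ⟨a, b, c⟩ := y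
    rw [cob_apply] at k1 k2 ⊢
    simp only [Pi.add_apply]
    linarith
  smul_mem' := by
    rintro r φ ⟨β, h1, η, hη, h2⟩
    refine ⟨r • β, fun g hg y => by simp [h1 g hg y], η, hη, fun y hy => ?_⟩
    have k1 := h2 y hy
    obtain ⟨a, b, c⟩ := y
    rw [cob_apply] at k1 ⊢
    simp only [Pi.smul_apply, smul_eq_mul]
    linear_combination r * k1

theorem mem_Z {L : Subgroup G} {φ : E × E × E → ℚ} : φ ∈ S.Z L ↔
    (∀ g ∈ L, ∀ y, φ (g • y) = φ y) ∧ ∃ η : ℝ, 0 < η ∧ S.Closed η φ := Iff.rfl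

theorem mem_B {L : Subgroup G} {φ : E × E × E → ℚ} : φ ∈ S.B L ↔
    ∃ β : E × E → ℚ, (∀ g ∈ L, ∀ y, β (g • y) = β y) ∧ ∃ η : ℝ, 0 < η ∧
    ∀ y ∈ q2 (S.near η), φ y = cob β y := Iff.rfl

theorem Z_anti {L L' : Subgroup G} (h : L ≤ L') : S.Z L' ≤ S.Z L :=
  fun _ hφ => ⟨fun g hg => hφ.1 g (h hg), hφ.2⟩

/-- Labels: an equivariant discretization. -/
theorem exists_labels {ρ : ℝ} (hρ : 0 < ρ) : ∃ (N : Finset E) (lam : E → G) (nu : E → E),
    (∀ y, nu y ∈ N) ∧ (∀ y, S.near ρ y (lam y • nu y)) ∧ (∀ (g : G) y, lam (g • y) = g * lam y) ∧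
    (∀ (g : G) y, nu (g • y) = nu y) := by
  obtain ⟨N, hN⟩ := S.net hρ
  obtain ⟨F, hF, hF'⟩ := equivariant_choice (G := G) (X := E) (Y := G × E)
    (fun g y => S.free g y) (fun g p => (g * p.1, p.2)) (fun g h y => by simp [mul_assoc])
    (fun y p => p.2 ∈ N ∧ S.near ρ y (p.1 • p.2)) (by
      rintro g y p ⟨h1, h2⟩
      refine ⟨h1, ?_⟩
      change S.near ρ (g • y) ((g * p.1) • p.2)
      rw [mul_smul]
      exact S.inv g h2) (by
      intro y
      obtain ⟨g, n, hn, h⟩ := hN y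
      exact ⟨(g, n), hn, h⟩)
  exact ⟨N, fun y => (F y).1, fun y => (F y).2, fun y => (hF y).1, fun y => (hF y).2,
    fun g y => by simp only [hF'], fun g y => by simp only [hF']⟩

/-- Finiteness of the set of jumps. -/
theorem finite_jumps : ∃ ε : ℝ, 0 < ε ∧ ∀ N : Finset E,
    {g : G | ∃ n ∈ N, ∃ n' ∈ N, S.near ε n (g • n')}.Finite := by
  obtain ⟨ε, hε, hs⟩ := S.sep
  refine ⟨ε / 2, by positivity, fun N => ?_⟩
  have : {g : G | ∃ n ∈ N, ∃ n' ∈ N, S.near (ε / 2) n (g • n')} =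
      ⋃ n ∈ N, ⋃ n' ∈ N, {g : G | S.near (ε / 2) n (g • n')} := by
    ext g; simp
  rw [this]
  refine Set.Finite.biUnion (Finset.finite_toSet N) fun n _ =>
    Set.Finite.biUnion (Finset.finite_toSet N) fun n' _ => ?_
  apply Set.Subsingleton.finite
  intro g hg g' hg'
  have h1 : S.near ε (g • n') (g' • n') := S.mono (by linarith) (S.tri (S.symm hg) hg')
  have h2 : S.near ε (g • n') ((g' * g⁻¹) • (g • n')) := by
    rwa [mul_smul, inv_smul_smul]
  have := hs _ _ h2
  exact (mul_inv_eq_one.mp this).symm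

/-- Finite-dimensionality. -/
theorem fin : ∃ F : Submodule ℚ (E × E × E → ℚ), FiniteDimensional ℚ F ∧
    S.Z ⊤ ≤ F ⊔ S.B ⊤ := by
  classical
  obtain ⟨δ, hδ, href⟩ := S.exists_refine one_pos
  obtain ⟨ε0, hε0, hJ⟩ := S.finite_jumps
  set ρ : ℝ := min δ ε0 / 3 with hρ
  have hρpos : 0 < ρ := by
    have := lt_min hδ hε0
    positivity
  have hρ1 : 3 * ρ ≤ δ := by
    have := min_le_left δ ε0
    rw [hρ]; linarith
  have hρ2 : 3 * ρ ≤ ε0 := by
    have := min_le_right δ ε0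
    rw [hρ]; linarith
  obtain ⟨N, lam, nu, hnu, hnear, hlam, hnus⟩ := S.exists_labels hρpos
  set J := (hJ N).toFinset with hJdef
  -- the retraction
  set r : E → E := fun y => lam y • nu y with hr
  have hrs : ∀ (g : G) y, r (g • y) = g • r y := fun g y => by
    simp only [hr, hlam, hnus, mul_smul]
  -- keys
  let key : E × E × E → E × (G × E) × (G × E) := fun y =>
    (nu y.1, ((lam y.1)⁻¹ * lam y.2.1, nu y.2.1), ((lam y.1)⁻¹ * lam y.2.2, nu y.2.2))
  let Key : Finset (E × (G × E) × (G × E)) := N ×ˢ ((J ×ˢ N) ×ˢ (J ×ˢ N))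
  let e : E × (G × E) × (G × E) → (E × E × E → ℚ) := fun κ y => if key y = κ then 1 else 0
  let F : Submodule ℚ (E × E × E → ℚ) := Submodule.span ℚ (Key.image e : Finset _)
  refine ⟨F, FiniteDimensional.span_finset ℚ _, ?_⟩
  rintro φ ⟨hinv, η, hη, hcl⟩
  obtain ⟨η₁, hη₁, ⟨R⟩⟩ := href η hη
  -- the extended cocycle
  set φ' : E × E × E → ℚ := fun y => ext φ (R.c2 y) with hφ'
  have hφ'inv : ∀ (g : G) y, φ' (g • y) = φ' y := by
    intro g y
    simp only [hφ']
    rw [R.c2_smul]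
    have : (ext φ).comp (g2 g) = ext φ := lin_ext (by
      rintro ⟨a, b, c⟩
      change ext φ (g2 g (s2 a b c)) = ext φ (s2 a b c)
      simp only [g2, p2_s2, ext_s2]
      exact hinv g trivial (a, b, c))
    exact LinearMap.congr_fun this _
  have hext : ∀ c : C2 E, ext φ' c = ext φ (ext R.c2 c) := by
    intro c
    have : ext φ' = (ext φ).comp (ext R.c2) := lin_ext (by
      intro a
      simp only [LinearMap.comp_apply]
      rw [ext_single, ext_single])
    exact LinearMap.congr_fun this c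
  have hφ'cl : S.Closed δ φ' := by
    intro y hy
    rw [hext, ← R.c3_d y hy]
    exact hcl.chain (Sm3_mono (fun a b hab => hab.1) (R.c3_mem y))
  -- the discretized cocycle
  set ψ : E × E × E → ℚ := ∑ κ ∈ Key, φ' (κ.1, κ.2.1.1 • κ.2.1.2, κ.2.2.1 • κ.2.2.2) • e κ with hψ
  have hψF : ψ ∈ F := Submodule.sum_mem _ fun κ hκ => Submodule.smul_mem _ _
    (Submodule.subset_span (by
      rw [Finset.coe_image]
      exact ⟨κ, hκ, rfl⟩))
  have hψeq : ∀ y, key y ∈ Key → ψ y = φ' (r y.1, r y.2.1, r y.2.2) := by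
    intro y hy
    have h1 : ψ y = φ' ((key y).1, (key y).2.1.1 • (key y).2.1.2,
        (key y).2.2.1 • (key y).2.2.2) := by
      simp only [hψ, Finset.sum_apply, Pi.smul_apply, smul_eq_mul, e, mul_ite, mul_one, mul_zero]
      rw [Finset.sum_ite_eq Key (key y), if_pos hy]
    rw [h1, ← hφ'inv (lam y.1)]
    congr 1
    simp only [key, Prod.smul_mk, mul_smul, hr, smul_inv_smul]
  rw [Submodule.mem_sup]
  refine ⟨ψ, hψF, φ - ψ, ?_, by abel⟩
  set β : E × E → ℚ := fun y => - ext φ' (h1 r (single y 1)) with hβ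
  have hβ' : ∀ a b, β (a, b) = - (φ' (a, r a, r b) - φ' (a, b, r b)) := by
    intro a b
    simp only [hβ]
    change - ext φ' (h1 r (s1 a b)) = _
    simp
  refine ⟨β, fun g _ y => ?_, min ρ η₁, lt_min hρpos hη₁, fun y hy => ?_⟩
  · obtain ⟨a, b⟩ := y
    rw [Prod.smul_mk, hβ', hβ', hrs, hrs]
    have k1 := hφ'inv g (a, r a, r b)
    have k2 := hφ'inv g (a, b, r b)
    simp only [Prod.smul_mk] at k1 k2
    rw [k1, k2]
  · obtain ⟨a, b, c⟩ := y
    obtain ⟨hab, hac, hbc⟩ := hy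
    simp only at hab hac hbc
    have hmin1 := min_le_left ρ η₁
    have hmin2 := min_le_right ρ η₁
    -- φ = φ' on this simplex
    have e1 : φ' (a, b, c) = φ (a, b, c) := by
      simp only [hφ']
      rw [R.c2_id (a, b, c) ⟨S.mono hmin2 hab, S.mono hmin2 hac, S.mono hmin2 hbc⟩]
      exact ext_single _ _
    have nab := S.mono hmin1 hab
    have nac := S.mono hmin1 hac
    have nbc := S.mono hmin1 hbc
    -- near relations
    have k1 : ∀ x, S.near δ x (r x) := fun x => S.mono (by linarith) (hnear x)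
    have k2 : ∀ x y, S.near ρ x y → S.near δ x (r y) := fun x y h =>
      S.mono (by linarith) (S.tri h (hnear y))
    have k3 : ∀ x y, S.near ρ x y → S.near (3 * ρ) (r x) (r y) := fun x y h =>
      S.mono (by linarith) (S.tri (S.symm (hnear x)) (S.tri h (hnear y)))
    have k3' : ∀ x y, S.near ρ x y → S.near δ (r x) (r y) := fun x y h => S.mono hρ1 (k3 x y h)
    have k4 : ∀ x y, S.near ρ x y → S.near δ x y := fun x y h => S.mono (by linarith) h
    have hkey : key (a, b, c) ∈ Key := by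
      have hj : ∀ x y, S.near ρ x y → (lam x)⁻¹ * lam y ∈ J := by
        intro x y h
        rw [hJdef, Set.Finite.mem_toFinset]
        refine ⟨nu x, hnu x, nu y, hnu y, ?_⟩
        have := S.inv (lam x)⁻¹ (k3 x y h)
        simp only [hr, inv_smul_smul] at this
        rw [mul_smul]
        exact S.mono hρ2 this
      simp only [key, Key, Finset.mem_product]
      exact ⟨hnu a, ⟨hj a b nab, hnu b⟩, hj a c nac, hnu c⟩
    have e2 := hψeq (a, b, c) hkey
    -- prism
    have e3 : ext φ' (d3 (h2 r (s2 a b c))) = 0 := by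
      apply hφ'cl.chain
      rw [h2_s2]
      exact add_mem (sub_mem
        (s3_mem (k1 a) (k2 _ _ nab) (k2 _ _ nac) (k3' _ _ nab) (k3' _ _ nac) (k3' _ _ nbc))
        (s3_mem (k4 _ _ nab) (k2 _ _ nab) (k2 _ _ nac) (k1 b) (k2 _ _ nbc) (k3' _ _ nbc)))
        (s3_mem (k4 _ _ nab) (k4 _ _ nac) (k2 _ _ nac) (k4 _ _ nbc) (k2 _ _ nbc) (k1 c))
    rw [d3_h2, map_sub, map_sub, p2_s2, ext_s2, ext_s2, d2_s2, map_add, map_sub, h1_s1, h1_s1,
      h1_s1] at e3
    simp only [map_add, map_sub, ext_s2] at e3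
    rw [cob_apply, hβ', hβ', hβ', Pi.sub_apply, e2, ← e1]
    simp only
    linarith

end Geo

end Pool.Agent.SelfCover
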