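import Mathlib

set_option autoImplicit false

/-!
# The lattice contradiction and the geometry of zero triangles
-/

namespace Pool.Agent.SelfCover

/-- the threshold function -/
def PP (m j : ℤ) : ℚ := if m < j then 1 else 0

/-- The total circulation around the triangle. -/
theorem lattice_contradiction (n m r : ℕ) (hm : r < m) (hn : 2 * m + 2 * r + 2 ≤ n)
    (w1 w2 t1 t2 b : ℕ → ℕ → ℚ) (one : ℕ → ℕ → Prop)
    (hsq : ∀ i j, i + j + 2 ≤ n → w1 i j + w2 (i + 1) j - w1 i (j + 1) - w2 i j =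
      t1 i j + t2 (i + 1) j - t1 i (j + 1) - t2 i j)
    (h1 : ∀ i j, one i j → one (i + 1) j → w1 i j = (b i j - b (i + 1) j) / 2)
    (h2 : ∀ i j, one i j → one i (j + 1) → w2 i j = (b i j - b i (j + 1)) / 2)
    (h3 : ∀ i j, one (i + 1) j → one i (j + 1) →
      w2 i j - w1 i j = (b (i + 1) j - b i (j + 1)) / 2)
    (o1 : ∀ i, 1 ≤ i → i + 1 ≤ n → one i 0)
    (o2 : ∀ j, 1 ≤ j → j + 1 ≤ n → one 0 j)
    (o3 : ∀ i j, 1 ≤ i → 1 ≤ j → i + j = n → one i j)
    (T : ∀ i j, (i + r < m ∨ j + r < m ∨ m + r < j) → t1 i j = 0 ∧ t2 i j = 0)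
    (T' : ∀ i j, m + r < i → t1 i j = 0 ∧ t2 i j = PP m (j + 1) - PP m j) : False := by
  set g1 : ℕ → ℕ → ℚ := fun i j => w1 i j - t1 i j with hg1
  set g2 : ℕ → ℕ → ℚ := fun i j => w2 i j - t2 i j with hg2
  set F : ℕ → ℕ → ℚ := fun i j => ∑ j' ∈ Finset.range j, g2 0 j' + ∑ i' ∈ Finset.range i, g1 i' j
    with hF
  have F1 : ∀ i j, F (i + 1) j - F i j = g1 i j := by
    intro i j
    simp only [hF, Finset.sum_range_succ]
    ring
  have F2 : ∀ j i, i + j + 1 ≤ n → F i (j + 1) - F i j = g2 i j := by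
    intro j i
    induction i with
    | zero =>
      intro _
      simp only [hF, Finset.sum_range_succ, Finset.sum_range_zero]
      ring
    | succ i ih =>
      intro hi
      have e1 := ih (by omega)
      have e2 := F1 i j
      have e3 := F1 i (j + 1)
      have e4 := hsq i j (by omega)
      simp only [hg1, hg2] at e1 e2 e3 ⊢
      linarith
  set Ψ : ℕ → ℕ → ℚ := fun i j => F i j + b i j / 2 with hΨ
  -- bottom
  have bot : ∀ i, 1 ≤ i → i + 1 ≤ n → Ψ i 0 = Ψ 1 0 := by
    intro i hi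
    induction i, hi using Nat.le_induction with
    | base => intro _; rfl
    | succ i hi ih =>
      intro hin
      have e1 := ih (by omega)
      have e2 := F1 i 0
      have e3 := h1 i 0 (o1 i hi (by omega)) (o1 (i + 1) (by omega) hin)
      have e4 := T i 0 (by omega)
      simp only [hg1] at e2
      simp only [hΨ] at e1 ⊢
      linarith [e4.1]
  have rt : Ψ (n - 1) 1 = Ψ (n - 1) 0 := by
    have e2 := F2 0 (n - 1) (by omega)
    have e3 := h2 (n - 1) 0 (o1 _ (by omega) (by omega)) (o3 _ _ (by omega) (by omega) (by omega))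
    have e4 := T (n - 1) 0 (by omega)
    simp only [hg2, zero_add] at e2 e3
    simp only [hΨ]
    linarith [e4.2]
  -- hypotenuse
  have hyp : ∀ j, 1 ≤ j → j + 1 ≤ n → Ψ (n - j) j + PP m j = Ψ (n - 1) 1 := by
    intro j hj
    induction j, hj using Nat.le_induction with
    | base =>
      intro _
      have : PP m (1 : ℕ) = 0 := by
        unfold PP
        rw [if_neg]; push_cast; omega
      rw [this, add_zero]
    | succ j hj ih =>
      intro hjn
      have e1 := ih (by omega)
      obtain ⟨i, hi⟩ : ∃ i, n - (j + 1) = i := ⟨_, rfl⟩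
      have hi1 : n - j = i + 1 := by omega
      have hipos : 1 ≤ i := by omega
      rw [hi1] at e1
      rw [hi]
      have e2 := F1 i j
      have e3 := F2 j i (by omega)
      have e4 := h3 i j (o3 _ _ (by omega) hj (by omega)) (o3 _ _ hipos (by omega) (by omega))
      have e5 : t2 i j - t1 i j = PP m (j + 1) - PP m j := by
        by_cases c1 : j + r < m
        · have := T i j (Or.inr (Or.inl c1))
          rw [this.1, this.2]
          unfold PP
          rw [if_neg (by omega), if_neg (by omega)]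
        · by_cases c2 : m + r < j
          · have := T i j (Or.inr (Or.inr c2))
            rw [this.1, this.2]
            unfold PP
            rw [if_pos (by omega), if_pos (by omega)]
            ring
          · have := T' i j (by omega)
            rw [this.1, this.2]
            ring
      have e6 : PP m ((j + 1 : ℕ) : ℤ) = PP m (j + 1) := by push_cast; rfl
      rw [e6]
      simp only [hg1, hg2] at e2 e3
      simp only [hΨ] at e1 ⊢
      linarith
  have top : Ψ 1 (n - 1) = Ψ 0 (n - 1) := by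
    have e2 := F1 0 (n - 1)
    have e3 := h1 0 (n - 1) (o2 _ (by omega) (by omega)) (o3 _ _ (by omega) (by omega) (by omega))
    have e4 := T 0 (n - 1) (by omega)
    simp only [hg1, zero_add] at e2 e3
    simp only [hΨ]
    linarith [e4.1]
  have left : ∀ j, 1 ≤ j → j + 1 ≤ n → Ψ 0 j = Ψ 0 1 := by
    intro j hj
    induction j, hj using Nat.le_induction with
    | base => intro _; rfl
    | succ j hj ih =>
      intro hjn
      have e1 := ih (by omega)
      have e2 := F2 j 0 (by omega)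
      have e3 := h2 0 j (o2 j hj (by omega)) (o2 (j + 1) (by omega) hjn)
      have e4 := T 0 j (by omega)
      simp only [hg2] at e2
      simp only [hΨ] at e1 ⊢
      linarith [e4.2]
  have cor : Ψ 0 1 = Ψ 1 0 := by
    have e2 := F1 0 0
    have e3 := F2 0 0 (by omega)
    have e4 := h3 0 0 (o1 _ (by omega) (by omega)) (o2 _ (by omega) (by omega))
    have e5 := T 0 0 (by omega)
    simp only [hg1, hg2, zero_add] at e2 e3 e4
    simp only [hΨ]
    linarith [e5.1, e5.2]
  have f1 := bot (n - 1) (by omega) (by omega)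
  have f2 := hyp (n - 1) (by omega) (by omega)
  have f3 := left (n - 1) (by omega) (by omega)
  have f4 : n - (n - 1) = 1 := by omega
  have f5 : PP m ((n - 1 : ℕ) : ℤ) = 1 := by
    unfold PP
    rw [if_pos (by omega)]
  rw [f4, f5] at f2
  linarith

/-- A stabilizing translation moving a point of the triangle deep inside the triangle is trivial. -/
theorem triangle_stab (n m r : ℤ) (hr : 0 ≤ r) (hm : 3 * r + 2 ≤ m) (hn : 2 * m + 6 * r + 4 ≤ n)
    (x : ℤ → ℤ → ZMod 2)
    (hz : ∀ i j : ℤ, 1 ≤ i → 1 ≤ j → i + j ≤ n - 1 → x i j = 0)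
    (h1 : ∀ i : ℤ, 1 ≤ i → i ≤ n - 1 → x i 0 = 1)
    (h2 : ∀ j : ℤ, 1 ≤ j → j ≤ n - 1 → x 0 j = 1)
    (h3 : ∀ i j : ℤ, 1 ≤ i → 1 ≤ j → i + j = n → x i j = 1)
    (a b : ℤ) (hst : ∀ i j, x (i + a) (j + b) = x i j)
    (p q : ℤ) (hp : 0 ≤ p) (hq : 0 ≤ q) (hpq : p + q ≤ n)
    (hpa : |p + a - m| ≤ 3 * r) (hqb : |q + b - m| ≤ 3 * r) : a = 0 ∧ b = 0 := by
  rw [abs_le] at hpa hqb
  have key : ∀ i j, x i j = 1 → ¬ (1 ≤ i + a ∧ 1 ≤ j + b ∧ i + a + (j + b) ≤ n - 1) := by
    rintro i j hij ⟨e1, e2, e3⟩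
    have := hst i j
    rw [hij, hz _ _ e1 e2 e3] at this
    exact absurd this (by decide)
  by_contra hne
  have hcases : 0 < a ∨ 0 < b ∨ a + b < 0 := by omega
  rcases hcases with ha | hb | hab
  · -- the side `i = 0`
    refine key 0 (max 1 (1 - b)) (h2 _ (le_max_left _ _) ?_) ⟨by omega, ?_, ?_⟩
    · rw [max_le_iff]; omega
    · have := le_max_right 1 (1 - b); omega
    · rcases max_choice 1 (1 - b) with h | h <;> rw [h] <;> omega
  · refine key (max 1 (1 - a)) 0 (h1 _ (le_max_left _ _) ?_) ⟨?_, by omega, ?_⟩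
    · rw [max_le_iff]; omega
    · have := le_max_right 1 (1 - a); omega
    · rcases max_choice 1 (1 - a) with h | h <;> rw [h] <;> omega
  · -- the hypotenuse
    have hi : ∃ i : ℤ, 1 ≤ i ∧ 1 ≤ i + a ∧ i ≤ n - 1 ∧ i ≤ n + b - 1 ∧
        (i = 1 ∨ i = 1 - a) := by
      by_cases h : 0 ≤ a
      · exact ⟨1, by omega, by omega, by omega, by omega, Or.inl rfl⟩
      · exact ⟨1 - a, by omega, by omega, by omega, by omega, Or.inr rfl⟩
    obtain ⟨i, i1, i2, i3, i4, i5⟩ := hi
    exact key i (n - i) (h3 _ _ i1 (by omega) (by omega)) ⟨i2, by omega, by omega⟩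

end Pool.Agent.SelfCover
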