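import Pool.Agent.SelfCover.Avg
import Pool.Agent.SelfCover.Lattice

set_option autoImplicit false

/-!
# The cocycle `κ` and its periodization `Φ`
-/

namespace Pool.Agent.SelfCover

open Finsupp

/-- elements of the group of size at most `r` -/
def inRad (r : ℕ) (s : Gam) : Prop :=
  |s.i| ≤ r ∧ |s.j| ≤ r ∧
    s.v ∈ AddSubgroup.closure {x | ∃ i j : ℤ, |i| ≤ r ∧ |j| ≤ r ∧ x = site i j}

theorem inRad_mono {r r' : ℕ} (h : r ≤ r') {s : Gam} (hs : inRad r s) : inRad r' s := by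
  have h' : (r : ℤ) ≤ r' := by exact_mod_cast h
  refine ⟨hs.1.trans h', hs.2.1.trans h', AddSubgroup.closure_mono ?_ hs.2.2⟩
  rintro x ⟨i, j, hi, hj, rfl⟩
  exact ⟨i, j, hi.trans h', hj.trans h', rfl⟩

theorem exists_rad_v (v : K2) (hv : v ∈ AA) :
    ∃ r : ℕ, v ∈ AddSubgroup.closure {x | ∃ i j : ℤ, |i| ≤ r ∧ |j| ≤ r ∧ x = site i j} := by
  have mono : ∀ {r r' : ℕ}, r ≤ r' →
      AddSubgroup.closure {x | ∃ i j : ℤ, |i| ≤ r ∧ |j| ≤ r ∧ x = site i j} ≤
      AddSubgroup.closure {x | ∃ i j : ℤ, |i| ≤ r' ∧ |j| ≤ r' ∧ x = site i j} := by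
    intro r r' h
    have h' : (r : ℤ) ≤ r' := by exact_mod_cast h
    refine AddSubgroup.closure_mono ?_
    rintro x ⟨i, j, hi, hj, rfl⟩
    exact ⟨i, j, hi.trans h', hj.trans h', rfl⟩
  unfold AA at hv
  induction hv using AddSubgroup.closure_induction with
  | mem x hx =>
    obtain ⟨i, j, rfl⟩ := hx
    refine ⟨i.natAbs + j.natAbs, AddSubgroup.subset_closure ⟨i, j, ?_, ?_, rfl⟩⟩
    · push_cast; linarith [abs_nonneg j]
    · push_cast; linarith [abs_nonneg i]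
  | zero => exact ⟨0, AddSubgroup.zero_mem _⟩
  | add x y _ _ hx hy =>
    obtain ⟨r, hr⟩ := hx
    obtain ⟨r', hr'⟩ := hy
    exact ⟨max r r', AddSubgroup.add_mem _ (mono (le_max_left _ _) hr)
      (mono (le_max_right _ _) hr')⟩
  | neg x _ hx =>
    obtain ⟨r, hr⟩ := hx
    exact ⟨r, AddSubgroup.neg_mem _ hr⟩

theorem exists_rad (s : Gam) : ∃ r : ℕ, inRad r s := by
  obtain ⟨r, hr⟩ := exists_rad_v s.v s.hv
  have h0 : (0 : ℤ) ≤ r := Nat.cast_nonneg r
  have h1 := abs_nonneg s.i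
  have h2 := abs_nonneg s.j
  refine ⟨r + s.i.natAbs + s.j.natAbs, ?_, ?_, ?_⟩
  · push_cast; linarith
  · push_cast; linarith
  · refine AddSubgroup.closure_mono ?_ hr
    rintro x ⟨i, j, hi, hj, rfl⟩
    exact ⟨i, j, by push_cast; linarith, by push_cast; linarith, rfl⟩

theorem exists_rad_finite {J : Set Gam} (hJ : J.Finite) : ∃ r : ℕ, ∀ s ∈ J, inRad r s := by
  induction J, hJ using Set.Finite.induction_on with
  | empty => exact ⟨0, fun s hs => hs.elim⟩
  | insert _ _ ih =>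
    rename_i a s _ _
    obtain ⟨r, hr⟩ := ih
    obtain ⟨r', hr'⟩ := exists_rad a
    refine ⟨max r r', fun t ht => ?_⟩
    rcases ht with rfl | ht
    · exact inRad_mono (le_max_right _ _) hr'
    · exact inRad_mono (le_max_left _ _) (hr t ht)

/-- the configuration of a character -/
noncomputable def xx (X : AA →+ ZMod 2) (i j : ℤ) : ZMod 2 := X ⟨site i j, site_mem i j⟩

theorem X_site_mul (X : AA →+ ZMod 2) {i j : ℤ} {r : ℕ}
    (hz : ∀ p q : ℤ, |p| ≤ r → |q| ≤ r → xx X (i + p) (j + q) = 0) {s : Gam} (hs : inRad r s)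
    (h : site i j * s.v ∈ AA) : X ⟨site i j * s.v, h⟩ = 0 := by
  have key : ∀ v ∈ AddSubgroup.closure {x | ∃ i j : ℤ, |i| ≤ r ∧ |j| ≤ r ∧ x = site i j},
      ∀ h : site i j * v ∈ AA, X ⟨site i j * v, h⟩ = 0 := by
    intro v h3
    induction h3 using AddSubgroup.closure_induction with
    | mem x hx =>
      obtain ⟨p, q, hp, hq, rfl⟩ := hx
      intro h
      have := hz p q hp hq
      unfold xx at this
      rw [← this]
      congr 1
      ext
      exact site_mul _ _ _ _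
    | zero =>
      intro h
      have : (⟨site i j * 0, h⟩ : AA) = 0 := by ext; simp
      rw [this, map_zero]
    | add x y hx' hy' hx hy =>
      intro h
      have mx : x ∈ AA := AddSubgroup.closure_mono (by
        rintro _ ⟨i, j, -, -, rfl⟩; exact ⟨i, j, rfl⟩) hx'
      have my : y ∈ AA := AddSubgroup.closure_mono (by
        rintro _ ⟨i, j, -, -, rfl⟩; exact ⟨i, j, rfl⟩) hy'
      have : (⟨site i j * (x + y), h⟩ : AA) =
          ⟨site i j * x, site_mul_mem i j mx⟩ + ⟨site i j * y, site_mul_mem i j my⟩ := by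
        ext; simp [mul_add]
      rw [this, map_add, hx, hy, add_zero]
    | neg x hx' hx =>
      intro h
      have mx : x ∈ AA := AddSubgroup.closure_mono (by
        rintro _ ⟨i, j, -, -, rfl⟩; exact ⟨i, j, rfl⟩) hx'
      have : (⟨site i j * -x, h⟩ : AA) = -⟨site i j * x, site_mul_mem i j mx⟩ := by
        ext; simp
      rw [this, map_neg, hx, neg_zero]
  exact key _ hs.2.2 h

/-- the shifted character -/
noncomputable def Xsh (X : AA →+ ZMod 2) (i j : ℤ) : AA →+ ZMod 2 where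
  toFun a := X (sm i j a)
  map_zero' := by
    have : sm i j 0 = 0 := by ext; simp [sm]
    rw [this, map_zero]
  map_add' a b := by rw [sm_add, map_add]

theorem Xsh_apply (X : AA →+ ZMod 2) (i j : ℤ) (a : AA) : Xsh X i j a = X (sm i j a) := rfl

theorem xx_Xsh (X : AA →+ ZMod 2) (i j p q : ℤ) : xx (Xsh X i j) p q = xx X (i + p) (j + q) := by
  unfold xx
  rw [Xsh_apply]
  congr 1
  ext
  exact site_mul _ _ _ _

section kappa

variable {E : Type*} [MulAction Gam E] {S : Geo Gam E} {lam : E → Gam}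
  {εJ : ℝ} {r : ℕ} {m n : ℤ} {X : AA →+ ZMod 2}

/-- the sign of a point -/
noncomputable def sig (lam : E → Gam) (X : AA →+ ZMod 2) (y : E) : ℚ :=
  sg (X ⟨(lam y).v, (lam y).hv⟩)

theorem sig_oA (hlam : ∀ (g : Gam) y, lam (g • y) = g * lam y) (a : AA) (y : E) :
    sig lam X (oA a • y) = sg (X a) * sig lam X y := by
  unfold sig
  rw [← sg_add, ← map_add]
  congr 2
  ext
  simp only [hlam]
  simp [oA, site_zero]

theorem sig_eq_of_near (hJ : ∀ y y', S.near εJ y y' → inRad r ((lam y)⁻¹ * lam y')) {y y' : E}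
    (h : S.near εJ y y')
    (hz : ∀ p q : ℤ, |p| ≤ r → |q| ≤ r → xx X ((lam y).i + p) ((lam y).j + q) = 0) :
    sig lam X y' = sig lam X y := by
  unfold sig
  have h1 := hJ y y' h
  set s := (lam y)⁻¹ * lam y' with hs
  have h2 : lam y' = lam y * s := by rw [hs, mul_inv_cancel_left]
  have h3 : (⟨(lam y').v, (lam y').hv⟩ : AA) = ⟨(lam y).v, (lam y).hv⟩ +
      ⟨site (lam y).i (lam y).j * s.v, site_mul_mem _ _ s.hv⟩ := by
    ext
    simp only [AddSubgroup.coe_add]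
    rw [h2]; rfl
  rw [h3, map_add, X_site_mul X hz h1, add_zero]

/-- the untwisted cocycle -/
noncomputable def kap1 (lam : E → Gam) (m : ℤ) (y : E × E × E) : ℚ :=
  (PP m (lam y.2.1).i - PP m (lam y.1).i) * (PP m (lam y.2.2).j - PP m (lam y.2.1).j)

/-- the cocycle `κ` -/
noncomputable def kap (lam : E → Gam) (X : AA →+ ZMod 2) (m : ℤ) (r : ℕ) (y : E × E × E) : ℚ :=
  open Classical in
  if |(lam y.1).i - m| ≤ 2 * r ∧ |(lam y.1).j - m| ≤ 2 * r then
    sig lam X y.1 * kap1 lam m y else 0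

theorem kap_oA (hlam : ∀ (g : Gam) y, lam (g • y) = g * lam y) (a : AA) (y : E × E × E) :
    kap lam X m r (oA a • y) = sg (X a) * kap lam X m r y := by
  obtain ⟨y0, y1, y2⟩ := y
  unfold kap kap1
  simp only [Prod.smul_mk, sig_oA hlam]
  simp only [hlam, Gam.mul_i, Gam.mul_j, oA, Gam.ofA_i, Gam.ofA_j, zero_add]
  split_ifs
  · ring
  · ring

theorem PP_ne {i j : ℤ} (h : PP m i - PP m j ≠ 0) : (m < i ∧ j ≤ m) ∨ (m < j ∧ i ≤ m) := by
  unfold PP at h
  by_cases h1 : m < i <;> by_cases h2 : m < j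
  · simp [h1, h2] at h
  · exact Or.inl ⟨h1, not_lt.1 h2⟩
  · exact Or.inr ⟨h2, not_lt.1 h1⟩
  · simp [h1, h2] at h

theorem near_ij (hJ : ∀ y y', S.near εJ y y' → inRad r ((lam y)⁻¹ * lam y')) {y y' : E}
    (h : S.near εJ y y') : |(lam y').i - (lam y).i| ≤ r ∧ |(lam y').j - (lam y).j| ≤ r := by
  have h1 := hJ y y' h
  refine ⟨?_, ?_⟩
  · have := h1.1
    simp only [Gam.mul_i, Gam.inv_i] at this
    rwa [neg_add_eq_sub] at this
  · have := h1.2.1
    simp only [Gam.mul_j, Gam.inv_j] at this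
    rwa [neg_add_eq_sub] at this

theorem kap1_ne_zero (hJ : ∀ y y', S.near εJ y y' → inRad r ((lam y)⁻¹ * lam y'))
    {y : E × E × E} (hy : y ∈ q2 (S.near εJ)) (h : kap1 lam m y ≠ 0) :
    |(lam y.1).i - m| ≤ 2 * r ∧ |(lam y.1).j - m| ≤ 2 * r := by
  obtain ⟨a, b, c⟩ := y
  obtain ⟨hab, hac, hbc⟩ := hy
  simp only at hab hac hbc
  unfold kap1 at h
  simp only at h
  have h1 := PP_ne (left_ne_zero_of_mul h)
  have h2 := PP_ne (right_ne_zero_of_mul h)
  have e1 := near_ij hJ hab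
  have e2 := near_ij hJ hac
  have e3 := near_ij hJ hbc
  simp only [abs_le] at e1 e2 e3 ⊢
  omega

theorem kap_eq (hJ : ∀ y y', S.near εJ y y' → inRad r ((lam y)⁻¹ * lam y'))
    {y : E × E × E} (hy : y ∈ q2 (S.near εJ)) :
    kap lam X m r y = sig lam X y.1 * kap1 lam m y := by
  unfold kap
  split_ifs with h
  · rfl
  · by_cases h' : kap1 lam m y = 0
    · rw [h', mul_zero]
    · exact absurd (kap1_ne_zero hJ hy h') h

theorem kap_closed (hJ : ∀ y y', S.near εJ y y' → inRad r ((lam y)⁻¹ * lam y'))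
    (hz : ∀ p q : ℤ, |p - m| ≤ 4 * r → |q - m| ≤ 4 * r → xx X p q = 0) :
    S.Closed εJ (kap lam X m r) := by
  rintro ⟨a, b, c, d⟩ ⟨hab, hac, had, hbc, hbd, hcd⟩
  simp only at hab hac had hbc hbd hcd
  rw [Geo.ext_d3_apply]
  have k1 := kap_eq (X := X) (m := m) hJ (y := (b, c, d)) ⟨hbc, hbd, hcd⟩
  have k2 := kap_eq (X := X) (m := m) hJ (y := (a, c, d)) ⟨hac, had, hcd⟩
  have k3 := kap_eq (X := X) (m := m) hJ (y := (a, b, d)) ⟨hab, had, hbd⟩
  have k4 := kap_eq (X := X) (m := m) hJ (y := (a, b, c)) ⟨hab, hac, hbc⟩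
  rw [k1, k2, k3, k4]
  unfold kap1
  simp only
  by_cases h : (PP m (lam c).i - PP m (lam b).i) * (PP m (lam d).j - PP m (lam c).j) = 0
  · linear_combination (sig lam X b - sig lam X a) * h
  · have h1 := PP_ne (left_ne_zero_of_mul h)
    have h2 := PP_ne (right_ne_zero_of_mul h)
    have e1 := near_ij hJ hab
    have e2 := near_ij hJ hbc
    have e3 := near_ij hJ hcd
    have hs : sig lam X b = sig lam X a := by
      refine sig_eq_of_near hJ hab fun p q hp hq => hz _ _ ?_ ?_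
      · simp only [abs_le] at e1 e2 e3 hp hq ⊢
        omega
      · simp only [abs_le] at e1 e2 e3 hp hq ⊢
        omega
    rw [hs]
    ring

/-- the periodized cocycle -/
noncomputable def Phi (lam : E → Gam) (X : AA →+ ZMod 2) (m : ℤ) (r : ℕ) (sec : ℤ × ℤ → Gam)
    (y : E × E × E) : ℚ := ∑ᶠ w : ℤ × ℤ, kap lam X m r (sec w • y)

/-- the index window -/
noncomputable def Win (m : ℤ) (R : ℤ) (g : Gam) : Finset (ℤ × ℤ) :=
  Finset.Icc (m - R - g.i) (m + R - g.i) ×ˢ Finset.Icc (m - R - g.j) (m + R - g.j)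

theorem mem_Win {R : ℤ} {g : Gam} {w : ℤ × ℤ} :
    w ∈ Win m R g ↔ |w.1 + g.i - m| ≤ R ∧ |w.2 + g.j - m| ≤ R := by
  unfold Win
  rw [Finset.mem_product, Finset.mem_Icc, Finset.mem_Icc, abs_le, abs_le]
  omega

theorem Phi_eq_sum (hlam : ∀ (g : Gam) y, lam (g • y) = g * lam y) {sec : ℤ × ℤ → Gam}
    (hsec : ∀ w, (sec w).i = w.1 ∧ (sec w).j = w.2) (y : E × E × E) (W : Finset (ℤ × ℤ))
    (hW : Win m (2 * r) (lam y.1) ⊆ W) :
    Phi lam X m r sec y = ∑ w ∈ W, kap lam X m r (sec w • y) := by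
  unfold Phi
  apply finsum_eq_sum_of_support_subset
  intro w hw
  rw [Function.mem_support] at hw
  apply hW
  rw [mem_Win]
  by_contra h
  apply hw
  unfold kap
  rw [if_neg]
  obtain ⟨y0, y1, y2⟩ := y
  simp only [Prod.smul_mk, hlam, Gam.mul_i, Gam.mul_j, (hsec w).1, (hsec w).2]
  exact h

variable {L : Subgroup Gam}

theorem sec_mul {sec : ℤ × ℤ → Gam} (hsecL : ∀ w, sec w ∈ L)
    (hsec : ∀ w, (sec w).i = w.1 ∧ (sec w).j = w.2) {l : Gam} (hl : l ∈ L) (w : ℤ × ℤ) :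
    ∃ b ∈ IA L, sec w * l = oA b * sec (w + (l.i, l.j)) := by
  set g := sec w * l * (sec (w + (l.i, l.j)))⁻¹ with hg
  have hi : g.i = 0 := by
    simp only [hg, Gam.mul_i, Gam.inv_i, (hsec _).1, Prod.fst_add]; ring
  have hj : g.j = 0 := by
    simp only [hg, Gam.mul_j, Gam.inv_j, (hsec _).2, Prod.snd_add]; ring
  have h2 : oA ⟨g.v, g.hv⟩ = g := by
    ext
    · rfl
    · exact hi.symm
    · exact hj.symm
  refine ⟨⟨g.v, g.hv⟩, ?_, ?_⟩
  · rw [mem_IA, h2, hg]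
    exact L.mul_mem (L.mul_mem (hsecL _) hl) (L.inv_mem (hsecL _))
  · rw [h2, hg, inv_mul_cancel_right]

theorem Phi_inv (hlam : ∀ (g : Gam) y, lam (g • y) = g * lam y) {sec : ℤ × ℤ → Gam}
    (hsecL : ∀ w, sec w ∈ L) (hsec : ∀ w, (sec w).i = w.1 ∧ (sec w).j = w.2)
    (hX : ∀ a ∈ IA L, X a = 0) {l : Gam} (hl : l ∈ L) (y : E × E × E) :
    Phi lam X m r sec (l • y) = Phi lam X m r sec y := by
  unfold Phi
  rw [← finsum_comp_equiv (Equiv.addRight ((l.i, l.j) : ℤ × ℤ))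
    (f := fun w => kap lam X m r (sec w • y))]
  apply finsum_congr
  intro w
  obtain ⟨b, hb, hb'⟩ := sec_mul hsecL hsec hl w
  rw [← mul_smul, hb', mul_smul, kap_oA hlam, hX b hb, sg_zero, one_mul]
  rfl

theorem Phi_closed (hlam : ∀ (g : Gam) y, lam (g • y) = g * lam y) {sec : ℤ × ℤ → Gam}
    (hsec : ∀ w, (sec w).i = w.1 ∧ (sec w).j = w.2)
    (hJ : ∀ y y', S.near εJ y y' → inRad r ((lam y)⁻¹ * lam y'))
    (hz : ∀ p q : ℤ, |p - m| ≤ 4 * r → |q - m| ≤ 4 * r → xx X p q = 0) :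
    S.Closed εJ (Phi lam X m r sec) := by
  rintro ⟨a, b, c, d⟩ ⟨hab, hac, had, hbc, hbd, hcd⟩
  simp only at hab hac had hbc hbd hcd
  rw [Geo.ext_d3_apply]
  set W := Win m (3 * r) (lam a) with hWdef
  have hWa : Win m (2 * r) (lam a) ⊆ W := by
    intro w hw
    rw [hWdef, mem_Win]
    rw [mem_Win] at hw
    omega
  have hWb : Win m (2 * r) (lam b) ⊆ W := by
    intro w hw
    rw [hWdef, mem_Win]
    rw [mem_Win] at hw
    have := near_ij hJ hab
    simp only [abs_le] at hw this ⊢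
    omega
  rw [Phi_eq_sum hlam hsec (b, c, d) W hWb, Phi_eq_sum hlam hsec (a, c, d) W hWa,
    Phi_eq_sum hlam hsec (a, b, d) W hWa, Phi_eq_sum hlam hsec (a, b, c) W hWa,
    ← Finset.sum_sub_distrib, ← Finset.sum_add_distrib, ← Finset.sum_sub_distrib]
  apply Finset.sum_eq_zero
  intro w _
  have := kap_closed (X := X) (m := m) hJ hz (sec w • a, sec w • b, sec w • c, sec w • d)
    ⟨S.inv _ hab, S.inv _ hac, S.inv _ had, S.inv _ hbc, S.inv _ hbd, S.inv _ hcd⟩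
  rw [Geo.ext_d3_apply] at this
  simpa only [Prod.smul_mk] using this

theorem Xsh_IA {sec : ℤ × ℤ → Gam}
    (hsecL : ∀ w, sec w ∈ L) (hsec : ∀ w, (sec w).i = w.1 ∧ (sec w).j = w.2)
    (hX : ∀ a ∈ IA L, X a = 0) (w : ℤ × ℤ) : ∀ a ∈ IA L, Xsh X w.1 w.2 a = 0 := by
  intro a ha
  rw [Xsh_apply]
  apply hX
  have := sm_mem_IA (hsecL w) ha
  rwa [(hsec w).1, (hsec w).2] at this

open Classical in
theorem avg_Phi [Fintype (AA ⧸ IA L)] (hlam : ∀ (g : Gam) y, lam (g • y) = g * lam y)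
    {sec : ℤ × ℤ → Gam}
    (hsecL : ∀ w, sec w ∈ L) (hsec : ∀ w, (sec w).i = w.1 ∧ (sec w).j = w.2)
    (hX : ∀ a ∈ IA L, X a = 0) {X' : AA →+ ZMod 2} (hX' : ∀ a ∈ IA L, X' a = 0)
    (y : E × E × E) : avg L X' (Phi lam X m r sec) y =
      ∑ w ∈ Win m (2 * r) (lam y.1), if X' = Xsh X w.1 w.2 then kap lam X m r (sec w • y) else 0 := by
  have h1 : ∀ a : AA, Phi lam X m r sec (oA a • y) =
      (fun z => ∑ w ∈ Win m (2 * r) (lam y.1), kap lam X m r (sec w • z)) (oA a • y) := by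
    intro a
    apply Phi_eq_sum hlam hsec
    intro w hw
    rw [mem_Win] at hw ⊢
    obtain ⟨y0, y1, y2⟩ := y
    simpa [hlam, oA] using hw
  rw [avg_congr (ψ' := fun z => ∑ w ∈ Win m (2 * r) (lam y.1), kap lam X m r (sec w • z)) X' h1,
    avg_sum]
  apply Finset.sum_congr rfl
  intro w _
  refine avg_eigen hX' (Xsh_IA hsecL hsec hX w) ?_
  intro a
  rw [← mul_smul, conj_oA, mul_smul, kap_oA hlam, (hsec w).1, (hsec w).2, Xsh_apply]

theorem avg_zero_Phi [Fintype (AA ⧸ IA L)] (hlam : ∀ (g : Gam) y, lam (g • y) = g * lam y)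
    {sec : ℤ × ℤ → Gam}
    (hsecL : ∀ w, sec w ∈ L) (hsec : ∀ w, (sec w).i = w.1 ∧ (sec w).j = w.2)
    (hX : ∀ a ∈ IA L, X a = 0) (hX0 : X ≠ 0) (y : E × E × E) :
    avg L 0 (Phi lam X m r sec) y = 0 := by
  rw [avg_Phi hlam hsecL hsec hX (fun _ _ => rfl)]
  apply Finset.sum_eq_zero
  intro w _
  rw [if_neg]
  intro h
  apply hX0
  ext a
  have : Xsh X w.1 w.2 (sm (-w.1) (-w.2) a) = 0 := by rw [← h]; rfl
  rw [Xsh_apply, sm_sm] at this
  simpa [sm_zero] using this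

/-- evaluation near a site where `X` is one -/
theorem avg_Phi_one [Fintype (AA ⧸ IA L)] (hlam : ∀ (g : Gam) y, lam (g • y) = g * lam y)
    {sec : ℤ × ℤ → Gam}
    (hsecL : ∀ w, sec w ∈ L) (hsec : ∀ w, (sec w).i = w.1 ∧ (sec w).j = w.2)
    (hX : ∀ a ∈ IA L, X a = 0)
    (hz : ∀ p q : ℤ, |p - m| ≤ 4 * r → |q - m| ≤ 4 * r → xx X p q = 0)
    (y : E × E × E) {p q : ℤ} (hpq : xx X p q = 1) (hp : |(lam y.1).i - p| ≤ r)
    (hq : |(lam y.1).j - q| ≤ r) : avg L X (Phi lam X m r sec) y = 0 := by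
  rw [avg_Phi hlam hsecL hsec hX hX]
  apply Finset.sum_eq_zero
  intro w hw
  rw [mem_Win] at hw
  rw [if_neg]
  intro h
  have h1 : xx X p q = xx X (w.1 + p) (w.2 + q) := by
    rw [← xx_Xsh, ← h]
  rw [hpq, hz (w.1 + p) (w.2 + q)] at h1
  · exact absurd h1 (by decide)
  · simp only [abs_le] at hw hp hq ⊢
    omega
  · simp only [abs_le] at hw hp hq ⊢
    omega

/-- evaluation near the triangle -/
theorem avg_Phi_tri [Fintype (AA ⧸ IA L)] (hlam : ∀ (g : Gam) y, lam (g • y) = g * lam y)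
    {sec : ℤ × ℤ → Gam}
    (hsecL : ∀ w, sec w ∈ L) (hsec : ∀ w, (sec w).i = w.1 ∧ (sec w).j = w.2)
    (hX : ∀ a ∈ IA L, X a = 0)
    (hm : 4 * r + 2 ≤ m) (hn : 2 * m + 8 * r + 4 ≤ n)
    (hz : ∀ i j : ℤ, 1 ≤ i → 1 ≤ j → i + j ≤ n - 1 → xx X i j = 0)
    (h1 : ∀ i : ℤ, 1 ≤ i → i ≤ n - 1 → xx X i 0 = 1)
    (h2 : ∀ j : ℤ, 1 ≤ j → j ≤ n - 1 → xx X 0 j = 1)
    (h3 : ∀ i j : ℤ, 1 ≤ i → 1 ≤ j → i + j = n → xx X i j = 1)
    (y : E × E × E) {p q : ℤ} (hp0 : 0 ≤ p) (hq0 : 0 ≤ q) (hpq : p + q ≤ n)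
    (hp : |(lam y.1).i - p| ≤ r) (hq : |(lam y.1).j - q| ≤ r) :
    avg L X (Phi lam X m r sec) y = kap lam X m r y := by
  rw [avg_Phi hlam hsecL hsec hX hX]
  -- only the term `w = 0` can contribute
  have key : ∀ w ∈ Win m (2 * r) (lam y.1), X = Xsh X w.1 w.2 → w = 0 := by
    intro w hw h
    rw [mem_Win] at hw
    have hst : ∀ i j, xx X (i + w.1) (j + w.2) = xx X i j := by
      intro i j
      conv_rhs => rw [h]
      rw [xx_Xsh, add_comm i, add_comm j]
    have := triangle_stab n m r (by positivity) (by omega) (by omega) (xx X) hz h1 h2 h3 w.1 w.2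
      hst p q hp0 hq0 hpq (by
        simp only [abs_le] at hw hp hq ⊢
        omega) (by
        simp only [abs_le] at hw hp hq ⊢
        omega)
    exact Prod.ext this.1 this.2
  have hsec0 : kap lam X m r (sec 0 • y) = kap lam X m r y := by
    have h0 : sec 0 = oA ⟨(sec 0).v, (sec 0).hv⟩ := by
      ext
      · rfl
      · exact (hsec 0).1
      · exact (hsec 0).2
    have h0' : (⟨(sec 0).v, (sec 0).hv⟩ : AA) ∈ IA L := by
      rw [mem_IA, ← h0]; exact hsecL 0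
    rw [h0, kap_oA hlam, hX _ h0', sg_zero, one_mul]
  by_cases h0 : (0 : ℤ × ℤ) ∈ Win m (2 * r) (lam y.1)
  · rw [Finset.sum_eq_single 0]
    · rw [if_pos, hsec0]
      ext a
      rw [Xsh_apply]
      simp [sm_zero]
    · intro w hw hw0
      rw [if_neg]
      intro h
      exact hw0 (key w hw h)
    · intro h
      exact absurd h0 h
  · rw [Finset.sum_eq_zero]
    · unfold kap
      rw [if_neg]
      rw [mem_Win] at h0
      simpa using h0
    · intro w hw
      rw [if_neg]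
      intro h
      have := key w hw h
      rw [this] at hw
      exact h0 hw

/-- untwisting near the triangle -/
theorem kap_eq_kap1 (hJ : ∀ y y', S.near εJ y y' → inRad r ((lam y)⁻¹ * lam y'))
    (hz : ∀ p q : ℤ, |p - m| ≤ 4 * r → |q - m| ≤ 4 * r → xx X p q = 0)
    {y : E × E × E} (hy : y ∈ q2 (S.near εJ)) {p q : ℤ}
    (hs : inRad r ((Gam.ofZ p q)⁻¹ * lam y.1)) : kap lam X m r y = kap1 lam m y := by
  rw [kap_eq hJ hy]
  by_cases h : kap1 lam m y = 0
  · rw [h, mul_zero]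
  · have h1 := kap1_ne_zero hJ hy h
    have : sig lam X y.1 = 1 := by
      unfold sig
      have hs' := hs
      set s := (Gam.ofZ p q)⁻¹ * lam y.1 with hsdef
      have h2 : lam y.1 = Gam.ofZ p q * s := by rw [hsdef, mul_inv_cancel_left]
      have h3 : (⟨(lam y.1).v, (lam y.1).hv⟩ : AA) =
          ⟨site p q * s.v, site_mul_mem _ _ s.hv⟩ := by
        ext
        simp only
        rw [h2]
        simp
      have hi : (lam y.1).i = p + s.i := by rw [h2]; rfl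
      have hj : (lam y.1).j = q + s.j := by rw [h2]; rfl
      rw [h3, X_site_mul X ?_ hs', sg_zero]
      intro p' q' hp' hq'
      have hs1 := hs'.1
      have hs2 := hs'.2.1
      apply hz
      · simp only [abs_le] at h1 hs1 hs2 hp' hq' ⊢
        omega
      · simp only [abs_le] at h1 hs1 hs2 hp' hq' ⊢
        omega
    rw [this, one_mul]

/-- the primitive of the untwisted cocycle -/
noncomputable def theta (lam : E → Gam) (m : ℤ) (y : E × E) : ℚ :=
  PP m (lam y.1).i * (PP m (lam y.2).j - PP m (lam y.1).j)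

omit [MulAction Gam E] in
theorem kap1_eq_cob (y : E × E × E) : kap1 lam m y = Geo.cob (theta lam m) y := by
  obtain ⟨a, b, c⟩ := y
  rw [Geo.cob_apply]
  unfold kap1 theta
  ring

end kappa

end Pool.Agent.SelfCover
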