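import Pool.Agent.SelfCover.PathCover
import Pool.Agent.SelfCover.Convex

set_option autoImplicit false

/-!
# Lifts of maps to path classes
-/

namespace Pool.Agent.SelfCover

open Path

/-- A lift of a continuous map to path classes. -/
structure Lft {X M : Type*} [TopologicalSpace X] [TopologicalSpace M] (b : M) (H : C(X, M)) where
  /-- the classes -/
  κ : ∀ a : X, Homotopic.Quotient b (H a)
  h : ∀ {a a' : X} (v : Path a a'),
    κ a' = (κ a).trans (Homotopic.Quotient.map (Homotopic.Quotient.mk v) H)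

section

variable {X X' M : Type*} [TopologicalSpace X] [TopologicalSpace X'] [TopologicalSpace M] {b : M}

/-- the lifted point -/
def Lft.pt {H : C(X, M)} (L : Lft b H) (a : X) : PC M b := ⟨H a, L.κ a⟩

theorem PC.ext_cls {p : M} {q q' : Homotopic.Quotient b p} (h : (⟨p, q⟩ : PC M b) = ⟨p, q'⟩) :
    q = q' := by
  rw [PC.mk.injEq] at h
  exact eq_of_heq h.2

theorem exists_lift [SimplyConnectedSpace X] (H : C(X, M)) (x0 : X) (y : PC M b)
    (hx : y.pt = H x0) : ∃ L : Lft b H, L.pt x0 = y := by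
  obtain ⟨p, q⟩ := y
  simp only at hx
  subst hx
  have hmap : ∀ {a a' a'' : X} (v : Homotopic.Quotient a a') (w : Homotopic.Quotient a' a''),
      Homotopic.Quotient.map (v.trans w) H =
        (Homotopic.Quotient.map v H).trans (Homotopic.Quotient.map w H) := by
    intro a a' a'' v w
    induction v using Homotopic.Quotient.ind with | mk v =>
    induction w using Homotopic.Quotient.ind with | mk w =>
    rw [← Homotopic.Quotient.mk_trans, ← Homotopic.Quotient.mk_map, ← Homotopic.Quotient.mk_map,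
      ← Homotopic.Quotient.mk_map, ← Homotopic.Quotient.mk_trans, Path.map_trans]
  refine ⟨⟨fun a => q.trans (Homotopic.Quotient.map
    (Homotopic.Quotient.mk (PathConnectedSpace.somePath x0 a)) H), ?_⟩, ?_⟩
  · intro a a' v
    rw [Homotopic.Quotient.trans_assoc, ← hmap]
    congr 2
    exact Subsingleton.elim _ _
  · change (⟨H x0, _⟩ : PC M b) = ⟨H x0, q⟩
    congr 1
    have : Homotopic.Quotient.mk (PathConnectedSpace.somePath x0 x0) =
        Homotopic.Quotient.refl x0 := Subsingleton.elim _ _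
    change q.trans (Homotopic.Quotient.map
      (Homotopic.Quotient.mk (PathConnectedSpace.somePath x0 x0)) H) = q
    rw [this]
    exact Homotopic.Quotient.trans_refl _

theorem Lft.unique [PathConnectedSpace X] {H : C(X, M)} (L L' : Lft b H) (x0 : X)
    (h : L.pt x0 = L'.pt x0) (a : X) : L.pt a = L'.pt a := by
  have h1 : L.κ x0 = L'.κ x0 := PC.ext_cls h
  unfold Lft.pt
  rw [L.h (PathConnectedSpace.somePath x0 a), L'.h (PathConnectedSpace.somePath x0 a), h1]

/-- composition of a lift with a map -/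
def Lft.comp {H : C(X, M)} (L : Lft b H) (g : C(X', X)) : Lft b (H.comp g) where
  κ a := L.κ (g a)
  h v := L.h (v.map g.continuous)

theorem Lft.comp_pt {H : C(X, M)} (L : Lft b H) (g : C(X', X)) (a : X') :
    (L.comp g).pt a = L.pt (g a) := rfl

theorem Lft.path_end {x z : M} (u : Path x z) (q : Homotopic.Quotient b x)
    (L : Lft b u.toContinuousMap) (h : L.pt 0 = ⟨x, q⟩) :
    L.pt 1 = ⟨z, q.trans (Homotopic.Quotient.mk u)⟩ := by
  obtain ⟨f, hs, ht⟩ := u
  change f 0 = x at hs
  change f 1 = z at ht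
  subst hs
  subst ht
  have h1 : L.κ 0 = q := PC.ext_cls h
  let v : Path (0 : unitInterval) 1 := ⟨ContinuousMap.id _, rfl, rfl⟩
  have h2 := L.h v
  unfold Lft.pt
  rw [h2, h1]
  rfl

end

section metric

variable {X M : Type*} [TopologicalSpace X] [PseudoMetricSpace M] {b : M}

theorem Lft.near {H : C(X, M)} (L : Lft b H) {a a' : X} (v : Path a a') {ε : ℝ}
    (hv : ∀ s t, dist (H (v s)) (H (v t)) < ε) : pnear ε (L.pt a) (L.pt a') :=
  ⟨v.map H.continuous, L.h v, hv⟩

variable {F : Type*} [NormedAddCommGroup F] [NormedSpace ℝ F] {K : Set F}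

/-- the segment in a convex set -/
noncomputable def segP (hK : Convex ℝ K) (a a' : K) : Path a a' where
  toFun t := ⟨AffineMap.lineMap (a : F) (a' : F) (t : ℝ),
    hK.lineMap_mem a.2 a'.2 ⟨t.2.1, t.2.2⟩⟩
  continuous_toFun := by
    apply Continuous.subtype_mk
    exact (AffineMap.lineMap_continuous).comp continuous_subtype_val
  source' := by ext; simp
  target' := by ext; simp

theorem dist_segP (hK : Convex ℝ K) (a a' : K) (s t : unitInterval) :
    dist (segP hK a a' s) (segP hK a a' t) ≤ dist a a' := by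
  change dist (AffineMap.lineMap (a : F) (a' : F) (s : ℝ)) (AffineMap.lineMap (a : F) (a' : F)
    (t : ℝ)) ≤ dist (a : F) (a' : F)
  rw [dist_lineMap_lineMap]
  have h1 : dist (s : ℝ) (t : ℝ) ≤ 1 := by
    rw [Real.dist_eq, abs_le]
    constructor <;> linarith [s.2.1, s.2.2, t.2.1, t.2.2]
  calc dist (s : ℝ) (t : ℝ) * dist (a : F) (a' : F) ≤ 1 * dist (a : F) (a' : F) :=
        mul_le_mul_of_nonneg_right h1 dist_nonneg
    _ = _ := one_mul _

open Classical in
/-- the extension of a lift by a constant -/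
noncomputable def Lft.psi {H : C(K, M)} (L : Lft b H) (c0 : PC M b) (a : F) : PC M b :=
  if h : a ∈ K then L.pt ⟨a, h⟩ else c0

omit [NormedSpace ℝ F] in
theorem Lft.psi_of_mem {H : C(K, M)} (L : Lft b H) (c0 : PC M b) {a : F} (h : a ∈ K) :
    L.psi c0 a = L.pt ⟨a, h⟩ := by
  unfold Lft.psi
  rw [dif_pos h]

theorem Lft.psi_near (hK : Convex ℝ K) (hc : IsCompact K) {H : C(K, M)} {η : ℝ} (hη : 0 < η) :
    ∃ δ : ℝ, 0 < δ ∧ ∀ (L : Lft b H) (c0 : PC M b) (a a' : F), KN K δ a a' →
      pnear η (L.psi c0 a) (L.psi c0 a') := by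
  have hcK : CompactSpace K := isCompact_iff_compactSpace.1 hc
  have huc : UniformContinuous H := CompactSpace.uniformContinuous_of_continuous H.continuous
  obtain ⟨δ, hδ, h⟩ := Metric.uniformContinuous_iff.1 huc η hη
  refine ⟨δ, hδ, ?_⟩
  rintro L c0 a a' ⟨ha, ha', hd⟩
  rw [L.psi_of_mem c0 ha, L.psi_of_mem c0 ha']
  apply L.near (segP hK ⟨a, ha⟩ ⟨a', ha'⟩)
  intro s t
  apply h
  exact lt_of_le_of_lt (dist_segP hK _ _ s t) hd

end metric

end Pool.Agent.SelfCover
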