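import Mathlib

set_option autoImplicit false

/-!
# Path classes from a base point
-/

namespace Pool.Agent.SelfCover

open Path

/-- The set of homotopy classes (relative to the endpoints) of paths starting at `b`. -/
structure PC (M : Type*) [TopologicalSpace M] (b : M) where
  /-- the end point -/
  pt : M
  /-- the class -/
  cls : Homotopic.Quotient b pt

section top

variable {M : Type*} [TopologicalSpace M] {b : M}

/-- extension of a path class by another class -/
noncomputable def PC.ex (c : PC M b) {z : M} (u : Homotopic.Quotient c.pt z) : PC M b := ⟨z, c.cls.trans u⟩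

@[simp] theorem PC.ex_pt (c : PC M b) {z : M} (u : Homotopic.Quotient c.pt z) :
    (c.ex u).pt = z := rfl

theorem PC.ex_refl (c : PC M b) : c.ex (Homotopic.Quotient.refl c.pt) = c := by
  cases c
  simp [PC.ex]

theorem PC.ex_ex (c : PC M b) {z w : M} (u : Homotopic.Quotient c.pt z)
    (v : Homotopic.Quotient z w) : PC.ex (c.ex u) v = c.ex (u.trans v) := by
  simp [PC.ex]

/-- The action of a group isomorphic to the fundamental group on path classes. -/
@[reducible] noncomputable def pcAction {G : Type*} [Group G] (e : FundamentalGroup M b ≃* G) :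
    MulAction G (PC M b) where
  smul g c := ⟨c.pt, Homotopic.Quotient.trans (e.symm g⁻¹ : Homotopic.Quotient b b) c.cls⟩
  one_smul c := by
    change (⟨c.pt, Homotopic.Quotient.trans (e.symm 1⁻¹ : Homotopic.Quotient b b) c.cls⟩ : PC M b) = c
    have h : (e.symm 1⁻¹ : Homotopic.Quotient b b) = Homotopic.Quotient.refl b := by
      rw [inv_one, map_one]; rfl
    rw [h, Homotopic.Quotient.refl_trans]
  mul_smul g h c := by
    change (⟨c.pt, Homotopic.Quotient.trans (e.symm (g * h)⁻¹ : Homotopic.Quotient b b) c.cls⟩ : PC M b)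
      = ⟨c.pt, Homotopic.Quotient.trans (e.symm g⁻¹ : Homotopic.Quotient b b)
        (Homotopic.Quotient.trans (e.symm h⁻¹ : Homotopic.Quotient b b) c.cls)⟩
    have h1 : (e.symm (g * h)⁻¹ : Homotopic.Quotient b b) =
        Homotopic.Quotient.trans (e.symm g⁻¹ : Homotopic.Quotient b b)
          (e.symm h⁻¹ : Homotopic.Quotient b b) := by
      rw [mul_inv_rev, map_mul]
      rfl
    rw [h1, Homotopic.Quotient.trans_assoc]

theorem pc_smul_def {G : Type*} [Group G] (e : FundamentalGroup M b ≃* G) (g : G) (c : PC M b) :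
    letI := pcAction e
    g • c = ⟨c.pt, Homotopic.Quotient.trans (e.symm g⁻¹ : Homotopic.Quotient b b) c.cls⟩ := rfl

end top

section metric

variable {M : Type*} [PseudoMetricSpace M] {b : M}

/-- `c'` is obtained from `c` by composing with a path of diameter less than `ε` -/
def pnear (ε : ℝ) (c c' : PC M b) : Prop :=
  ∃ u : Path c.pt c'.pt, c'.cls = Homotopic.Quotient.trans c.cls (Homotopic.Quotient.mk u) ∧
    ∀ s t, dist (u s) (u t) < ε

theorem pnear_ex {ε : ℝ} (c : PC M b) {z : M} (u : Path c.pt z) (hu : ∀ s t, dist (u s) (u t) < ε) :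
    pnear ε c (c.ex (Homotopic.Quotient.mk u)) := ⟨u, rfl, hu⟩

theorem pnear_refl {ε : ℝ} (hε : 0 < ε) (c : PC M b) : pnear ε c c :=
  ⟨Path.refl _, by simp, fun s t => by simpa using hε⟩

theorem pnear_symm {ε : ℝ} {c c' : PC M b} (h : pnear ε c c') : pnear ε c' c := by
  obtain ⟨u, hu, hd⟩ := h
  refine ⟨u.symm, ?_, fun s t => hd _ _⟩
  rw [hu, Homotopic.Quotient.mk_symm, Homotopic.Quotient.trans_assoc, Homotopic.Quotient.trans_symm, Homotopic.Quotient.trans_refl]

theorem pnear_mono {ε ε' : ℝ} {c c' : PC M b} (h : ε ≤ ε') (hc : pnear ε c c') :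
    pnear ε' c c' := by
  obtain ⟨u, hu, hd⟩ := hc
  exact ⟨u, hu, fun s t => (hd s t).trans_le h⟩

theorem pnear_trans {ε ε' : ℝ} {c c' c'' : PC M b} (h : pnear ε c c') (h' : pnear ε' c' c'') :
    pnear (ε + ε') c c'' := by
  obtain ⟨u, hu, hd⟩ := h
  obtain ⟨v, hv, hd'⟩ := h'
  have hε : 0 < ε := lt_of_le_of_lt dist_nonneg (hd 0 0)
  have hε' : 0 < ε' := lt_of_le_of_lt dist_nonneg (hd' 0 0)
  refine ⟨u.trans v, ?_, ?_⟩
  · rw [hv, hu, Homotopic.Quotient.mk_trans, Homotopic.Quotient.trans_assoc]
  · have key : ∀ s, (∃ a, (u.trans v) s = u a) ∨ (∃ a, (u.trans v) s = v a) := by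
      intro s
      rw [Path.trans_apply]
      split_ifs
      · exact Or.inl ⟨_, rfl⟩
      · exact Or.inr ⟨_, rfl⟩
    have h1 : ∀ a b', dist (u a) (v b') < ε + ε' := by
      intro a b'
      calc dist (u a) (v b') ≤ dist (u a) (u 1) + dist (u 1) (v b') := dist_triangle _ _ _
        _ = dist (u a) (u 1) + dist (v 0) (v b') := by rw [u.target, v.source]
        _ < ε + ε' := add_lt_add (hd _ _) (hd' _ _)
    intro s t
    rcases key s with ⟨a, ha⟩ | ⟨a, ha⟩ <;> rcases key t with ⟨a', ha'⟩ | ⟨a', ha'⟩ <;>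
      rw [ha, ha']
    · linarith [hd a a']
    · exact h1 a a'
    · rw [dist_comm]; exact h1 a' a
    · linarith [hd' a a']

theorem pnear_smul {G : Type*} [Group G] (e : FundamentalGroup M b ≃* G) (g : G) {ε : ℝ}
    {c c' : PC M b} (h : pnear ε c c') :
    letI := pcAction e
    pnear ε (g • c) (g • c') := by
  obtain ⟨u, hu, hd⟩ := h
  refine ⟨u, ?_, hd⟩
  change Homotopic.Quotient.trans _ c'.cls = Homotopic.Quotient.trans (Homotopic.Quotient.trans _ c.cls) (Homotopic.Quotient.mk u)
  rw [hu, Homotopic.Quotient.trans_assoc]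

end metric

end Pool.Agent.SelfCover
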