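import Pool.Agent.SelfCover.Lift

set_option autoImplicit false

/-!
# Connectivity and simple connectivity of the set of path classes at small scales
-/

namespace Pool.Agent.SelfCover

open Path

section JJ

variable {E : Type*} {R : E → E → Prop}

/-- boundaries of small 2-chains -/
noncomputable def Bd (R : E → E → Prop) : Submodule ℚ (C1 E) := (Sm2 R).map d2

theorem mem_Bd {R : E → E → Prop} {c : C1 E} : c ∈ Bd R ↔ ∃ w ∈ Sm2 R, d2 w = c := by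
  unfold Bd
  rw [Submodule.mem_map]

theorem degen_mem_Bd {y : E} (h : R y y) : s1 y y ∈ Bd R :=
  mem_Bd.2 ⟨s2 y y y, s2_mem h h h, by simp⟩

variable {F F' : Type*} [NormedAddCommGroup F] [NormedSpace ℝ F] [NormedAddCommGroup F']
  [NormedSpace ℝ F']

/-- `v` represents the integral from `a` to `a'` along `ψ : K → E` -/
def JJ (R : E → E → Prop) (K : Set F) (ψ : F → E) (a a' : F) (v : C1 E) : Prop :=
  ∃ δ : ℝ, 0 < δ ∧ ∀ A ∈ Sm1 (KN K δ), d1 A = s0 a' - s0 a → p1 ψ A - v ∈ Bd R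

/-- uniform continuity of a map to `E` -/
def UC (R : E → E → Prop) (K : Set F) (ψ : F → E) : Prop :=
  ∃ δ : ℝ, 0 < δ ∧ ∀ a a', KN K δ a a' → R (ψ a) (ψ a')

omit [NormedSpace ℝ F] in
theorem KN_mono {K : Set F} {δ δ' : ℝ} (h : δ ≤ δ') (a a' : F) (ha : KN K δ a a') :
    KN K δ' a a' := ⟨ha.1, ha.2.1, ha.2.2.trans_le h⟩

theorem chain_exists {K : Set F} (hK : Convex ℝ K) (hb : Bornology.IsBounded K) {δ : ℝ}
    (hδ : 0 < δ) {a a' : F} (ha : a ∈ K) (ha' : a' ∈ K) :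
    ∃ A ∈ Sm1 (KN K δ), d1 A = s0 a' - s0 a :=
  (acyc_convex hK hb hδ).1 a ha a' ha'

theorem cycle_bd {K : Set F} (hK : Convex ℝ K) (hb : Bornology.IsBounded K) {ψ : F → E} {δ : ℝ}
    (hδ : 0 < δ) (hψ : ∀ a a', KN K δ a a' → R (ψ a) (ψ a')) {z : C1 F}
    (hz : z ∈ Sm1 (KN K (δ / 2))) (hd : d1 z = 0) : p1 ψ z ∈ Bd R := by
  obtain ⟨w, hw, hw'⟩ := (acyc_convex hK hb hδ).2.1 z hz hd
  exact mem_Bd.2 ⟨p2 ψ w, p2_mem hψ hw, by rw [d2_p2, hw']⟩

theorem JJ_exists {K : Set F} (hK : Convex ℝ K) (hb : Bornology.IsBounded K) {ψ : F → E}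
    (hψ : UC R K ψ) {a a' : F} (ha : a ∈ K) (ha' : a' ∈ K) :
    ∃ v ∈ Sm1 R, d1 v = s0 (ψ a') - s0 (ψ a) ∧ JJ R K ψ a a' v := by
  obtain ⟨δ, hδ, h⟩ := hψ
  obtain ⟨A, hA, hAd⟩ := chain_exists hK hb (half_pos hδ) ha ha'
  refine ⟨p1 ψ A, p1_mem (fun x y hxy => h x y (KN_mono (by linarith) _ _ hxy)) hA, ?_,
    δ / 2, half_pos hδ, ?_⟩
  · rw [d1_p1, hAd, map_sub, p0_s0, p0_s0]
  · intro A' hA' hAd'
    rw [← map_sub]
    exact cycle_bd hK hb hδ h (sub_mem hA' hA) (by rw [map_sub, hAd, hAd', sub_self])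

theorem JJ_unique {K : Set F} (hK : Convex ℝ K) (hb : Bornology.IsBounded K) {ψ : F → E}
    {a a' : F} (ha : a ∈ K) (ha' : a' ∈ K) {v w : C1 E}
    (hv : JJ R K ψ a a' v) (hw : JJ R K ψ a a' w) : v - w ∈ Bd R := by
  obtain ⟨δ, hδ, h⟩ := hv
  obtain ⟨δ', hδ', h'⟩ := hw
  obtain ⟨A, hA, hAd⟩ := chain_exists hK hb (lt_min hδ hδ') ha ha'
  have e1 := h A (Sm1_mono (KN_mono (min_le_left _ _)) hA) hAd
  have e2 := h' A (Sm1_mono (KN_mono (min_le_right _ _)) hA) hAd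
  have : v - w = (p1 ψ A - w) - (p1 ψ A - v) := by abel
  rw [this]
  exact sub_mem e2 e1

theorem JJ_add {K : Set F} (hK : Convex ℝ K) (hb : Bornology.IsBounded K) {ψ : F → E}
    (hψ : UC R K ψ) {a a' a'' : F} (ha : a ∈ K) (ha' : a' ∈ K) (ha'' : a'' ∈ K) {v w : C1 E}
    (hv : JJ R K ψ a a' v) (hw : JJ R K ψ a' a'' w) : JJ R K ψ a a'' (v + w) := by
  obtain ⟨δ, hδ, h⟩ := hv
  obtain ⟨δ', hδ', h'⟩ := hw
  obtain ⟨δ2, hδ2, h2⟩ := hψ
  refine ⟨δ2 / 2, half_pos hδ2, fun A hA hAd => ?_⟩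
  obtain ⟨A1, hA1, hAd1⟩ := chain_exists hK hb (lt_min (lt_min hδ hδ') (half_pos hδ2)) ha ha'
  obtain ⟨A2, hA2, hAd2⟩ := chain_exists hK hb (lt_min (lt_min hδ hδ') (half_pos hδ2)) ha' ha''
  have e1 := h A1 (Sm1_mono (KN_mono ((min_le_left _ _).trans (min_le_left _ _))) hA1) hAd1
  have e2 := h' A2 (Sm1_mono (KN_mono ((min_le_left _ _).trans (min_le_right _ _))) hA2) hAd2
  have e3 := cycle_bd hK hb hδ2 h2 (z := A - A1 - A2)
    (sub_mem (sub_mem hA (Sm1_mono (KN_mono (min_le_right _ _)) hA1))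
      (Sm1_mono (KN_mono (min_le_right _ _)) hA2))
    (by rw [map_sub, map_sub, hAd, hAd1, hAd2]; abel)
  have : p1 ψ A - (v + w) = p1 ψ (A - A1 - A2) + (p1 ψ A1 - v) + (p1 ψ A2 - w) := by
    rw [map_sub, map_sub]; abel
  rw [this]
  exact add_mem (add_mem e3 e1) e2

omit [NormedSpace ℝ F] [NormedSpace ℝ F'] in
theorem JJ_comp {K : Set F} {K' : Set F'} {ψ : F → E} {g : F' → F} {ψ' : F' → E}
    (hg : ∀ δ : ℝ, 0 < δ → ∃ δ' : ℝ, 0 < δ' ∧ ∀ a a', KN K' δ' a a' → KN K δ (g a) (g a'))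
    (hψ' : ∀ a ∈ K', ψ' a = ψ (g a)) {a a' : F'} {v : C1 E} (hv : JJ R K ψ (g a) (g a') v) :
    JJ R K' ψ' a a' v := by
  obtain ⟨δ, hδ, h⟩ := hv
  obtain ⟨δ', hδ', h'⟩ := hg δ hδ
  refine ⟨δ', hδ', fun A hA hAd => ?_⟩
  have e1 := h (p1 g A) (p1_mem h' hA) (by rw [d1_p1, hAd, map_sub, p0_s0, p0_s0])
  have e2 : p1 ψ (p1 g A) = p1 ψ' A := by
    rw [p1_p1]
    refine eq_on_supported (f := p1 (ψ ∘ g)) (g := p1 ψ') ?_ hA
    rintro ⟨x, y⟩ ⟨hx, hy, -⟩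
    change p1 (ψ ∘ g) (s1 x y) = p1 ψ' (s1 x y)
    rw [p1_s1, p1_s1, hψ' x hx, hψ' y hy]
    rfl
  rwa [e2] at e1

omit [NormedSpace ℝ F] in
theorem JJ_clique {K : Set F} {ψ : F → E} (hψ : ∀ a ∈ K, ∀ a' ∈ K, R (ψ a) (ψ a'))
    {a a' : F} (ha : a ∈ K) (ha' : a' ∈ K) : JJ R K ψ a a' (s1 (ψ a) (ψ a')) := by
  refine ⟨1, one_pos, fun A hA hAd => ?_⟩
  have hz : A - s1 a a' ∈ Sm1 (fun x y => x ∈ K ∧ y ∈ K) :=
    sub_mem (Sm1_mono (fun x y h => ⟨h.1, h.2.1⟩) hA) (s1_mem ⟨ha, ha'⟩)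
  have hd : d1 (A - s1 a a') = 0 := by rw [map_sub, hAd, d1_s1, sub_self]
  rw [mem_Bd]
  refine ⟨p2 ψ (k1 a (A - s1 a a')), ?_, ?_⟩
  · refine p2_mem (R := fun x y => x ∈ K ∧ y ∈ K) (fun x y h => hψ x h.1 y h.2) ?_
    refine map_supported ?_ hz
    rintro ⟨x, y⟩ ⟨hx, hy⟩
    change k1 a (s1 x y) ∈ _
    rw [k1_s1]
    exact s2_mem ⟨ha, hx⟩ ⟨ha, hy⟩ ⟨hx, hy⟩
  · rw [d2_p2, d2_k1, hd, map_zero, sub_zero, map_sub, p1_s1]

end JJ

section sc

variable {M : Type*} [MetricSpace M] {b : M}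

/-- the unit interval as a convex set -/
def KI : Set ℝ := Set.Icc 0 1

theorem KI_convex : Convex ℝ KI := convex_Icc 0 1
theorem KI_compact : IsCompact KI := isCompact_Icc
theorem KI_zero : (0 : ℝ) ∈ KI := ⟨le_rfl, zero_le_one⟩
theorem KI_one : (1 : ℝ) ∈ KI := ⟨zero_le_one, le_rfl⟩

/-- path as a map on `KI` -/
def pathKI {x y : M} (u : Path x y) : C(KI, M) := u.toContinuousMap

/-- The integral along a path. -/
theorem exists_path_lift (y : PC M b) {z : M} (u : Path y.pt z) :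
    ∃ L : Lft b (pathKI u), L.pt ⟨0, KI_zero⟩ = y ∧
      L.pt ⟨1, KI_one⟩ = y.ex (Homotopic.Quotient.mk u) := by
  have : ContractibleSpace KI := KI_convex.contractibleSpace ⟨0, KI_zero⟩
  obtain ⟨L, hL⟩ := exists_lift (pathKI u) ⟨0, KI_zero⟩ y u.source.symm
  refine ⟨L, hL, ?_⟩
  obtain ⟨p, q⟩ := y
  exact Lft.path_end u q L hL

theorem pnear_uc {K : Set ℝ} (hK : Convex ℝ K) (hc : IsCompact K) {H : C(K, M)} (L : Lft b H)
    (c0 : PC M b) {η : ℝ} (hη : 0 < η) : UC (pnear η) K (L.psi c0) := by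
  obtain ⟨δ, hδ, h⟩ := Lft.psi_near (b := b) hK hc (H := H) hη
  exact ⟨δ, hδ, h L c0⟩

/-- connectivity -/
theorem pc_conn {η : ℝ} (hη : 0 < η) (y y' : PC M b) :
    ∃ c ∈ Sm1 (pnear (b := b) η), d1 c = s0 y' - s0 y := by
  obtain ⟨u, hu⟩ := Homotopic.Quotient.mk_surjective (y.cls.symm.trans y'.cls)
  obtain ⟨L, hL0, hL1⟩ := exists_path_lift y u
  obtain ⟨v, hv, hvd, -⟩ := JJ_exists KI_convex KI_compact.isBounded
    (pnear_uc KI_convex KI_compact L y hη) KI_zero KI_one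
  refine ⟨v, hv, ?_⟩
  rw [hvd, L.psi_of_mem y KI_zero, L.psi_of_mem y KI_one, hL0, hL1, hu]
  congr 2
  obtain ⟨p', q'⟩ := y'
  change (⟨p', y.cls.trans (y.cls.symm.trans q')⟩ : PC M b) = ⟨p', q'⟩
  rw [← Homotopic.Quotient.trans_assoc, Homotopic.Quotient.trans_symm,
    Homotopic.Quotient.refl_trans]

theorem Lft.unique' {X : Type*} [TopologicalSpace X] [PathConnectedSpace X] {H H' : C(X, M)}
    (hH : H = H') (L : Lft b H) (L' : Lft b H') (x0 : X) (h : L.pt x0 = L'.pt x0) (a : X) :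
    L.pt a = L'.pt a := by
  subst hH
  exact L.unique L' x0 h a

theorem Lft.const {X : Type*} [TopologicalSpace X] [PathConnectedSpace X] {H : C(X, M)} {z : M}
    (hH : H = ContinuousMap.const X z) (L : Lft b H) (a a' : X) : L.pt a = L.pt a' := by
  subst hH
  unfold Lft.pt
  rw [L.h (PathConnectedSpace.somePath a a')]
  have : Homotopic.Quotient.map (Homotopic.Quotient.mk (PathConnectedSpace.somePath a a'))
      (ContinuousMap.const X z) = Homotopic.Quotient.refl z := by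
    rw [← Homotopic.Quotient.mk_map, ← Homotopic.Quotient.mk_refl]
    congr 1
  rw [this]
  congr 1
  exact (Homotopic.Quotient.trans_refl _).symm

/-- the unit square -/
def KS : Set (ℝ × ℝ) := KI ×ˢ KI

theorem KS_convex : Convex ℝ KS := KI_convex.prod KI_convex
theorem KS_compact : IsCompact KS := KI_compact.prod KI_compact

/-- the map of the square given by a homotopy -/
def sqMap {x z : M} {u u' : Path x z} (F : Path.Homotopy u u') : C(KS, M) where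
  toFun w := F (⟨w.1.1, w.2.1⟩, ⟨w.1.2, w.2.2⟩)
  continuous_toFun := by fun_prop

/-- homotopy invariance of the integral -/
theorem JJ_homotopy {η : ℝ} (hη : 0 < η) {x z : M} {u u' : Path x z} (F : Path.Homotopy u u')
    (L : Lft b (pathKI u)) (L' : Lft b (pathKI u')) (hL : L.pt ⟨0, KI_zero⟩ = L'.pt ⟨0, KI_zero⟩)
    (c0 : PC M b) {v v' : C1 (PC M b)} (hv : JJ (pnear η) KI (L.psi c0) 0 1 v)
    (hv' : JJ (pnear η) KI (L'.psi c0) 0 1 v') : v - v' ∈ Bd (pnear (b := b) η) := by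
  have hcI : ContractibleSpace KI := KI_convex.contractibleSpace ⟨0, KI_zero⟩
  have hcS : ContractibleSpace KS := KS_convex.contractibleSpace ⟨(0, 0), KI_zero, KI_zero⟩
  have m00 : ((0 : ℝ), (0 : ℝ)) ∈ KS := ⟨KI_zero, KI_zero⟩
  have m01 : ((0 : ℝ), (1 : ℝ)) ∈ KS := ⟨KI_zero, KI_one⟩
  have m10 : ((1 : ℝ), (0 : ℝ)) ∈ KS := ⟨KI_one, KI_zero⟩
  have m11 : ((1 : ℝ), (1 : ℝ)) ∈ KS := ⟨KI_one, KI_one⟩
  obtain ⟨Q, hQ⟩ := exists_lift (sqMap F) ⟨(0, 0), m00⟩ (L.pt ⟨0, KI_zero⟩) (by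
    change u 0 = F (0, 0)
    rw [F.apply_zero]; rfl)
  have hUC : UC (pnear η) KS (Q.psi c0) := by
    obtain ⟨δ, hδ, h⟩ := Lft.psi_near (b := b) KS_convex KS_compact (H := sqMap F) hη
    exact ⟨δ, hδ, h Q c0⟩
  -- the four edge maps
  let gL : C(KI, KS) := ⟨fun s => ⟨(0, s.1), KI_zero, s.2⟩, by fun_prop⟩
  let gR : C(KI, KS) := ⟨fun s => ⟨(1, s.1), KI_one, s.2⟩, by fun_prop⟩
  let gB : C(KI, KS) := ⟨fun s => ⟨(s.1, 0), s.2, KI_zero⟩, by fun_prop⟩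
  let gT : C(KI, KS) := ⟨fun s => ⟨(s.1, 1), s.2, KI_one⟩, by fun_prop⟩
  have eL : (sqMap F).comp gL = pathKI u := by
    ext s
    exact F.apply_zero s
  have eR : (sqMap F).comp gR = pathKI u' := by
    ext s
    exact F.apply_one s
  have eB : (sqMap F).comp gB = ContinuousMap.const _ x := by
    ext s
    exact Path.Homotopy.source F s
  have eT : (sqMap F).comp gT = ContinuousMap.const _ z := by
    ext s
    exact Path.Homotopy.target F s
  have fL : ∀ s : KI, Q.pt (gL s) = L.pt s :=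
    Lft.unique' eL (Q.comp gL) L ⟨0, KI_zero⟩ hQ
  have fB : ∀ s s' : KI, Q.pt (gB s) = Q.pt (gB s') := Lft.const eB (Q.comp gB)
  have fT : ∀ s s' : KI, Q.pt (gT s) = Q.pt (gT s') := Lft.const eT (Q.comp gT)
  have fR : ∀ s : KI, Q.pt (gR s) = L'.pt s := by
    refine Lft.unique' eR (Q.comp gR) L' ⟨0, KI_zero⟩ ?_
    rw [← hL, ← fL]
    exact fB ⟨1, KI_one⟩ ⟨0, KI_zero⟩
  obtain ⟨v1, -, -, h1⟩ := JJ_exists KS_convex KS_compact.isBounded hUC m00 m01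
  obtain ⟨v2, -, -, h2⟩ := JJ_exists KS_convex KS_compact.isBounded hUC m01 m11
  obtain ⟨v3, -, -, h3⟩ := JJ_exists KS_convex KS_compact.isBounded hUC m00 m10
  obtain ⟨v4, -, -, h4⟩ := JJ_exists KS_convex KS_compact.isBounded hUC m10 m11
  have e1 := JJ_unique KS_convex KS_compact.isBounded m00 m11
    (JJ_add KS_convex KS_compact.isBounded hUC m00 m01 m11 h1 h2)
    (JJ_add KS_convex KS_compact.isBounded hUC m00 m10 m11 h3 h4)
  -- left and right edges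
  have k1 : JJ (pnear η) KI (L.psi c0) 0 1 v1 := by
    refine JJ_comp (g := fun s : ℝ => ((0 : ℝ), s)) ?_ ?_ h1
    · intro δ hδ
      refine ⟨δ, hδ, fun a a' h => ⟨⟨KI_zero, h.1⟩, ⟨KI_zero, h.2.1⟩, ?_⟩⟩
      simpa [Prod.dist_eq] using h.2.2
    · intro s hs
      rw [L.psi_of_mem c0 hs, Q.psi_of_mem c0 (a := (0, s)) ⟨KI_zero, hs⟩]
      exact (fL ⟨s, hs⟩).symm
  have k4 : JJ (pnear η) KI (L'.psi c0) 0 1 v4 := by
    refine JJ_comp (g := fun s : ℝ => ((1 : ℝ), s)) ?_ ?_ h4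
    · intro δ hδ
      refine ⟨δ, hδ, fun a a' h => ⟨⟨KI_one, h.1⟩, ⟨KI_one, h.2.1⟩, ?_⟩⟩
      simpa [Prod.dist_eq] using h.2.2
    · intro s hs
      rw [L'.psi_of_mem c0 hs, Q.psi_of_mem c0 (a := (1, s)) ⟨KI_one, hs⟩]
      exact (fR ⟨s, hs⟩).symm
  have k2 : v2 ∈ Bd (pnear (b := b) η) := by
    have j1 : JJ (pnear η) KI (fun _ : ℝ => Q.pt ⟨(0, 1), m01⟩) 0 1 v2 := by
      refine JJ_comp (g := fun s : ℝ => (s, (1 : ℝ))) ?_ ?_ h2
      · intro δ hδ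
        refine ⟨δ, hδ, fun a a' h => ⟨⟨h.1, KI_one⟩, ⟨h.2.1, KI_one⟩, ?_⟩⟩
        simpa [Prod.dist_eq] using h.2.2
      · intro s hs
        rw [Q.psi_of_mem c0 (a := (s, 1)) ⟨hs, KI_one⟩]
        exact fT ⟨0, KI_zero⟩ ⟨s, hs⟩
    have j2 := JJ_clique (R := pnear (b := b) η) (K := KI)
      (ψ := fun _ : ℝ => Q.pt ⟨(0, 1), m01⟩) (fun _ _ _ _ => pnear_refl hη _) KI_zero KI_one
    have j3 := JJ_unique KI_convex KI_compact.isBounded KI_zero KI_one j1 j2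
    have := add_mem j3 (degen_mem_Bd (R := pnear (b := b) η) (y := Q.pt ⟨(0, 1), m01⟩)
      (pnear_refl hη _))
    rwa [sub_add_cancel] at this
  have k3 : v3 ∈ Bd (pnear (b := b) η) := by
    have j1 : JJ (pnear η) KI (fun _ : ℝ => Q.pt ⟨(0, 0), m00⟩) 0 1 v3 := by
      refine JJ_comp (g := fun s : ℝ => (s, (0 : ℝ))) ?_ ?_ h3
      · intro δ hδ
        refine ⟨δ, hδ, fun a a' h => ⟨⟨h.1, KI_zero⟩, ⟨h.2.1, KI_zero⟩, ?_⟩⟩
        simpa [Prod.dist_eq] using h.2.2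
      · intro s hs
        rw [Q.psi_of_mem c0 (a := (s, 0)) ⟨hs, KI_zero⟩]
        exact fB ⟨0, KI_zero⟩ ⟨s, hs⟩
    have j2 := JJ_clique (R := pnear (b := b) η) (K := KI)
      (ψ := fun _ : ℝ => Q.pt ⟨(0, 0), m00⟩) (fun _ _ _ _ => pnear_refl hη _) KI_zero KI_one
    have j3 := JJ_unique KI_convex KI_compact.isBounded KI_zero KI_one j1 j2
    have := add_mem j3 (degen_mem_Bd (R := pnear (b := b) η) (y := Q.pt ⟨(0, 0), m00⟩)
      (pnear_refl hη _))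
    rwa [sub_add_cancel] at this
  have e2 := JJ_unique KI_convex KI_compact.isBounded KI_zero KI_one hv k1
  have e3 := JJ_unique KI_convex KI_compact.isBounded KI_zero KI_one hv' k4
  have : v - v' = (v - v1) - (v' - v4) + ((v1 + v2) - (v3 + v4)) - v2 + v3 := by abel
  rw [this]
  exact add_mem (sub_mem (add_mem (sub_mem e2 e3) e1) k2) k3

/-- triangle relation -/
theorem JJ_triangle {η : ℝ} (hη : 0 < η) (ys : PC M b) {p : M} (hp : ys.pt = p) {z z' : M}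
    (w : Path p z) (u : Path z z') (w' : Path p z')
    (hw' : Homotopic.Quotient.mk w' = (Homotopic.Quotient.mk w).trans (Homotopic.Quotient.mk u))
    (hu : ∀ s t, dist (u s) (u t) < η)
    (L : Lft b (pathKI w)) (L' : Lft b (pathKI w'))
    (hL : L.pt ⟨0, KI_zero⟩ = ys) (hL' : L'.pt ⟨0, KI_zero⟩ = ys) (c0 : PC M b)
    {v v' : C1 (PC M b)} (hv : JJ (pnear η) KI (L.psi c0) 0 1 v)
    (hv' : JJ (pnear η) KI (L'.psi c0) 0 1 v') :
    v + s1 (L.pt ⟨1, KI_one⟩) (L'.pt ⟨1, KI_one⟩) - v' ∈ Bd (pnear (b := b) η) := by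
  have hcI : ContractibleSpace KI := KI_convex.contractibleSpace ⟨0, KI_zero⟩
  have mh : (1 / 2 : ℝ) ∈ KI := ⟨by norm_num, by norm_num⟩
  obtain ⟨Q, hQ⟩ := exists_lift (pathKI (w.trans u)) ⟨0, KI_zero⟩ ys (by
    rw [hp]; exact (w.trans u).source.symm)
  have hUC : UC (pnear η) KI (Q.psi c0) := pnear_uc KI_convex KI_compact Q c0 hη
  obtain ⟨vq, -, -, hvq⟩ := JJ_exists KI_convex KI_compact.isBounded hUC KI_zero KI_one
  obtain ⟨w1, -, -, hw1⟩ := JJ_exists KI_convex KI_compact.isBounded hUC KI_zero mh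
  obtain ⟨w2, -, -, hw2⟩ := JJ_exists KI_convex KI_compact.isBounded hUC mh KI_one
  have e1 := JJ_unique KI_convex KI_compact.isBounded KI_zero KI_one hvq
    (JJ_add KI_convex KI_compact.isBounded hUC KI_zero mh KI_one hw1 hw2)
  -- homotopy
  obtain ⟨F⟩ : (w.trans u).Homotopic w' := Homotopic.Quotient.exact (by
    rw [Homotopic.Quotient.mk_trans, hw'])
  have e2 := JJ_homotopy hη F Q L' (hQ.trans hL'.symm) c0 hvq hv'
  -- first half
  let ga : C(KI, KI) := ⟨fun s => ⟨s.1 / 2, by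
    have := s.2
    constructor
    · have := this.1; linarith
    · have := this.2; linarith⟩, by fun_prop⟩
  let gb : C(KI, KI) := ⟨fun s => ⟨(s.1 + 1) / 2, by
    have := s.2
    constructor
    · have := this.1; linarith
    · have := this.2; linarith⟩, by fun_prop⟩
  have ea : (pathKI (w.trans u)).comp ga = pathKI w := by
    ext s
    change (w.trans u) ⟨s.1 / 2, _⟩ = w s
    rw [Path.trans_apply, dif_pos (by
      have := s.2.2
      simp only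
      linarith)]
    congr 1
    ext
    simp only
    ring
  have eb : (pathKI (w.trans u)).comp gb = pathKI u := by
    ext s
    change (w.trans u) ⟨(s.1 + 1) / 2, _⟩ = u s
    by_cases hs : s.1 = 0
    · obtain rfl : s = ⟨0, KI_zero⟩ := Subtype.ext hs
      have e0 : u ⟨0, KI_zero⟩ = z := u.source
      rw [Path.trans_apply, dif_pos (by simp only; norm_num)]
      refine ((congrArg w ?_).trans w.target).trans e0.symm
      ext
      change 2 * ((0 + 1) / 2) = (1 : ℝ)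
      norm_num
    · have hs1 : 0 < s.1 := lt_of_le_of_ne s.2.1 (Ne.symm hs)
      rw [Path.trans_apply, dif_neg (by simp only; linarith)]
      congr 1
      ext
      simp only
      ring
  have fa : ∀ s : KI, Q.pt (ga s) = L.pt s := by
    refine Lft.unique' ea (Q.comp ga) L ⟨0, KI_zero⟩ ?_
    rw [hL, ← hQ, Lft.comp_pt]
    congr 1
    ext
    simp [ga]
  -- lift along u
  have hQh : Q.pt ⟨1 / 2, mh⟩ = L.pt ⟨1, KI_one⟩ := fa ⟨1, KI_one⟩
  obtain ⟨U, hU⟩ := exists_lift (pathKI u) ⟨0, KI_zero⟩ (L.pt ⟨1, KI_one⟩) (by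
    change w 1 = u 0
    rw [w.target, u.source])
  have fb : ∀ s : KI, Q.pt (gb s) = U.pt s := by
    refine Lft.unique' eb (Q.comp gb) U ⟨0, KI_zero⟩ ?_
    rw [hU, ← hQh, Lft.comp_pt]
    congr 1
    ext
    simp [gb]
  have k1 : JJ (pnear η) KI (L.psi c0) 0 1 w1 := by
    refine JJ_comp (g := fun s : ℝ => s / 2) ?_ ?_ (by simpa using hw1)
    · intro δ hδ
      refine ⟨δ, hδ, fun a a' h => ⟨?_, ?_, ?_⟩⟩
      · exact (ga ⟨a, h.1⟩).2
      · exact (ga ⟨a', h.2.1⟩).2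
      · have := h.2.2
        rw [Real.dist_eq] at this ⊢
        have h2 : a / 2 - a' / 2 = (a - a') / 2 := by ring
        rw [h2, abs_div, abs_two]
        have := abs_nonneg (a - a')
        linarith
    · intro s hs
      rw [L.psi_of_mem c0 hs, Q.psi_of_mem c0 (a := s / 2) (ga ⟨s, hs⟩).2]
      exact (fa ⟨s, hs⟩).symm
  have k2 : JJ (pnear η) KI (U.psi c0) 0 1 w2 := by
    refine JJ_comp (g := fun s : ℝ => (s + 1) / 2) ?_ ?_ (by simpa using hw2)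
    · intro δ hδ
      refine ⟨δ, hδ, fun a a' h => ⟨?_, ?_, ?_⟩⟩
      · exact (gb ⟨a, h.1⟩).2
      · exact (gb ⟨a', h.2.1⟩).2
      · have := h.2.2
        rw [Real.dist_eq] at this ⊢
        have h2 : (a + 1) / 2 - (a' + 1) / 2 = (a - a') / 2 := by ring
        rw [h2, abs_div, abs_two]
        have := abs_nonneg (a - a')
        linarith
    · intro s hs
      rw [U.psi_of_mem c0 hs, Q.psi_of_mem c0 (a := (s + 1) / 2) (gb ⟨s, hs⟩).2]
      exact (fb ⟨s, hs⟩).symm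
  have k3 := JJ_clique (R := pnear (b := b) η) (K := KI) (ψ := U.psi c0) (by
    intro s hs s' hs'
    rw [U.psi_of_mem c0 hs, U.psi_of_mem c0 hs']
    exact U.near (segP KI_convex ⟨s, hs⟩ ⟨s', hs'⟩) (fun a a' => hu _ _)) KI_zero KI_one
  have e3 := JJ_unique KI_convex KI_compact.isBounded KI_zero KI_one hv k1
  have e4 := JJ_unique KI_convex KI_compact.isBounded KI_zero KI_one k2 k3
  have hU1 : U.psi c0 1 = L'.pt ⟨1, KI_one⟩ := by
    rw [U.psi_of_mem c0 KI_one, ← fb]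
    have h1 : Q.pt (gb ⟨1, KI_one⟩) = Q.pt ⟨1, KI_one⟩ := by
      congr 1
      ext
      simp [gb]
    rw [h1]
    subst hp
    have h2 := Lft.path_end (w.trans u) ys.cls Q hQ
    have h3 := Lft.path_end w' ys.cls L' hL'
    have h4 : Q.pt ⟨1, KI_one⟩ =
      ⟨z', ys.cls.trans (Homotopic.Quotient.mk (w.trans u))⟩ := h2
    have h5 : L'.pt ⟨1, KI_one⟩ = ⟨z', ys.cls.trans (Homotopic.Quotient.mk w')⟩ := h3
    rw [h4, h5, hw', Homotopic.Quotient.mk_trans]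
  have hU0 : U.psi c0 0 = L.pt ⟨1, KI_one⟩ := by
    rw [U.psi_of_mem c0 KI_zero, hU]
  rw [hU0, hU1] at e4
  have : v + s1 (L.pt ⟨1, KI_one⟩) (L'.pt ⟨1, KI_one⟩) - v' =
      (v - w1) - (w2 - s1 (L.pt ⟨1, KI_one⟩) (L'.pt ⟨1, KI_one⟩)) - (vq - (w1 + w2)) + (vq - v')
      + 0 := by
    abel
  rw [this]
  exact add_mem (add_mem (sub_mem (sub_mem e3 e4) e1) e2) (zero_mem _)

/-- simple connectivity at small scales -/
theorem pc_sc {η : ℝ} (hη : 0 < η) (z : C1 (PC M b)) (hz : z ∈ Sm1 (pnear (b := b) η))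
    (hd : d1 z = 0) : ∃ c ∈ Sm2 (pnear (b := b) η), d2 c = z := by
  have hcI : ContractibleSpace KI := KI_convex.contractibleSpace ⟨0, KI_zero⟩
  set ys : PC M b := ⟨b, Homotopic.Quotient.refl b⟩ with hys
  have hrep : ∀ y : PC M b, ∃ (p : Path b y.pt) (L : Lft b (pathKI p)) (v : C1 (PC M b)),
      Homotopic.Quotient.mk p = y.cls ∧ L.pt ⟨0, KI_zero⟩ = ys ∧ L.pt ⟨1, KI_one⟩ = y ∧
      JJ (pnear η) KI (L.psi ys) 0 1 v := by
    intro y
    obtain ⟨p, hp⟩ := Homotopic.Quotient.mk_surjective y.cls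
    obtain ⟨L, hL0, hL1⟩ := exists_path_lift ys p
    obtain ⟨v, -, -, hv⟩ := JJ_exists KI_convex KI_compact.isBounded
      (pnear_uc KI_convex KI_compact L ys hη) KI_zero KI_one
    refine ⟨p, L, v, hp, hL0, ?_, hv⟩
    rw [hL1, hp]
    obtain ⟨x, q⟩ := y
    change (⟨x, (Homotopic.Quotient.refl b).trans q⟩ : PC M b) = _
    rw [Homotopic.Quotient.refl_trans]
  choose p L v hp hL0 hL1 hv using hrep
  have key : ∀ y y', pnear η y y' → v y' - v y - s1 y y' ∈ Bd (pnear (b := b) η) := by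
    rintro y y' ⟨u, hu, hud⟩
    have := JJ_triangle hη ys rfl (p y) u (p y') (by rw [hp, hp, hu]) hud (L y) (L y')
      (hL0 y) (hL0 y') ys (hv y) (hv y')
    rw [hL1, hL1] at this
    have e : v y' - v y - s1 y y' = -(v y + s1 y y' - v y') := by abel
    rw [e]
    exact neg_mem this
  have h2 : ((ext v).comp d1 - LinearMap.id : C1 (PC M b) →ₗ[ℚ] C1 (PC M b)) z ∈
      Bd (pnear (b := b) η) := by
    refine map_supported ?_ hz
    rintro ⟨y, y'⟩ hyy'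
    change ext v (d1 (s1 y y')) - s1 y y' ∈ _
    rw [d1_s1, map_sub, ext_s0, ext_s0]
    exact key y y' hyy'
  rw [LinearMap.sub_apply, LinearMap.comp_apply, hd, map_zero, zero_sub] at h2
  have h3 := neg_mem h2
  rw [neg_neg] at h3
  exact mem_Bd.1 h3

end sc

end Pool.Agent.SelfCover
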